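import Mathlib

/-!
# Definitions: random walks on finite groups, minimal generating sets and cut-off
-/

namespace Pool.Agent.H79.Cut

open Finset Filter Topology

section walks

variable {G : Type*} [Group G] [Fintype G] [DecidableEq G]

/-- The convolution `(p * q)(g) = ∑_h p(h) q(h⁻¹ g)`. -/
noncomputable def conv (p q : G → ℝ) : G → ℝ := fun g => ∑ h, p h * q (h⁻¹ * g)

/-- The `k`-fold convolution power: the law after `k` steps of the walk driven by `p` started at
the identity. -/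
noncomputable def convPow (p : G → ℝ) : ℕ → G → ℝ
  | 0 => fun g => if g = 1 then 1 else 0
  | k + 1 => conv (convPow p k) p

/-- The uniform probability measure on the finite set `S`. -/
noncomputable def unifOn (S : Finset G) : G → ℝ := fun g => if g ∈ S then 1 / (S.card : ℝ) else 0

/-- The total variation distance `max_A |μ(A) - ν(A)|`. -/
noncomputable def tv (μ ν : G → ℝ) : ℝ := ⨆ A : Finset G, |∑ g ∈ A, μ g - ∑ g ∈ A, ν g|

/-- `S` is a minimal generating set of the group `G`. -/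
def IsMinGen (S : Finset G) : Prop :=
  Subgroup.closure (S : Set G) = ⊤ ∧ ∀ T : Finset G, T ⊂ S → Subgroup.closure (T : Set G) ≠ ⊤

/-- `p` is the uniform measure on one of `Σ`, `Σ ∪ {e}`, `Σ ∪ Σ⁻¹`, `Σ ∪ Σ⁻¹ ∪ {e}` for a minimal
generating set `Σ`. -/
def IsMinGenWalk (p : G → ℝ) : Prop :=
  ∃ S : Finset G, IsMinGen S ∧
    (p = unifOn S ∨ p = unifOn (insert 1 S) ∨ p = unifOn (S ∪ S.image (fun g => g⁻¹)) ∨
      p = unifOn (insert 1 (S ∪ S.image (fun g => g⁻¹))))

end walks

/-- The family `(S_n, p_n)` has a (total variation) cut-off at times `t_n`. -/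
def HasCutoff (p : ∀ n : ℕ, Equiv.Perm (Fin n) → ℝ) (t : ℕ → ℝ) : Prop :=
  (∀ᶠ n in atTop, 0 < t n) ∧ Tendsto t atTop atTop ∧
  ∀ ε : ℝ, 0 < ε → ε < 1 →
    Tendsto (fun n => tv (convPow (p n) ⌊(1 + ε) * t n⌋₊) (unifOn univ)) atTop (𝓝 0) ∧
    Tendsto (fun n => tv (convPow (p n) ⌊(1 - ε) * t n⌋₊) (unifOn univ)) atTop (𝓝 1)

/-- The sequence `t` is a sequence of cut-off times of a family of walks on the symmetric groups
`S_n` based on minimal generating sets (defined for all sufficiently large `n`). -/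
def IsCutoffTime (t : ℕ → ℝ) : Prop :=
  ∃ p : ∀ n : ℕ, Equiv.Perm (Fin n) → ℝ, (∀ᶠ n in atTop, IsMinGenWalk (p n)) ∧ HasCutoff p t

end Pool.Agent.H79.Cut
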