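import Mathlib

/-!
# Averages over pointwise stabilisers in a symmetric group

For a finite set `U` of points, `avg U h` is the average of `h` over all permutations fixing
every point of `U`.
-/

namespace Pool.Agent.H79.Cut

open Equiv Finset

variable {α : Type*} [Fintype α] [DecidableEq α]

/-- Permutations fixing every point of `U`. -/
def Fx (U : Finset α) : Finset (Perm α) := univ.filter fun π => ∀ x ∈ U, π x = x

lemma aii (π : Perm α) (x : α) : π (π⁻¹ x) = x := Equiv.apply_symm_apply π x

lemma mem_Fx {U : Finset α} {π : Perm α} : π ∈ Fx U ↔ ∀ x ∈ U, π x = x := by simp [Fx]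

lemma one_mem_Fx (U : Finset α) : (1 : Perm α) ∈ Fx U := by simp [mem_Fx]

lemma Fx_card_pos (U : Finset α) : 0 < (Fx U).card := card_pos.mpr ⟨1, one_mem_Fx U⟩

lemma mul_mem_Fx {U : Finset α} {π ρ : Perm α} (h1 : π ∈ Fx U) (h2 : ρ ∈ Fx U) :
    π * ρ ∈ Fx U := by
  rw [mem_Fx] at *
  intro x hx
  rw [Perm.mul_apply, h2 x hx, h1 x hx]

lemma inv_mem_Fx {U : Finset α} {π : Perm α} (h1 : π ∈ Fx U) : π⁻¹ ∈ Fx U := by
  rw [mem_Fx] at *
  intro x hx
  rw [Perm.inv_eq_iff_eq, h1 x hx]

/-- The average of `h` over the permutations fixing every point of `U`. -/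
noncomputable def avg (U : Finset α) (h : Perm α → ℝ) : ℝ :=
  (∑ π ∈ Fx U, h π) / (Fx U).card

lemma avg_mono {U : Finset α} {h h' : Perm α → ℝ} (hh : ∀ π, h π ≤ h' π) :
    avg U h ≤ avg U h' := by
  unfold avg
  apply div_le_div_of_nonneg_right _ (by positivity)
  exact sum_le_sum fun π _ => hh π

lemma avg_nonneg {U : Finset α} {h : Perm α → ℝ} (hh : ∀ π, 0 ≤ h π) : 0 ≤ avg U h := by
  unfold avg
  apply div_nonneg (sum_nonneg fun π _ => hh π) (by positivity)

lemma avg_le_one {U : Finset α} {h : Perm α → ℝ} (hh : ∀ π, h π ≤ 1) : avg U h ≤ 1 := by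
  unfold avg
  rw [div_le_one (by exact_mod_cast Fx_card_pos U)]
  calc ∑ π ∈ Fx U, h π ≤ ∑ π ∈ Fx U, (1:ℝ) := sum_le_sum fun π _ => hh π
    _ = (Fx U).card := by simp

lemma avg_sum {ι : Type*} (s : Finset ι) (U : Finset α) (h : ι → Perm α → ℝ) :
    avg U (fun π => ∑ i ∈ s, h i π) = ∑ i ∈ s, avg U (h i) := by
  unfold avg
  rw [sum_comm, sum_div]

lemma avg_div (U : Finset α) (h : Perm α → ℝ) (c : ℝ) :
    avg U (fun π => h π / c) = avg U h / c := by
  unfold avg
  rw [← sum_div]; ring

/-- `avg univ h = h 1`. -/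
lemma avg_univ (h : Perm α → ℝ) : avg univ h = h 1 := by
  have : Fx (univ : Finset α) = {1} := by
    ext π
    rw [mem_Fx, mem_singleton]
    constructor
    · intro hπ; ext x; simpa using hπ x (mem_univ x)
    · rintro rfl x _; rfl
  unfold avg
  rw [this]; simp

/-- `avg ∅ h` is the uniform average. -/
lemma avg_empty (h : Perm α → ℝ) :
    avg (∅ : Finset α) h = (∑ π, h π) / (Fintype.card (Perm α)) := by
  have : Fx (∅ : Finset α) = univ := by ext π; simp [mem_Fx]
  unfold avg
  rw [this]; simp

/-- the uniform average is left invariant -/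
lemma avg_empty_left (h : Perm α → ℝ) (w : Perm α) :
    avg (∅ : Finset α) (fun π => h (w * π)) = avg (∅ : Finset α) h := by
  rw [avg_empty, avg_empty]
  congr 1
  exact Fintype.sum_equiv (Equiv.mulLeft w) _ _ (fun π => rfl)

/-- right multiplication by an element of the stabiliser does not change the average -/
lemma avg_right {U : Finset α} (h : Perm α → ℝ) {g : Perm α} (hg : g ∈ Fx U) :
    avg U (fun π => h (π * g)) = avg U h := by
  unfold avg
  congr 1
  apply sum_bij' (fun π _ => π * g) (fun π _ => π * g⁻¹)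
  · intro π hπ; exact mul_mem_Fx hπ hg
  · intro π hπ; exact mul_mem_Fx hπ (inv_mem_Fx hg)
  · intro π _; simp
  · intro π _; simp
  · intro π _; rfl

lemma conj_mem_Fx {U : Finset α} {g π : Perm α} (hg : g * g = 1) (hπ : π ∈ Fx U) :
    g * π * g ∈ Fx (U.image g) := by
  rw [mem_Fx] at *
  intro x hx
  obtain ⟨y, hy, rfl⟩ := mem_image.mp hx
  have h1 : g (g y) = y := by rw [← Perm.mul_apply, hg]; rfl
  rw [Perm.mul_apply, Perm.mul_apply, h1, hπ y hy]

lemma image_image_self {U : Finset α} {g : Perm α} (hg : g * g = 1) :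
    (U.image g).image g = U := by
  rw [image_image]
  have : (g ∘ g : α → α) = id := by
    funext x; show (g * g) x = x; rw [hg]; rfl
  rw [this, image_id]

/-- moving an involution from the right to the left -/
lemma avg_move (U : Finset α) (h : Perm α → ℝ) {g : Perm α} (hg : g * g = 1) :
    avg U (fun π => h (π * g)) = avg (U.image g) (fun π => h (g * π)) := by
  have key : ∑ π ∈ Fx U, h (π * g) = ∑ π ∈ Fx (U.image g), h (g * π) := by
    apply sum_bij' (fun π _ => g * π * g) (fun π _ => g * π * g)
    · intro π hπ; exact conj_mem_Fx hg hπ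
    · intro π hπ
      have := conj_mem_Fx hg hπ
      rwa [image_image_self hg] at this
    · intro π _
      calc g * (g * π * g) * g = (g * g) * π * (g * g) := by group
        _ = π := by rw [hg]; simp
    · intro π _
      calc g * (g * π * g) * g = (g * g) * π * (g * g) := by group
        _ = π := by rw [hg]; simp
    · intro π _
      congr 1
      calc π * g = (g * g) * (π * g) := by rw [hg]; simp
        _ = g * (g * π * g) := by group
  have hc : (Fx U).card = (Fx (U.image g)).card := by
    apply card_bij' (fun π _ => g * π * g) (fun π _ => g * π * g)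
    · intro π hπ; exact conj_mem_Fx hg hπ
    · intro π hπ
      have := conj_mem_Fx hg hπ
      rwa [image_image_self hg] at this
    · intro π _
      calc g * (g * π * g) * g = (g * g) * π * (g * g) := by group
        _ = π := by rw [hg]; simp
    · intro π _
      calc g * (g * π * g) * g = (g * g) * π * (g * g) := by group
        _ = π := by rw [hg]; simp
  unfold avg
  rw [key, hc]

/-- the coset decomposition used when a point is released -/
lemma sum_release {U : Finset α} {o : α} (ho : o ∈ U) (h : Perm α → ℝ) :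
    ∑ j ∈ insert o Uᶜ, ∑ π ∈ Fx U, h (π * swap o j) = ∑ π ∈ Fx (U.erase o), h π := by
  rw [← sum_product']
  apply sum_bij' (fun (p : α × Perm α) _ => p.2 * swap o p.1)
    (fun π _ => (π⁻¹ o, π * swap o (π⁻¹ o)))
  · rintro ⟨j, π⟩ hp
    rw [mem_product] at hp
    obtain ⟨hj, hπ⟩ := hp
    simp only at hj hπ ⊢
    rw [mem_Fx] at *
    intro x hx
    have hxo : x ≠ o := (mem_erase.mp hx).1
    have hxU : x ∈ U := (mem_erase.mp hx).2
    have hxj : x ≠ j := by
      rintro rfl
      rcases mem_insert.mp hj with h1 | h1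
      · exact hxo h1
      · exact (mem_compl.mp h1) hxU
    rw [Perm.mul_apply, swap_apply_of_ne_of_ne hxo hxj, hπ x hxU]
  · intro π hπ
    rw [mem_product]
    simp only
    constructor
    · by_cases h1 : π⁻¹ o = o
      · rw [h1]; exact mem_insert_self _ _
      · apply mem_insert_of_mem
        rw [mem_compl]
        intro h2
        have h3 : π⁻¹ o ∈ U.erase o := mem_erase.mpr ⟨h1, h2⟩
        have h4 := (mem_Fx.mp hπ) _ h3
        rw [aii] at h4
        exact h1 h4.symm
    · rw [mem_Fx]
      intro x hx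
      rw [Perm.mul_apply]
      by_cases hxo : x = o
      · subst hxo
        rw [swap_apply_left, aii]
      · have hx' : x ∈ U.erase o := mem_erase.mpr ⟨hxo, hx⟩
        have h4 := (mem_Fx.mp hπ) _ hx'
        have hxj : x ≠ π⁻¹ o := by
          intro h5
          have : π x = o := by rw [h5, aii]
          rw [h4] at this
          exact hxo this
        rw [swap_apply_of_ne_of_ne hxo hxj, h4]
  · rintro ⟨j, π⟩ hp
    rw [mem_product] at hp
    obtain ⟨hj, hπ⟩ := hp
    simp only at hj hπ ⊢
    have hπo : π o = o := (mem_Fx.mp hπ) o ho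
    have h1 : (π * swap o j)⁻¹ o = j := by
      rw [Perm.inv_eq_iff_eq, Perm.mul_apply, swap_apply_right, hπo]
    rw [h1]
    simp [mul_assoc]
  · intro π _
    simp [mul_assoc]
  · rintro ⟨j, π⟩ _
    rfl

lemma card_release {U : Finset α} {o : α} (ho : o ∈ U) :
    ((Uᶜ.card : ℝ) + 1) * (Fx U).card = (Fx (U.erase o)).card := by
  have h := sum_release ho (fun _ : Perm α => (1:ℝ))
  simp only [sum_const, nsmul_eq_mul, mul_one] at h
  rw [card_insert_of_notMem (by simpa using ho)] at h
  push_cast at h
  exact h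

/-- releasing a point `o`: the averages over `swap o j`, `j ∉ U` or `j = o`, combine to the
average over the larger group. -/
lemma avg_release {U : Finset α} {o : α} (ho : o ∈ U) (h : Perm α → ℝ) :
    ∑ j ∈ insert o Uᶜ, avg U (fun π => h (π * swap o j)) =
      ((Uᶜ.card : ℝ) + 1) * avg (U.erase o) h := by
  unfold avg
  rw [← sum_div, sum_release ho h, ← card_release ho]
  have h1 : ((Fx U).card : ℝ) ≠ 0 := by exact_mod_cast (Fx_card_pos U).ne'
  have h2 : ((Uᶜ.card : ℝ) + 1) ≠ 0 := by positivity
  field_simp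

/-- adding a point to `U` (dropping a mark) can only increase bounds that are uniform over left
translations. -/
lemma avg_drop {U V : Finset α} (hUV : U ⊆ V) (h : Perm α → ℝ) (C : ℝ)
    (hC : ∀ w : Perm α, avg V (fun π => h (w * π)) ≤ C) : avg U h ≤ C := by
  have hU : ((Fx U).card : ℝ) ≠ 0 := by exact_mod_cast (Fx_card_pos U).ne'
  have hV : ((Fx V).card : ℝ) ≠ 0 := by exact_mod_cast (Fx_card_pos V).ne'
  have key : avg U h = (∑ w ∈ Fx U, avg V (fun π => h (w * π))) / (Fx U).card := by
    unfold avg
    congr 1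
    rw [← sum_div, sum_comm]
    have : ∀ π ∈ Fx V, ∑ w ∈ Fx U, h (w * π) = ∑ w ∈ Fx U, h w := by
      intro π hπ
      have hπU : π ∈ Fx U := by
        rw [mem_Fx] at *
        intro x hx; exact hπ x (hUV hx)
      apply sum_bij' (fun w _ => w * π) (fun w _ => w * π⁻¹)
      · intro w hw; exact mul_mem_Fx hw hπU
      · intro w hw; exact mul_mem_Fx hw (inv_mem_Fx hπU)
      · intro w _; simp
      · intro w _; simp
      · intro w _; rfl
    rw [sum_congr rfl this, sum_const, nsmul_eq_mul, mul_div_cancel_left₀ _ hV]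
  rw [key, div_le_iff₀ (by exact_mod_cast Fx_card_pos U)]
  calc ∑ w ∈ Fx U, avg V (fun π => h (w * π)) ≤ ∑ w ∈ Fx U, C := sum_le_sum fun w _ => hC w
    _ = C * (Fx U).card := by simp [mul_comm]

end Pool.Agent.H79.Cut
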