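import Mathlib
import Pool.Agent.H79.CutAvg

/-!
# The broom and its transposition walk

Positions are `Fin n`.  The hub is `0`; every `i` with `0 < i` and `i + k < n` is a leaf attached
to the hub; the positions `i` with `n ≤ i + k` form a path attached to the leaf `n - k - 1`.
-/

namespace Pool.Agent.H79.Cut

open Equiv Finset

/-- The parent of a vertex in the broom with a tail of `k` edges. -/
def par (n k : ℕ) [NeZero n] (i : Fin n) : Fin n :=
  if (i : ℕ) + k < n then 0 else ⟨(i : ℕ) - 1, by omega⟩

/-- The transposition along the edge from `i` to its parent (the identity for `i = 0`). -/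
def gl (n k : ℕ) [NeZero n] (i : Fin n) : Perm (Fin n) := swap i (par n k i)

variable {n k : ℕ} [NeZero n]

lemma gl_sq (i : Fin n) : gl n k i * gl n k i = 1 := swap_mul_self _ _

lemma gl_zero (hn : k < n) : gl n k (0 : Fin n) = 1 := by
  unfold gl par
  rw [if_pos (by simpa using hn)]
  exact swap_self _

/-- One step of the walk, as an operator on functions. -/
noncomputable def K (n k : ℕ) [NeZero n] (f : Perm (Fin n) → ℝ) : Perm (Fin n) → ℝ :=
  fun σ => (∑ i : Fin n, f (σ * gl n k i)) / n

lemma npos : (0 : ℝ) < n := by exact_mod_cast Nat.pos_of_ne_zero (NeZero.ne n)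

lemma K_nonneg {f : Perm (Fin n) → ℝ} (h : ∀ σ, 0 ≤ f σ) (σ) : 0 ≤ K n k f σ := by
  unfold K
  exact div_nonneg (sum_nonneg fun i _ => h _) npos.le

lemma K_le_one {f : Perm (Fin n) → ℝ} (h : ∀ σ, f σ ≤ 1) (σ) : K n k f σ ≤ 1 := by
  unfold K
  rw [div_le_one npos]
  calc ∑ i : Fin n, f (σ * gl n k i) ≤ ∑ i : Fin n, (1:ℝ) := sum_le_sum fun i _ => h _
    _ = n := by simp

lemma K_left (f : Perm (Fin n) → ℝ) (w : Perm (Fin n)) :
    K n k (fun π => f (w * π)) = fun π => K n k f (w * π) := by
  funext π
  unfold K
  simp only [mul_assoc]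

lemma Kit_nonneg {f : Perm (Fin n) → ℝ} (h : ∀ σ, 0 ≤ f σ) (s : ℕ) :
    ∀ σ, 0 ≤ (K n k)^[s] f σ := by
  induction s with
  | zero => exact h
  | succ s ih => rw [Function.iterate_succ_apply']; exact K_nonneg ih

lemma Kit_le_one {f : Perm (Fin n) → ℝ} (h : ∀ σ, f σ ≤ 1) (s : ℕ) :
    ∀ σ, (K n k)^[s] f σ ≤ 1 := by
  induction s with
  | zero => exact h
  | succ s ih => rw [Function.iterate_succ_apply']; exact K_le_one ih

lemma Kit_left (f : Perm (Fin n) → ℝ) (w : Perm (Fin n)) (s : ℕ) :
    (K n k)^[s] (fun π => f (w * π)) = fun π => (K n k)^[s] f (w * π) := by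
  induction s with
  | zero => rfl
  | succ s ih =>
    rw [Function.iterate_succ_apply', Function.iterate_succ_apply', ih, K_left]

/-- the average of one more step -/
lemma avg_K (U : Finset (Fin n)) (h : Perm (Fin n) → ℝ) :
    avg U (K n k h) = (∑ i : Fin n, avg U (fun π => h (π * gl n k i))) / n := by
  unfold K
  rw [avg_div, avg_sum]

/-- `gl i` moves a non-hub point `x` only if `i = x` or `i` is the child of `x` in the tail. -/
lemma gl_apply_self (i : Fin n) : gl n k i i = par n k i := swap_apply_left _ _

lemma gl_apply_par (i : Fin n) : gl n k i (par n k i) = i := swap_apply_right _ _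

lemma gl_fix {i x : Fin n} (h1 : x ≠ i) (h2 : x ≠ par n k i) : gl n k i x = x :=
  swap_apply_of_ne_of_ne h1 h2

lemma par_of_lt {i : Fin n} (h : (i : ℕ) + k < n) : par n k i = 0 := by
  unfold par; rw [if_pos h]

lemma par_of_ge {i : Fin n} (h : n ≤ (i : ℕ) + k) : ((par n k i : Fin n) : ℕ) = (i : ℕ) - 1 := by
  unfold par; rw [if_neg (by omega)]

/-- the generator at a non-hub vertex -/
lemma gen_sum (F : Fin n → ℝ) (x : Fin n) (hx : x ≠ 0) :
    ∑ i, (F (gl n k i x) - F x) = (F (par n k x) - F x) +
      (if h : (x : ℕ) + 1 < n ∧ n ≤ (x : ℕ) + 1 + k then F ⟨(x : ℕ) + 1, h.1⟩ - F x else 0) := by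
  have hx0 : (x : ℕ) ≠ 0 := fun h => hx (Fin.ext h)
  by_cases h : (x : ℕ) + 1 < n ∧ n ≤ (x : ℕ) + 1 + k
  · rw [dif_pos h]
    set x' : Fin n := ⟨(x : ℕ) + 1, h.1⟩ with hx'
    have hne : x ≠ x' := by intro e; have := congrArg Fin.val e; simp [hx'] at this
    have hpx' : par n k x' = x := by
      apply Fin.ext
      rw [par_of_ge (by simpa [hx'] using h.2)]
      simp [hx']
    rw [← sum_subset (subset_univ {x, x'}), sum_pair hne, gl_apply_self]
    · congr 2
      have := gl_apply_par (k := k) x'
      rw [hpx'] at this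
      rw [this]
    · intro i _ hi
      rw [mem_insert, mem_singleton, not_or] at hi
      rw [gl_fix (Ne.symm hi.1), sub_self]
      intro e
      by_cases h3 : (i : ℕ) + k < n
      · rw [par_of_lt h3] at e; exact hx e
      · have e' := congrArg Fin.val e
        rw [par_of_ge (by omega)] at e'
        apply hi.2
        apply Fin.ext
        simp only [hx']
        omega
  · rw [dif_neg h, add_zero]
    rw [sum_eq_single x, gl_apply_self]
    · intro i _ hi
      rw [gl_fix (Ne.symm hi), sub_self]
      intro e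
      by_cases h3 : (i : ℕ) + k < n
      · rw [par_of_lt h3] at e; exact hx e
      · have e' := congrArg Fin.val e
        rw [par_of_ge (by omega)] at e'
        apply h
        have := i.2
        omega
    · intro h; exact absurd (mem_univ x) h

/-- the tail part of the generator -/
lemma genT_sum (F : Fin n → ℝ) (x : Fin n) (hk : k + 2 ≤ n) :
    ∑ i ∈ univ.filter (fun i : Fin n => n ≤ (i : ℕ) + k), (F (gl n k i x) - F x) =
      (if n ≤ (x : ℕ) + k then F (par n k x) - F x else 0) +
      (if h : (x : ℕ) + 1 < n ∧ n ≤ (x : ℕ) + 1 + k then F ⟨(x : ℕ) + 1, h.1⟩ - F x else 0) := by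
  have hzero : ∀ i : Fin n, n ≤ (i : ℕ) + k → i ≠ x → ¬ ((i : ℕ) = (x : ℕ) + 1) →
      F (gl n k i x) - F x = 0 := by
    intro i hi hix hix'
    rw [gl_fix (Ne.symm hix), sub_self]
    intro e
    have e' := congrArg Fin.val e
    rw [par_of_ge hi] at e'
    omega
  by_cases h : (x : ℕ) + 1 < n ∧ n ≤ (x : ℕ) + 1 + k
  · rw [dif_pos h]
    set x' : Fin n := ⟨(x : ℕ) + 1, h.1⟩ with hx'
    have hne : x ≠ x' := by intro e; have := congrArg Fin.val e; simp [hx'] at this
    have hpx' : par n k x' = x := by
      apply Fin.ext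
      rw [par_of_ge (by simpa [hx'] using h.2)]
      simp [hx']
    have hgx' : gl n k x' x = x' := by
      have := gl_apply_par (k := k) x'
      rw [hpx'] at this
      exact this
    by_cases h1 : n ≤ (x : ℕ) + k
    · rw [if_pos h1]
      rw [← sum_subset (s₁ := {x, x'})]
      · rw [sum_pair hne, gl_apply_self, hgx']
      · intro i hi
        rw [mem_insert, mem_singleton] at hi
        rw [mem_filter]
        refine ⟨mem_univ _, ?_⟩
        rcases hi with rfl | rfl
        · exact h1
        · simpa [hx'] using h.2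
      · intro i hi hi2
        rw [mem_insert, mem_singleton, not_or] at hi2
        apply hzero i (mem_filter.mp hi).2 hi2.1
        intro e; apply hi2.2; apply Fin.ext; simpa [hx'] using e
    · rw [if_neg h1, zero_add]
      rw [sum_eq_single x', hgx']
      · intro i hi hi2
        by_cases h3 : i = x
        · exfalso; rw [h3] at hi; exact h1 (mem_filter.mp hi).2
        · apply hzero i (mem_filter.mp hi).2 h3
          intro e; apply hi2; apply Fin.ext; simpa [hx'] using e
      · intro h3; exfalso; apply h3; rw [mem_filter]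
        exact ⟨mem_univ _, by simpa [hx'] using h.2⟩
  · rw [dif_neg h, add_zero]
    by_cases h1 : n ≤ (x : ℕ) + k
    · rw [if_pos h1]
      rw [sum_eq_single x, gl_apply_self]
      · intro i hi hi2
        apply hzero i (mem_filter.mp hi).2 hi2
        intro e; apply h
        have := i.2
        omega
      · intro h3; exfalso; apply h3; rw [mem_filter]
        exact ⟨mem_univ _, h1⟩
    · rw [if_neg h1]
      apply sum_eq_zero
      intro i hi
      have hi' := (mem_filter.mp hi).2
      apply hzero i hi'
      · rintro rfl; exact h1 hi'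
      · intro e; apply h
        have := i.2
        omega

lemma sum_image_gl (F : Fin n → ℝ) (U : Finset (Fin n)) (i : Fin n) :
    ∑ x ∈ U.image (gl n k i), F x = ∑ x ∈ U, F (gl n k i x) :=
  sum_image fun _ _ _ _ h => (gl n k i).injective h

lemma card_image_gl (U : Finset (Fin n)) (i : Fin n) : (U.image (gl n k i)).card = U.card :=
  card_image_of_injective _ (gl n k i).injective

end Pool.Agent.H79.Cut
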