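import Mathlib
import Pool.Agent.H79.CutBroom

/-!
# Lower bound: surviving cards in the tail
-/

namespace Pool.Agent.H79.Cut

open Equiv Finset

variable {n k : ℕ} [NeZero n]

/-- survival probabilities of a single card -/
noncomputable def fs (n k : ℕ) [NeZero n] : ℕ → Fin n → ℝ
  | 0, x => if x = 0 then 0 else 1
  | s + 1, x => if x = 0 then 0 else (∑ i, fs n k s (gl n k i x)) / n

lemma fs_hub (s : ℕ) : fs n k s 0 = 0 := by
  cases s <;> simp [fs]

lemma fs_succ {s : ℕ} {x : Fin n} (hx : x ≠ 0) :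
    fs n k (s + 1) x = (∑ i, fs n k s (gl n k i x)) / n := by
  simp [fs, hx]

lemma fs_nonneg (s : ℕ) : ∀ x : Fin n, 0 ≤ fs n k s x := by
  induction s with
  | zero => intro x; simp only [fs]; split_ifs <;> norm_num
  | succ s ih =>
    intro x
    simp only [fs]
    split_ifs
    · exact le_rfl
    · exact div_nonneg (sum_nonneg fun i _ => ih _) npos.le

lemma fs_le_one (s : ℕ) : ∀ x : Fin n, fs n k s x ≤ 1 := by
  induction s with
  | zero => intro x; simp only [fs]; split_ifs <;> norm_num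
  | succ s ih =>
    intro x
    simp only [fs]
    split_ifs
    · norm_num
    · rw [div_le_one npos]
      calc ∑ i : Fin n, fs n k s (gl n k i x) ≤ ∑ i : Fin n, (1:ℝ) := sum_le_sum fun i _ => ih _
        _ = n := by simp

lemma fs_anti (s : ℕ) : ∀ x : Fin n, fs n k (s + 1) x ≤ fs n k s x := by
  induction s with
  | zero =>
    intro x
    by_cases hx : x = 0
    · rw [hx, fs_hub, fs_hub]
    · have : fs n k 0 x = 1 := by simp [fs, hx]
      rw [this]
      exact fs_le_one 1 x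
  | succ s ih =>
    intro x
    by_cases hx : x = 0
    · rw [hx, fs_hub, fs_hub]
    · rw [fs_succ hx, fs_succ hx]
      exact div_le_div_of_nonneg_right (sum_le_sum fun i _ => ih _) npos.le

lemma swap_sq_ineq (f : Fin n → ℝ) (A : Finset (Fin n)) (i j : Fin n) :
    (∑ x ∈ A, (f (swap i j x) - f x)) ^ 2 ≤ ∑ x ∈ A, (f (swap i j x) - f x) ^ 2 := by
  by_cases hij : i = j
  · subst hij
    simp
  · have hz : ∀ x, x ≠ i → x ≠ j → f (swap i j x) - f x = 0 := by
      intro x h1 h2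
      rw [swap_apply_of_ne_of_ne h1 h2, sub_self]
    have hs : ∀ F : Fin n → ℝ, (∀ x, x ≠ i → x ≠ j → F x = 0) →
        ∑ x ∈ A, F x = (if i ∈ A then F i else 0) + (if j ∈ A then F j else 0) := by
      intro F hF
      have h1 : ∑ x ∈ A, F x = ∑ x ∈ A, ((if x = i then F i else 0) + (if x = j then F j else 0)) := by
        apply sum_congr rfl
        intro x _
        by_cases h2 : x = i
        · subst h2; rw [if_pos rfl, if_neg hij, add_zero]
        · by_cases h3 : x = j
          · subst h3; rw [if_neg h2, if_pos rfl, zero_add]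
          · rw [if_neg h2, if_neg h3, hF x h2 h3, add_zero]
      rw [h1, sum_add_distrib, sum_ite_eq', sum_ite_eq']
    rw [hs _ hz, hs (fun x => (f (swap i j x) - f x) ^ 2) (fun x h1 h2 => by
      simp only [hz x h1 h2]; norm_num)]
    simp only [swap_apply_left, swap_apply_right]
    split_ifs <;> nlinarith [sq_nonneg (f j - f i)]

/-- the weight used in the second moment argument -/
noncomputable def W (n k : ℕ) [NeZero n] (c : ℝ) (s : ℕ) (A : Finset (Fin n)) : ℝ :=
  2 * c * (∑ x ∈ A, fs n k s x) -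
    c ^ 2 * ((∑ x ∈ A, fs n k s x) ^ 2 + (∑ x ∈ A, fs n k s x) - ∑ x ∈ A, (fs n k s x) ^ 2)

lemma W_image (c : ℝ) (s : ℕ) (A : Finset (Fin n)) (i : Fin n) :
    W n k c s ((A.image (gl n k i)).erase 0) =
      2 * c * (∑ x ∈ A, fs n k s (gl n k i x)) -
      c ^ 2 * ((∑ x ∈ A, fs n k s (gl n k i x)) ^ 2 + (∑ x ∈ A, fs n k s (gl n k i x)) -
        ∑ x ∈ A, (fs n k s (gl n k i x)) ^ 2) := by
  have h1 : ∀ F : Fin n → ℝ, F 0 = 0 → ∑ x ∈ (A.image (gl n k i)).erase 0, F x =
      ∑ x ∈ A, F (gl n k i x) := by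
    intro F hF
    rw [← sum_image_gl F A i]
    by_cases h0 : (0 : Fin n) ∈ A.image (gl n k i)
    · rw [← sum_erase_add _ _ h0, hF, add_zero]
    · rw [erase_eq_of_notMem h0]
  unfold W
  rw [h1 _ (fs_hub s), h1 (fun x => (fs n k s x) ^ 2) (by simp only [fs_hub]; norm_num)]

lemma sum_aux (X S : ℝ) (a b c : Fin n → ℝ) :
    ∑ i, (X + (2 * S * a i - 2 * b i) + c i) =
      n * X + (2 * S * ∑ i, a i - 2 * ∑ i, b i) + ∑ i, c i := by
  rw [sum_add_distrib, sum_add_distrib, sum_sub_distrib, mul_sum, mul_sum, sum_const]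
  simp only [card_univ, Fintype.card_fin, nsmul_eq_mul]

lemma W_step (c : ℝ) (s : ℕ) {A : Finset (Fin n)} (h0 : (0 : Fin n) ∉ A) :
    n * W n k c (s + 1) A ≤ ∑ i, W n k c s ((A.image (gl n k i)).erase 0) := by
  have hn : (0 : ℝ) < n := npos
  simp only [W_image]
  set f := fs n k s with hf
  have hf' : ∀ x ∈ A, fs n k (s + 1) x = (∑ i, f (gl n k i x)) / n := by
    intro x hx
    apply fs_succ
    rintro rfl
    exact h0 hx
  -- first order terms
  have hM : (n : ℝ) * ∑ x ∈ A, fs n k (s + 1) x = ∑ i, ∑ x ∈ A, f (gl n k i x) := by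
    rw [sum_comm, mul_sum]
    apply sum_congr rfl
    intro x hx
    rw [hf' x hx]; field_simp
  -- second order terms
  have hQ : ∑ i, ((∑ x ∈ A, f (gl n k i x)) ^ 2 - ∑ x ∈ A, (f (gl n k i x)) ^ 2) ≤
      n * ((∑ x ∈ A, fs n k (s + 1) x) ^ 2 - ∑ x ∈ A, (fs n k (s + 1) x) ^ 2) := by
    set δ : Fin n → ℝ := fun x => fs n k (s + 1) x - f x with hδ
    set S := ∑ x ∈ A, f x with hS
    have hδle : ∀ x ∈ A, 0 ≤ -δ x := by
      intro x _
      have := fs_anti (k := k) s x
      simp only [hδ]; linarith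
    have hδn : ∀ x ∈ A, ∑ i, (f (gl n k i x) - f x) = n * δ x := by
      intro x hx
      simp only [hδ]
      rw [hf' x hx, sum_sub_distrib]
      simp only [sum_const, card_univ, Fintype.card_fin, nsmul_eq_mul]
      field_simp
    have e1 : ∀ i : Fin n, (∑ x ∈ A, f (gl n k i x)) ^ 2 - ∑ x ∈ A, (f (gl n k i x)) ^ 2 =
        (S ^ 2 - ∑ x ∈ A, (f x) ^ 2) + (2 * S * ∑ x ∈ A, (f (gl n k i x) - f x) -
          2 * ∑ x ∈ A, f x * (f (gl n k i x) - f x)) +
        ((∑ x ∈ A, (f (gl n k i x) - f x)) ^ 2 - ∑ x ∈ A, (f (gl n k i x) - f x) ^ 2) := by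
      intro i
      have e2 : ∑ x ∈ A, f (gl n k i x) = S + ∑ x ∈ A, (f (gl n k i x) - f x) := by
        rw [hS, ← sum_add_distrib]; apply sum_congr rfl; intro x _; ring
      have e3 : ∑ x ∈ A, (f (gl n k i x)) ^ 2 = ∑ x ∈ A, (f x) ^ 2 +
          2 * ∑ x ∈ A, f x * (f (gl n k i x) - f x) + ∑ x ∈ A, (f (gl n k i x) - f x) ^ 2 := by
        rw [mul_sum, ← sum_add_distrib, ← sum_add_distrib]
        apply sum_congr rfl; intro x _; ring
      rw [e2, e3]; ring
    have e4 : ∑ i, ∑ x ∈ A, (f (gl n k i x) - f x) = n * ∑ x ∈ A, δ x := by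
      rw [sum_comm, mul_sum]
      exact sum_congr rfl hδn
    have e5 : ∑ i, ∑ x ∈ A, f x * (f (gl n k i x) - f x) = n * ∑ x ∈ A, f x * δ x := by
      rw [sum_comm, mul_sum]
      apply sum_congr rfl
      intro x hx
      rw [← mul_sum, hδn x hx]; ring
    have e6 : ∑ i, ((∑ x ∈ A, (f (gl n k i x) - f x)) ^ 2 -
        ∑ x ∈ A, (f (gl n k i x) - f x) ^ 2) ≤ 0 := by
      apply sum_nonpos
      intro i _
      have := swap_sq_ineq f A i (par n k i)
      unfold gl
      linarith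
    have e7 : ∑ x ∈ A, (δ x) ^ 2 ≤ (∑ x ∈ A, δ x) ^ 2 := by
      have := sum_sq_le_sq_sum_of_nonneg (s := A) (f := fun x => - δ x) hδle
      simpa [sum_neg_distrib] using this
    have e8 : (∑ x ∈ A, fs n k (s + 1) x) = S + ∑ x ∈ A, δ x := by
      rw [hS, ← sum_add_distrib]; apply sum_congr rfl; intro x _; simp only [hδ]; ring
    have e9 : ∑ x ∈ A, (fs n k (s + 1) x) ^ 2 = ∑ x ∈ A, (f x) ^ 2 +
          2 * ∑ x ∈ A, f x * δ x + ∑ x ∈ A, (δ x) ^ 2 := by
      rw [mul_sum, ← sum_add_distrib, ← sum_add_distrib]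
      apply sum_congr rfl; intro x _; simp only [hδ]; ring
    have e10 : ∑ i, ((∑ x ∈ A, f (gl n k i x)) ^ 2 - ∑ x ∈ A, (f (gl n k i x)) ^ 2) =
        n * (S ^ 2 - ∑ x ∈ A, (f x) ^ 2) + (2 * S * (n * ∑ x ∈ A, δ x) -
          2 * (n * ∑ x ∈ A, f x * δ x)) +
        ∑ i, ((∑ x ∈ A, (f (gl n k i x) - f x)) ^ 2 - ∑ x ∈ A, (f (gl n k i x) - f x) ^ 2) := by
      rw [← e4, ← e5, sum_congr rfl fun i _ => e1 i]
      exact sum_aux _ _ _ _ _
    rw [e10, e8, e9]
    nlinarith
  have e11 : ∑ i, (2 * c * (∑ x ∈ A, f (gl n k i x)) -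
      c ^ 2 * ((∑ x ∈ A, f (gl n k i x)) ^ 2 + (∑ x ∈ A, f (gl n k i x)) -
        ∑ x ∈ A, (f (gl n k i x)) ^ 2)) =
      2 * c * (∑ i, ∑ x ∈ A, f (gl n k i x)) - c ^ 2 * (∑ i, ∑ x ∈ A, f (gl n k i x)) -
      c ^ 2 * ∑ i, ((∑ x ∈ A, f (gl n k i x)) ^ 2 - ∑ x ∈ A, (f (gl n k i x)) ^ 2) := by
    rw [mul_sum, mul_sum, mul_sum, ← sum_sub_distrib, ← sum_sub_distrib]
    apply sum_congr rfl; intro i _; ring
  rw [e11, ← hM]
  unfold W
  nlinarith [mul_le_mul_of_nonneg_left hQ (sq_nonneg c)]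

/-- Indicator function. -/
noncomputable def ind {β : Type*} [DecidableEq β] (A : Finset β) : β → ℝ := fun σ => if σ ∈ A then 1 else 0

/-- The event that some card of the tail is in the tail. -/
def evT (n k : ℕ) [NeZero n] : Finset (Perm (Fin n)) :=
  univ.filter fun σ => ∃ x : Fin n, n ≤ (x : ℕ) + k + 1 ∧ n ≤ ((σ x : Fin n) : ℕ) + k + 1

lemma ind_nonneg {β : Type*} [DecidableEq β] (A : Finset β) (σ : β) : 0 ≤ ind A σ := by
  unfold ind; split_ifs <;> norm_num

lemma ind_le_one {β : Type*} [DecidableEq β] (A : Finset β) (σ : β) : ind A σ ≤ 1 := by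
  unfold ind; split_ifs <;> norm_num

lemma W_le (hn : k + 2 ≤ n) (c : ℝ) (s : ℕ) :
    ∀ A : Finset (Fin n), (∀ x ∈ A, n ≤ (x : ℕ) + k + 1) →
    ∀ σ : Perm (Fin n), (∀ x ∈ A, n ≤ ((σ x : Fin n) : ℕ) + k + 1) →
      W n k c s A ≤ (K n k)^[s] (ind (evT n k)) σ := by
  induction s with
  | zero =>
    intro A hA σ hσ
    simp only [Function.iterate_zero, id_eq]
    have h0 : ∀ x ∈ A, x ≠ 0 := by
      rintro x hx rfl
      have := hA 0 hx
      simp only [Fin.val_zero] at this
      omega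
    have hM : ∑ x ∈ A, fs n k 0 x = A.card := by
      rw [card_eq_sum_ones, Nat.cast_sum]
      apply sum_congr rfl
      intro x hx
      simp [fs, h0 x hx]
    have hQ : ∑ x ∈ A, (fs n k 0 x) ^ 2 = A.card := by
      rw [card_eq_sum_ones, Nat.cast_sum]
      apply sum_congr rfl
      intro x hx
      simp [fs, h0 x hx]
    have hW : W n k c 0 A = 1 - (1 - c * A.card) ^ 2 := by
      unfold W
      rw [hM, hQ]; ring
    rw [hW]
    rcases A.eq_empty_or_nonempty with rfl | ⟨x, hx⟩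
    · simp only [card_empty, Nat.cast_zero, mul_zero, sub_zero, one_pow, sub_self]
      exact ind_nonneg _ _
    · have : ind (evT n k) σ = 1 := by
        unfold ind
        rw [if_pos]
        unfold evT
        rw [mem_filter]
        exact ⟨mem_univ _, x, hA x hx, hσ x hx⟩
      rw [this]
      have := sq_nonneg (1 - c * (A.card : ℝ))
      linarith
  | succ s ih =>
    intro A hA σ hσ
    rw [Function.iterate_succ_apply']
    unfold K
    rw [le_div_iff₀ npos, mul_comm]
    have h0 : (0 : Fin n) ∉ A := by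
      intro h0
      have := hA 0 h0
      simp only [Fin.val_zero] at this
      omega
    refine (W_step c s h0).trans ?_
    apply sum_le_sum
    intro i _
    apply ih
    · intro x hx
      rw [mem_erase, mem_image] at hx
      obtain ⟨hx0, y, hy, rfl⟩ := hx
      have hyT := hA y hy
      by_cases hi : (i : ℕ) + k < n
      · have hp : par n k i = 0 := par_of_lt hi
        by_cases hyi : y = i
        · rw [hyi, gl_apply_self, hp] at hx0
          exact absurd rfl hx0
        · rw [gl_fix hyi (by rw [hp]; rintro rfl; exact h0 hy)]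
          exact hyT
      · have hp : ((par n k i : Fin n) : ℕ) = (i : ℕ) - 1 := par_of_ge (by omega)
        by_cases hyi : y = i
        · rw [hyi, gl_apply_self, hp]; omega
        · by_cases hyp : y = par n k i
          · rw [hyp, gl_apply_par]; omega
          · rw [gl_fix hyi hyp]; exact hyT
    · intro x hx
      rw [mem_erase, mem_image] at hx
      obtain ⟨hx0, y, hy, rfl⟩ := hx
      rw [Perm.mul_apply]
      have : gl n k i (gl n k i y) = y := by
        rw [← Perm.mul_apply, gl_sq]; rfl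
      rw [this]
      exact hσ y hy

/-- The lowest eigenfunction of the tail. -/
noncomputable def gs (n k : ℕ) (x : Fin n) : ℝ :=
  if n ≤ (x : ℕ) + k + 1 then Real.sin (((x : ℕ) + k + 2 - n : ℝ) * (Real.pi / (2 * k + 3))) else 0

lemma gs_arg_nonneg {x : Fin n} (hx : n ≤ (x : ℕ) + k + 1) :
    0 ≤ ((x : ℕ) + k + 2 - n : ℝ) * (Real.pi / (2 * k + 3)) := by
  have : (n : ℝ) ≤ (x : ℕ) + k + 1 := by exact_mod_cast hx
  have h2 : 0 ≤ ((x : ℕ) + k + 2 - n : ℝ) := by linarith
  have := Real.pi_pos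
  positivity

lemma gs_arg_le {x : Fin n} :
    ((x : ℕ) + k + 2 - n : ℝ) * (Real.pi / (2 * k + 3)) ≤ Real.pi / 2 := by
  have h1 : ((x : ℕ) : ℝ) + 1 ≤ n := by exact_mod_cast x.2
  have h2 := Real.pi_pos
  rw [mul_div_assoc', div_le_div_iff₀ (by positivity) (by norm_num)]
  nlinarith

lemma gs_nonneg (x : Fin n) : 0 ≤ gs n k x := by
  unfold gs
  split_ifs with hx
  · apply Real.sin_nonneg_of_nonneg_of_le_pi (gs_arg_nonneg hx)
    have := gs_arg_le (k := k) (x := x)
    linarith [Real.pi_pos]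
  · exact le_rfl

lemma gs_le_one (x : Fin n) : gs n k x ≤ 1 := by
  unfold gs
  split_ifs with hx
  · exact Real.sin_le_one _
  · exact zero_le_one

lemma gs_gen (hk : 1 ≤ k) (hn : k + 2 ≤ n) {x : Fin n} (hx : n ≤ (x : ℕ) + k + 1) :
    ∑ i, (gs n k (gl n k i x) - gs n k x) =
      -(2 - 2 * Real.cos (Real.pi / (2 * k + 3))) * gs n k x := by
  set θ := Real.pi / (2 * k + 3) with hθ
  have hx0 : x ≠ 0 := by
    rintro rfl
    simp only [Fin.val_zero] at hx
    omega
  rw [gen_sum _ x hx0]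
  have e1 : gs n k x = Real.sin (((x : ℕ) + k + 2 - n : ℝ) * θ) := by
    unfold gs; rw [if_pos hx]
  have three : ∀ y : ℝ, Real.sin ((y - 1) * θ) + Real.sin ((y + 1) * θ) =
      2 * Real.sin (y * θ) * Real.cos θ := by
    intro y
    rw [sub_mul, add_mul, one_mul, Real.sin_sub, Real.sin_add]; ring
  have e2 : gs n k (par n k x) = Real.sin ((((x : ℕ) + k + 2 - n : ℝ) - 1) * θ) := by
    by_cases h1 : n ≤ (x : ℕ) + k
    · have hp : ((par n k x : Fin n) : ℕ) = (x : ℕ) - 1 := par_of_ge h1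
      unfold gs
      rw [if_pos (by omega), hp, Nat.cast_sub (by omega)]
      congr 1; push_cast; ring
    · have hp : par n k x = 0 := par_of_lt (by omega)
      have hxk : ((x : ℕ) : ℝ) + k + 1 = n := by exact_mod_cast (by omega : (x : ℕ) + k + 1 = n)
      rw [hp]
      unfold gs
      rw [if_neg (by simp only [Fin.val_zero]; omega)]
      have : (((x : ℕ) + k + 2 - n : ℝ) - 1) * θ = 0 := by rw [← hxk]; ring
      rw [this, Real.sin_zero]
  by_cases h : (x : ℕ) + 1 < n ∧ n ≤ (x : ℕ) + 1 + k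
  · rw [dif_pos h]
    have e3 : gs n k ⟨(x : ℕ) + 1, h.1⟩ = Real.sin ((((x : ℕ) + k + 2 - n : ℝ) + 1) * θ) := by
      unfold gs
      rw [if_pos (by simp only; omega)]
      congr 1; push_cast; ring
    rw [e1, e2, e3]
    have := three ((x : ℕ) + k + 2 - n : ℝ)
    linarith
  · rw [dif_neg h, add_zero]
    have hxn : (x : ℕ) + 1 = n := by
      have := x.2
      by_contra hne
      apply h
      omega
    have hxn' : ((x : ℕ) : ℝ) + 1 = n := by exact_mod_cast hxn
    have hy : ((x : ℕ) + k + 2 - n : ℝ) = k + 1 := by rw [← hxn']; ring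
    rw [e1, e2, hy]
    have h3 := three ((k : ℝ) + 1)
    have h4 : Real.sin (((k : ℝ) + 1 + 1) * θ) = Real.sin (((k : ℝ) + 1) * θ) := by
      rw [← Real.sin_pi_sub]
      congr 1
      rw [hθ]
      have : (2 * (k : ℝ) + 3) ≠ 0 := by positivity
      field_simp
      ring
    rw [h4] at h3
    linarith

lemma fs_ge (hk : 1 ≤ k) (hn : k + 2 ≤ n)
    (hr : 0 ≤ 1 - (2 - 2 * Real.cos (Real.pi / (2 * k + 3))) / n) (s : ℕ) :
    ∀ x : Fin n, (1 - (2 - 2 * Real.cos (Real.pi / (2 * k + 3))) / n) ^ s * gs n k x ≤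
      fs n k s x := by
  have hnpos : (0 : ℝ) < n := npos
  have hgs : ∀ x : Fin n, ¬ n ≤ (x : ℕ) + k + 1 → gs n k x = 0 := by
    intro x hx; unfold gs; rw [if_neg hx]
  set r := 1 - (2 - 2 * Real.cos (Real.pi / (2 * k + 3))) / n with hrdef
  have hrn : (n : ℝ) * r = n - (2 - 2 * Real.cos (Real.pi / (2 * k + 3))) := by
    rw [hrdef]; field_simp
  induction s with
  | zero =>
    intro x
    by_cases hx : n ≤ (x : ℕ) + k + 1
    · have hx0 : x ≠ 0 := by
        rintro rfl
        simp only [Fin.val_zero] at hx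
        omega
      have : fs n k 0 x = 1 := by simp [fs, hx0]
      rw [this, pow_zero, one_mul]
      exact gs_le_one x
    · rw [hgs x hx, mul_zero]; exact fs_nonneg _ _
  | succ s ih =>
    intro x
    by_cases hx : n ≤ (x : ℕ) + k + 1
    · have hx0 : x ≠ 0 := by
        rintro rfl
        simp only [Fin.val_zero] at hx
        omega
      rw [fs_succ hx0, le_div_iff₀ hnpos]
      have h1 : ∑ i, r ^ s * gs n k (gl n k i x) ≤ ∑ i, fs n k s (gl n k i x) :=
        sum_le_sum fun i _ => ih _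
      refine le_trans (le_of_eq ?_) h1
      have h2 := gs_gen hk hn hx
      rw [sum_sub_distrib] at h2
      simp only [sum_const, card_univ, Fintype.card_fin, nsmul_eq_mul] at h2
      rw [← mul_sum]
      have h3 : ∑ i, gs n k (gl n k i x) = n * r * gs n k x := by
        rw [hrn]; linarith
      rw [h3, pow_succ]; ring
    · rw [hgs x hx, mul_zero]; exact fs_nonneg _ _

/-- the tail together with the special leaf -/
def TT (n k : ℕ) : Finset (Fin n) := univ.filter fun x => n ≤ (x : ℕ) + k + 1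

lemma sum_TT {m : ℕ} (hm : n = m + k + 1) (F : ℕ → ℝ) :
    ∑ x ∈ TT n k, F (x : ℕ) = ∑ j ∈ range (k + 1), F (m + j) := by
  unfold TT
  rw [sum_filter, Fin.sum_univ_eq_sum_range (fun x : ℕ => if n ≤ x + k + 1 then F x else 0) n, hm,
    add_assoc, sum_range_add]
  have h1 : ∑ x ∈ range m, (if m + (k + 1) ≤ x + k + 1 then F x else 0) = 0 := by
    apply sum_eq_zero
    intro x hx
    rw [mem_range] at hx
    rw [if_neg (by omega)]
  rw [h1, zero_add]
  apply sum_congr rfl
  intro x _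
  rw [if_pos (by omega)]

lemma card_TT {m : ℕ} (hm : n = m + k + 1) : (TT n k).card = k + 1 := by
  have h := sum_TT hm (fun _ => 1)
  simp only [sum_const, nsmul_eq_mul, mul_one, card_range] at h
  exact_mod_cast h

lemma sum_gs_ge (hn : k + 2 ≤ n) : ((k : ℝ) + 1) / 2 ≤ ∑ x ∈ TT n k, gs n k x := by
  obtain ⟨m, hm⟩ : ∃ m, n = m + k + 1 := ⟨n - k - 1, by omega⟩
  have h1 : ∑ x ∈ TT n k, (2 / (2 * (k : ℝ) + 3) * (((x : ℕ) : ℝ) + k + 2 - n)) ≤
      ∑ x ∈ TT n k, gs n k x := by
    apply sum_le_sum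
    intro x hx
    unfold TT at hx
    rw [mem_filter] at hx
    have h2 := Real.mul_le_sin (gs_arg_nonneg hx.2) (gs_arg_le (k := k) (x := x))
    unfold gs
    rw [if_pos hx.2]
    refine le_trans (le_of_eq ?_) h2
    have := Real.pi_pos
    field_simp
  refine le_trans ?_ h1
  rw [sum_TT hm (fun x => 2 / (2 * (k : ℝ) + 3) * ((x : ℝ) + k + 2 - n))]
  have h3 : ∑ j ∈ range (k + 1), (2 / (2 * (k : ℝ) + 3) * (((m + j : ℕ) : ℝ) + k + 2 - n)) =
      2 / (2 * (k : ℝ) + 3) * ∑ j ∈ range (k + 1), ((j : ℝ) + 1) := by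
    rw [mul_sum]
    apply sum_congr rfl
    intro j _
    rw [hm]; push_cast; ring
  rw [h3]
  have h4 : ∀ N : ℕ, ∑ j ∈ range N, ((j : ℝ) + 1) = N * (N + 1) / 2 := by
    intro N
    induction N with
    | zero => simp
    | succ N ih => rw [sum_range_succ, ih]; push_cast; ring
  rw [h4]
  push_cast
  rw [div_mul_eq_mul_div, div_le_div_iff₀ (by norm_num) (by positivity)]
  have : (0 : ℝ) ≤ k := by positivity
  nlinarith

/-- the uniform probability that `σ x = y` -/
lemma avg_pt (x y : Fin n) :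
    avg ∅ (fun σ : Perm (Fin n) => if σ x = y then (1 : ℝ) else 0) = 1 / n := by
  have h1 : ∀ y' : Fin n, avg ∅ (fun σ : Perm (Fin n) => if σ x = y' then (1 : ℝ) else 0) =
      avg ∅ (fun σ : Perm (Fin n) => if σ x = y then (1 : ℝ) else 0) := by
    intro y'
    rw [← avg_empty_left _ (swap y y')]
    congr 1
    funext σ
    rw [Perm.mul_apply]
    congr 1
    rw [eq_iff_iff]
    constructor
    · intro h
      have := congrArg (swap y y') h
      rwa [swap_apply_self, swap_apply_right] at this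
    · intro h
      rw [h, swap_apply_left]
  have h2 : ∑ y' : Fin n, avg ∅ (fun σ : Perm (Fin n) => if σ x = y' then (1 : ℝ) else 0) = 1 := by
    rw [← avg_sum]
    have : (fun σ : Perm (Fin n) => ∑ y' : Fin n, if σ x = y' then (1 : ℝ) else 0) = fun _ => 1 := by
      funext σ
      simp
    rw [this, avg_empty]
    simp only [sum_const, card_univ, nsmul_eq_mul, mul_one]
    rw [div_self]
    positivity
  rw [sum_congr rfl fun y' _ => h1 y'] at h2
  simp only [sum_const, card_univ, Fintype.card_fin, nsmul_eq_mul] at h2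
  rw [eq_div_iff npos.ne', mul_comm]
  exact h2

lemma avg_evT (hn : k + 2 ≤ n) : avg ∅ (ind (evT n k)) ≤ ((k : ℝ) + 1) ^ 2 / n := by
  obtain ⟨m, hm⟩ : ∃ m, n = m + k + 1 := ⟨n - k - 1, by omega⟩
  have h1 : ∀ σ : Perm (Fin n), ind (evT n k) σ ≤
      ∑ x ∈ TT n k, ∑ y ∈ TT n k, if σ x = y then (1 : ℝ) else 0 := by
    intro σ
    have hnn : ∀ x ∈ TT n k, 0 ≤ ∑ y ∈ TT n k, if σ x = y then (1 : ℝ) else 0 := by
      intro x _
      apply sum_nonneg; intro y _; split_ifs <;> norm_num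
    by_cases hσ : σ ∈ evT n k
    · have hi : ind (evT n k) σ = 1 := by unfold ind; rw [if_pos hσ]
      rw [hi]
      unfold evT at hσ
      rw [mem_filter] at hσ
      obtain ⟨_, x, hx1, hx2⟩ := hσ
      have hxT : x ∈ TT n k := by unfold TT; rw [mem_filter]; exact ⟨mem_univ _, hx1⟩
      have hyT : σ x ∈ TT n k := by unfold TT; rw [mem_filter]; exact ⟨mem_univ _, hx2⟩
      calc (1:ℝ) = if σ x = σ x then (1 : ℝ) else 0 := by rw [if_pos rfl]
        _ ≤ ∑ y ∈ TT n k, if σ x = y then (1 : ℝ) else 0 :=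
          single_le_sum (f := fun y => if σ x = y then (1 : ℝ) else 0)
            (fun y _ => by split_ifs <;> norm_num) hyT
        _ ≤ _ := single_le_sum (f := fun x => ∑ y ∈ TT n k, if σ x = y then (1 : ℝ) else 0) hnn hxT
    · have hi : ind (evT n k) σ = 0 := by unfold ind; rw [if_neg hσ]
      rw [hi]
      exact sum_nonneg hnn
  refine (avg_mono h1).trans (le_of_eq ?_)
  rw [avg_sum]
  have h2 : ∀ x ∈ TT n k, avg ∅ (fun σ : Perm (Fin n) => ∑ y ∈ TT n k,
      if σ x = y then (1 : ℝ) else 0) = (k + 1) / n := by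
    intro x _
    rw [avg_sum, sum_congr rfl fun y _ => avg_pt x y, sum_const, card_TT hm, nsmul_eq_mul]
    push_cast; ring
  rw [sum_congr rfl h2, sum_const, card_TT hm, nsmul_eq_mul]
  push_cast; ring

/-- The lower bound: the walk started at the identity is in the event `evT` with large
probability. -/
lemma lower (hk : 1 ≤ k) (hn : k + 2 ≤ n)
    (hr : 0 < 1 - (2 - 2 * Real.cos (Real.pi / (2 * k + 3))) / n) (s : ℕ) :
    1 - 2 / ((k + 1) * (1 - (2 - 2 * Real.cos (Real.pi / (2 * k + 3))) / n) ^ s) ≤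
      (K n k)^[s] (ind (evT n k)) 1 := by
  set r := 1 - (2 - 2 * Real.cos (Real.pi / (2 * k + 3))) / n with hrdef
  set μ := ∑ x ∈ TT n k, fs n k s x with hμ
  have hμ1 : (k + 1) * r ^ s / 2 ≤ μ := by
    have h1 : ∑ x ∈ TT n k, r ^ s * gs n k x ≤ μ := sum_le_sum fun x _ => fs_ge hk hn hr.le s x
    rw [← mul_sum] at h1
    have h2 := mul_le_mul_of_nonneg_left (sum_gs_ge hn) (by positivity : 0 ≤ r ^ s)
    linarith
  have hpos : 0 < (k + 1) * r ^ s / 2 := by positivity
  have hμpos : 0 < μ := lt_of_lt_of_le hpos hμ1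
  have h3 := W_le hn (1 / μ) s (TT n k) (fun x hx => by
    unfold TT at hx; rw [mem_filter] at hx; exact hx.2) 1 (fun x hx => by
    unfold TT at hx; rw [mem_filter] at hx; exact hx.2)
  refine le_trans ?_ h3
  have h4 : W n k (1 / μ) s (TT n k) = 1 - 1 / μ + (1 / μ) ^ 2 * ∑ x ∈ TT n k, (fs n k s x) ^ 2 := by
    unfold W
    rw [← hμ]
    field_simp
    ring
  rw [h4]
  have h5 : 0 ≤ (1 / μ) ^ 2 * ∑ x ∈ TT n k, (fs n k s x) ^ 2 :=
    mul_nonneg (sq_nonneg _) (sum_nonneg fun x _ => sq_nonneg _)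
  have h6 : 1 / μ ≤ 2 / ((k + 1) * r ^ s) := by
    rw [div_le_div_iff₀ hμpos (by positivity)]
    linarith
  linarith

end Pool.Agent.H79.Cut
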