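import Mathlib
import Pool.Agent.H79.CutBroom

/-!
# Second phase: clearing the tail
-/

namespace Pool.Agent.H79.Cut

open Equiv Finset

variable {n k : ℕ} [NeZero n]

/-- The potential. -/
noncomputable def hh (n k : ℕ) [NeZero n] (a θ : ℝ) (x : Fin n) : ℝ :=
  if x = 0 then Real.sin a
  else if (x : ℕ) + k + 1 < n then 1
  else Real.sin (a + ((x : ℕ) + k + 2 - n : ℝ) * θ)

/-- Parameters of the potential. -/
structure Par (n k : ℕ) (a θ : ℝ) : Prop where
  hk : 1 ≤ k
  hn : k + 3 ≤ n
  ha : 0 < a
  hθ : 0 < θ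
  hsum : a + ((k : ℝ) + 3 / 2) * θ ≤ Real.pi / 2
  hsa : Real.sin a ≤ 1 / 2
  hlam : 2 - 2 * Real.cos θ ≤ 1 / 2

section

variable {a θ : ℝ} (P : Par n k a θ)
include P

lemma Par.sin_pos : 0 < Real.sin a := by
  have h1 := P.hsum
  have h2 := P.hθ
  have h3 : 0 ≤ (k : ℝ) := by positivity
  apply Real.sin_pos_of_pos_of_lt_pi P.ha
  nlinarith [Real.pi_pos]

lemma Par.lam_nonneg : 0 ≤ 2 - 2 * Real.cos θ := by
  have := Real.cos_le_one θ
  linarith

/-- sine is monotone on the relevant range -/
lemma Par.sin_mono {j j' : ℝ} (h0 : 0 ≤ j) (h1 : j ≤ j') (h2 : j' ≤ k + 1) :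
    Real.sin (a + j * θ) ≤ Real.sin (a + j' * θ) := by
  have hθ := P.hθ
  have ha := P.ha
  apply Real.sin_le_sin_of_le_of_le_pi_div_two
  · have : 0 ≤ j * θ := by positivity
    linarith [Real.pi_pos]
  · have h3 : j' * θ ≤ (k + 1) * θ := mul_le_mul_of_nonneg_right h2 hθ.le
    have := P.hsum
    nlinarith
  · have : j * θ ≤ j' * θ := mul_le_mul_of_nonneg_right h1 hθ.le
    linarith

lemma Par.hh_ge (x : Fin n) : Real.sin a ≤ hh n k a θ x := by
  unfold hh
  split_ifs with h1 h2
  · exact le_rfl
  · exact Real.sin_le_one a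
  · have hx : (n : ℝ) ≤ (x : ℕ) + k + 1 := by exact_mod_cast (show n ≤ (x:ℕ) + k + 1 by omega)
    have hx2 : ((x : ℕ) : ℝ) + 1 ≤ n := by exact_mod_cast x.2
    have := P.sin_mono (j := 0) (j' := ((x : ℕ) + k + 2 - n : ℝ)) le_rfl (by linarith)
      (by linarith)
    simpa using this

lemma Par.hh_le_one (x : Fin n) : hh n k a θ x ≤ 1 := by
  unfold hh
  split_ifs with h1 h2
  · exact Real.sin_le_one a
  · exact le_rfl
  · exact Real.sin_le_one _

lemma Par.hh_pos (x : Fin n) : 0 < hh n k a θ x := lt_of_lt_of_le P.sin_pos (P.hh_ge x)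

lemma Par.hh_tail {x : Fin n} (hx : n ≤ (x : ℕ) + k + 1) :
    hh n k a θ x = Real.sin (a + ((x : ℕ) + k + 2 - n : ℝ) * θ) := by
  have hn := P.hn
  have h1 : x ≠ 0 := by
    rintro rfl
    simp at hx
    omega
  unfold hh
  rw [if_neg h1, if_neg (by omega)]

omit P in
lemma three_term' (y : ℝ) :
    Real.sin (y - θ) + Real.sin (y + θ) = 2 * Real.sin y * Real.cos θ := by
  rw [Real.sin_sub, Real.sin_add]; ring

/-- in the tail (past the special leaf) the potential is a supersolution -/
lemma Par.tail_ineq {x : Fin n} (hx : n ≤ (x : ℕ) + k) :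
    (hh n k a θ (par n k x) - hh n k a θ x) +
      (if h : (x : ℕ) + 1 < n ∧ n ≤ (x : ℕ) + 1 + k then
        hh n k a θ ⟨(x : ℕ) + 1, h.1⟩ - hh n k a θ x else 0) ≤
      -(2 - 2 * Real.cos θ) * hh n k a θ x := by
  have hn := P.hn
  have hpar : ((par n k x : Fin n) : ℕ) = (x : ℕ) - 1 := par_of_ge hx
  have e1 : hh n k a θ x = Real.sin (a + ((x : ℕ) + k + 2 - n : ℝ) * θ) :=
    P.hh_tail (by omega)
  have e2 : hh n k a θ (par n k x) =
      Real.sin ((a + ((x : ℕ) + k + 2 - n : ℝ) * θ) - θ) := by
    rw [P.hh_tail (by omega), hpar, Nat.cast_sub (by omega)]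
    congr 1; push_cast; ring
  by_cases h : (x : ℕ) + 1 < n ∧ n ≤ (x : ℕ) + 1 + k
  · rw [dif_pos h]
    have e3 : hh n k a θ ⟨(x : ℕ) + 1, h.1⟩ =
        Real.sin ((a + ((x : ℕ) + k + 2 - n : ℝ) * θ) + θ) := by
      rw [P.hh_tail (by simp only; omega)]
      congr 1; push_cast; ring
    rw [e1, e2, e3]
    have := three_term' (θ := θ) (a + ((x : ℕ) + k + 2 - n : ℝ) * θ)
    linarith
  · rw [dif_neg h, add_zero]
    have hxn : (x : ℕ) + 1 = n := by
      have := x.2
      by_contra hne
      apply h
      omega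
    have hxn' : ((x : ℕ) : ℝ) + 1 = n := by exact_mod_cast hxn
    rw [e1, e2]
    have h3 := three_term' (θ := θ) (a + ((x : ℕ) + k + 2 - n : ℝ) * θ)
    have hy : (a + ((x : ℕ) + k + 2 - n : ℝ) * θ) = a + (k + 1) * θ := by
      rw [← hxn']; ring
    rw [hy] at h3 ⊢
    have h4 : Real.sin (a + (k + 1) * θ) ≤ Real.sin (a + (k + 1) * θ + θ) := by
      have h5 : Real.sin (a + (k + 1) * θ + θ) - Real.sin (a + (k + 1) * θ) =
          2 * Real.sin (θ / 2) * Real.cos (a + (k + 3 / 2) * θ) := by
        rw [Real.sin_sub_sin]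
        congr 2
        · congr 1; ring
        · ring
      have h6 : 0 ≤ Real.sin (θ / 2) := by
        apply Real.sin_nonneg_of_nonneg_of_le_pi
        · linarith [P.hθ]
        · have := P.hsum
          have := P.ha
          have := P.hθ
          have : 0 ≤ (k : ℝ) * θ := by positivity
          linarith [Real.pi_pos]
      have h7 : 0 ≤ Real.cos (a + (k + 3 / 2) * θ) := by
        apply Real.cos_nonneg_of_neg_pi_div_two_le_of_le
        · have := P.ha
          have := P.hθ
          have : 0 ≤ ((k : ℝ) + 3 / 2) * θ := by positivity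
          linarith [Real.pi_pos]
        · exact P.hsum
      have : 0 ≤ 2 * Real.sin (θ / 2) * Real.cos (a + (k + 3 / 2) * θ) := by positivity
      linarith
    linarith

/-- the potential is a supersolution away from the hub -/
lemma Par.super {x : Fin n} (hx : x ≠ 0) :
    ∑ i, (hh n k a θ (gl n k i x) - hh n k a θ x) ≤ -(2 - 2 * Real.cos θ) * hh n k a θ x := by
  have hn := P.hn
  have hk := P.hk
  rw [gen_sum _ x hx]
  by_cases h1 : n ≤ (x : ℕ) + k
  · exact P.tail_ineq h1
  · push Not at h1
    rw [par_of_lt h1]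
    have hh0 : hh n k a θ (0 : Fin n) = Real.sin a := by unfold hh; rw [if_pos rfl]
    by_cases h2 : (x : ℕ) + k + 1 < n
    · rw [dif_neg (by omega), add_zero, hh0]
      have : hh n k a θ x = 1 := by unfold hh; rw [if_neg hx, if_pos h2]
      rw [this]
      have := P.hsa
      have := P.hlam
      linarith
    · have hxk : (x : ℕ) + k + 1 = n := by omega
      have hxk' : ((x : ℕ) : ℝ) + k + 1 = n := by exact_mod_cast hxk
      have h3 : (x : ℕ) + 1 < n ∧ n ≤ (x : ℕ) + 1 + k := by omega
      rw [dif_pos h3, hh0]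
      have e1 : hh n k a θ x = Real.sin (a + θ) := by
        rw [P.hh_tail (by omega)]
        congr 1; rw [← hxk']; ring
      have e3 : hh n k a θ ⟨(x : ℕ) + 1, h3.1⟩ = Real.sin (a + θ + θ) := by
        rw [P.hh_tail (by simp only; omega)]
        congr 1; push_cast; rw [← hxk']; ring
      rw [e1, e3]
      have := three_term' (θ := θ) (a + θ)
      have e4 : a + θ - θ = a := by ring
      rw [e4] at this
      linarith

/-- bound for the tail generator at any vertex -/
lemma Par.genT_le (x : Fin n) :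
    ∑ i ∈ univ.filter (fun i : Fin n => n ≤ (i : ℕ) + k), (hh n k a θ (gl n k i x) - hh n k a θ x)
      ≤ -(2 - 2 * Real.cos θ) * hh n k a θ x + (if (x : ℕ) + k < n then 2 else 0) := by
  have hn := P.hn
  have hk := P.hk
  rw [genT_sum _ x (by omega)]
  by_cases h1 : n ≤ (x : ℕ) + k
  · rw [if_pos h1, if_neg (by omega), add_zero]
    exact P.tail_ineq h1
  · rw [if_neg h1, if_pos (by omega), zero_add]
    have h2 := P.hlam
    have h3 := P.hh_le_one x
    have h4 := (P.hh_pos x).le
    have h5 : (2 - 2 * Real.cos θ) * hh n k a θ x ≤ 1 / 2 * 1 :=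
      mul_le_mul h2 h3 h4 (by norm_num)
    split_ifs with h
    · have := P.hh_le_one ⟨(x : ℕ) + 1, h.1⟩
      linarith
    · linarith

/-- The total potential of a set. -/
noncomputable def Φ (n k : ℕ) [NeZero n] (a θ : ℝ) (U : Finset (Fin n)) : ℝ :=
  ∑ x ∈ U, hh n k a θ x

lemma Par.Φ_nonneg (U : Finset (Fin n)) : 0 ≤ Φ n k a θ U :=
  sum_nonneg fun x _ => (P.hh_pos x).le

lemma Par.Φ_le (U : Finset (Fin n)) : Φ n k a θ U ≤ U.card := by
  unfold Φ
  calc ∑ x ∈ U, hh n k a θ x ≤ ∑ x ∈ U, (1:ℝ) := sum_le_sum fun x _ => P.hh_le_one x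
    _ = U.card := by simp

lemma Par.Φ_closed {U : Finset (Fin n)} (hU : (0 : Fin n) ∉ U) :
    ∑ i, Φ n k a θ (U.image (gl n k i)) ≤
      (n - (2 - 2 * Real.cos θ)) * Φ n k a θ U := by
  have h1 : ∑ i, Φ n k a θ (U.image (gl n k i)) =
      ∑ x ∈ U, ∑ i, hh n k a θ (gl n k i x) := by
    rw [sum_comm]
    apply sum_congr rfl
    intro i _
    unfold Φ
    rw [sum_image_gl]
  rw [h1]
  unfold Φ
  rw [mul_sum]
  apply sum_le_sum
  intro x hx
  have hx0 : x ≠ 0 := by rintro rfl; exact hU hx
  have := P.super hx0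
  rw [sum_sub_distrib] at this
  simp only [sum_const, card_univ, Fintype.card_fin, nsmul_eq_mul] at this
  linarith

end

/-- unmarked ordinary leaves -/
def lf (n k : ℕ) [NeZero n] (U : Finset (Fin n)) : Finset (Fin n) :=
  U.filter fun x => x ≠ 0 ∧ (x : ℕ) + k + 1 < n

/-- the letters that close an open state -/
def I1 (n k : ℕ) [NeZero n] (U : Finset (Fin n)) : Finset (Fin n) :=
  univ.filter fun i => (i : ℕ) + k < n ∧ (i = 0 ∨ i ∉ U)

lemma lf_mono {U V : Finset (Fin n)} (h : ∀ x ∈ V, x ≠ 0 → (x : ℕ) + k + 1 < n → x ∈ U) :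
    (lf n k V).card ≤ (lf n k U).card := by
  apply card_le_card
  intro x hx
  unfold lf at *
  rw [mem_filter] at *
  exact ⟨h x hx.1 hx.2.1 hx.2.2, hx.2⟩

lemma image_swap_of_mem {U : Finset (Fin n)} {i j : Fin n} (hi : i ∈ U) (hj : j ∈ U) :
    U.image (swap i j) = U := by
  ext x
  rw [mem_image]
  constructor
  · rintro ⟨y, hy, rfl⟩
    rw [swap_apply_def]
    split_ifs
    · exact hj
    · exact hi
    · exact hy
  · intro hx
    refine ⟨swap i j x, ?_, swap_apply_self _ _ _⟩
    rw [swap_apply_def]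
    split_ifs
    · exact hj
    · exact hi
    · exact hx

lemma card_low (U : Finset (Fin n)) (hn : k + 2 ≤ n) :
    (U.filter fun x : Fin n => (x : ℕ) + k < n).card ≤ (lf n k U).card + 2 := by
  have hs : (U.filter fun x : Fin n => (x : ℕ) + k < n) ⊆
      lf n k U ∪ {0, ⟨n - k - 1, by omega⟩} := by
    intro x hx
    rw [mem_filter] at hx
    rw [mem_union, mem_insert, mem_singleton]
    by_cases h0 : x = 0
    · right; left; exact h0
    · by_cases h1 : (x : ℕ) + k + 1 < n
      · left; unfold lf; rw [mem_filter]; exact ⟨hx.1, h0, h1⟩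
      · right; right; apply Fin.ext; simp only; omega
  calc _ ≤ (lf n k U ∪ {0, ⟨n - k - 1, by omega⟩}).card := card_le_card hs
    _ ≤ (lf n k U).card + ({0, ⟨n - k - 1, by omega⟩} : Finset (Fin n)).card := card_union_le _ _
    _ ≤ (lf n k U).card + 2 := by gcongr; exact card_le_two

lemma Par.Φ_open {a θ : ℝ} (P : Par n k a θ) {U : Finset (Fin n)} (h0 : (0 : Fin n) ∈ U) {u0 : ℕ}
    (hu : (lf n k U).card ≤ u0)
    (hbig : 2 * ((u0 : ℝ) + 2) ≤ (I1 n k U).card * Real.sin a) :
    ((I1 n k U).card : ℝ) * Φ n k a θ (U.erase 0) +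
      ∑ i ∈ (I1 n k U)ᶜ, Φ n k a θ (U.image (gl n k i)) ≤
      (n - (2 - 2 * Real.cos θ)) * Φ n k a θ U := by
  have hn := P.hn
  have hk := P.hk
  have hh0 : hh n k a θ (0 : Fin n) = Real.sin a := by unfold hh; rw [if_pos rfl]
  have e0 : Φ n k a θ (U.erase 0) = Φ n k a θ U - Real.sin a := by
    unfold Φ
    rw [← sum_erase_add U _ h0, hh0]; ring
  -- split the complement of I1
  have e1 : ∑ i ∈ (I1 n k U)ᶜ, Φ n k a θ (U.image (gl n k i)) =
      ∑ i ∈ (I1 n k U)ᶜ, Φ n k a θ U +
      ∑ i ∈ univ.filter (fun i : Fin n => n ≤ (i : ℕ) + k),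
        (Φ n k a θ (U.image (gl n k i)) - Φ n k a θ U) := by
    rw [← sub_eq_iff_eq_add', ← sum_sub_distrib]
    symm
    apply sum_subset_zero_on_sdiff
    · intro i hi
      rw [mem_filter] at hi
      unfold I1
      rw [mem_compl, mem_filter]
      omega
    · intro i hi
      rw [mem_sdiff, mem_compl, mem_filter] at hi
      obtain ⟨h2, h3⟩ := hi
      unfold I1 at h2
      rw [mem_filter] at h2
      have h4 : (i : ℕ) + k < n := by
        by_contra hc
        exact h3 ⟨mem_univ _, by omega⟩
      have h5 : i ∈ U := by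
        by_contra hc
        exact h2 ⟨mem_univ _, h4, Or.inr hc⟩
      have : U.image (gl n k i) = U := by
        unfold gl
        rw [par_of_lt h4]
        exact image_swap_of_mem h5 h0
      rw [this, sub_self]
    · intro i _; rfl
  have e2 : ∑ i ∈ univ.filter (fun i : Fin n => n ≤ (i : ℕ) + k),
        (Φ n k a θ (U.image (gl n k i)) - Φ n k a θ U) ≤
      -(2 - 2 * Real.cos θ) * Φ n k a θ U + 2 * ((u0 : ℝ) + 2) := by
    have e3 : ∑ i ∈ univ.filter (fun i : Fin n => n ≤ (i : ℕ) + k),
        (Φ n k a θ (U.image (gl n k i)) - Φ n k a θ U) =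
        ∑ x ∈ U, ∑ i ∈ univ.filter (fun i : Fin n => n ≤ (i : ℕ) + k),
          (hh n k a θ (gl n k i x) - hh n k a θ x) := by
      rw [sum_comm]
      apply sum_congr rfl
      intro i _
      unfold Φ
      rw [sum_image_gl, sum_sub_distrib]
    rw [e3]
    calc _ ≤ ∑ x ∈ U, (-(2 - 2 * Real.cos θ) * hh n k a θ x +
            (if (x : ℕ) + k < n then (2:ℝ) else 0)) := sum_le_sum fun x _ => P.genT_le x
      _ = -(2 - 2 * Real.cos θ) * Φ n k a θ U +
            2 * ((U.filter fun x : Fin n => (x : ℕ) + k < n).card : ℝ) := by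
          rw [sum_add_distrib, ← mul_sum, ← sum_filter, sum_const, nsmul_eq_mul]
          unfold Φ; ring
      _ ≤ _ := by
          have h6 := card_low (k := k) U (by omega)
          have h7 : ((U.filter fun x : Fin n => (x : ℕ) + k < n).card : ℝ) ≤ u0 + 2 := by
            exact_mod_cast h6.trans (by omega)
          linarith
  have e4 : (((I1 n k U)ᶜ).card : ℝ) = n - (I1 n k U).card := by
    rw [card_compl, Fintype.card_fin, Nat.cast_sub]
    exact (card_le_univ _).trans (by simp)
  rw [e1, e0, sum_const, nsmul_eq_mul, e4]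
  linarith

/-- number of closing letters -/
lemma card_I1 {U : Finset (Fin n)} (h0 : (0 : Fin n) ∈ U) (hk : 1 ≤ k) (hn : k + 3 ≤ n) :
    n ≤ (I1 n k U).card + (lf n k U).card + k + 1 ∧
      (Uᶜ).card + 1 ≤ (I1 n k U).card + k := by
  have hlow : (univ.filter fun x : Fin n => (x : ℕ) + k < n).card = n - k := by
    have : (univ.filter fun x : Fin n => (x : ℕ) + k < n) =
        univ.filter fun x : Fin n => (x : ℕ) < n - k := by
      apply filter_congr; intro x _; omega
    rw [this, Fin.card_filter_val_lt]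
    omega
  have hhigh : (univ.filter fun x : Fin n => n ≤ (x : ℕ) + k).card = k := by
    have h1 := card_filter_add_card_filter_not (s := (univ : Finset (Fin n)))
      (fun x : Fin n => (x : ℕ) + k < n)
    rw [hlow, card_univ, Fintype.card_fin] at h1
    have h2 : (univ.filter fun x : Fin n => ¬ ((x : ℕ) + k < n)) =
        univ.filter fun x : Fin n => n ≤ (x : ℕ) + k := by
      apply filter_congr; intro x _; omega
    rw [h2] at h1
    omega
  constructor
  · have hs : (univ.filter fun x : Fin n => (x : ℕ) + k < n) ⊆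
        I1 n k U ∪ (lf n k U ∪ {⟨n - k - 1, by omega⟩}) := by
      intro x hx
      rw [mem_filter] at hx
      rw [mem_union, mem_union, mem_singleton]
      by_cases h1 : x = 0 ∨ x ∉ U
      · left; unfold I1; rw [mem_filter]; exact ⟨mem_univ _, hx.2, h1⟩
      · push Not at h1
        right
        by_cases h2 : (x : ℕ) + k + 1 < n
        · left; unfold lf; rw [mem_filter]; exact ⟨h1.2, h1.1, h2⟩
        · right; apply Fin.ext; simp only; have := hx.2; omega
    have h3 := card_le_card hs
    have h4 := card_union_le (I1 n k U) (lf n k U ∪ {⟨n - k - 1, by omega⟩})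
    have h5 := card_union_le (lf n k U) {(⟨n - k - 1, by omega⟩ : Fin n)}
    rw [card_singleton] at h5
    rw [hlow] at h3
    omega
  · have hs : insert 0 Uᶜ ⊆ I1 n k U ∪ univ.filter fun x : Fin n => n ≤ (x : ℕ) + k := by
      intro x hx
      rw [mem_union]
      by_cases h1 : (x : ℕ) + k < n
      · left; unfold I1; rw [mem_filter]
        refine ⟨mem_univ _, h1, ?_⟩
        rcases mem_insert.mp hx with h2 | h2
        · left; exact h2
        · right; exact mem_compl.mp h2
      · right; rw [mem_filter]; exact ⟨mem_univ _, by omega⟩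
    have h3 := card_le_card hs
    have h4 := card_union_le (I1 n k U) (univ.filter fun x : Fin n => n ≤ (x : ℕ) + k)
    rw [card_insert_of_notMem (by simpa using h0)] at h3
    rw [hhigh] at h4
    omega

/-- The second phase: from a set `U` of unmarked points with few ordinary leaves. -/
lemma phase2 {a θ : ℝ} (P : Par n k a θ) {u0 : ℕ} {κ B : ℝ} (hκ1 : 1 ≤ κ)
    (hB : 1 ≤ B * Real.sin a)
    (hbig : 2 * ((u0 : ℝ) + 2) ≤ ((n : ℝ) - k - 1 - u0) * Real.sin a)
    (hκ : (k : ℝ) ≤ (κ - 1) * ((n : ℝ) - k - 1 - u0)) (s : ℕ) :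
    ∀ (U : Finset (Fin n)), (lf n k U).card ≤ u0 →
    ∀ f : Perm (Fin n) → ℝ, (∀ σ, 0 ≤ f σ) → (∀ σ, f σ ≤ 1) →
      avg U ((K n k)^[s] f) ≤ κ ^ U.card *
        (avg ∅ f + B * (1 - (2 - 2 * Real.cos θ) / n) ^ s * Φ n k a θ U) := by
  have hn := P.hn
  have hk := P.hk
  have hnpos : (0 : ℝ) < n := npos
  have hsin := P.sin_pos
  have hB0 : 0 < B := by
    by_contra hc
    push Not at hc
    nlinarith
  have hr0 : 0 ≤ 1 - (2 - 2 * Real.cos θ) / n := by
    have h1 := P.hlam
    have h2 : (2 - 2 * Real.cos θ) / n ≤ 1 := by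
      rw [div_le_one hnpos]
      have : (3 : ℝ) ≤ n := by exact_mod_cast (show 3 ≤ n by omega)
      linarith
    linarith
  set r := 1 - (2 - 2 * Real.cos θ) / n with hr
  have hrn : (n : ℝ) * r = n - (2 - 2 * Real.cos θ) := by
    rw [hr]; field_simp
  induction s with
  | zero =>
    intro U hU f hf0 hf1
    simp only [Function.iterate_zero, id_eq, pow_zero, mul_one]
    have hκU : 1 ≤ κ ^ U.card := one_le_pow₀ hκ1
    have hE : 0 ≤ avg ∅ f := avg_nonneg hf0
    rcases U.eq_empty_or_nonempty with rfl | ⟨x, hx⟩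
    · simp [Φ]
    · have h1 : 1 ≤ B * Φ n k a θ U := by
        have h2 : Real.sin a ≤ Φ n k a θ U := by
          unfold Φ
          calc Real.sin a ≤ hh n k a θ x := P.hh_ge x
            _ ≤ ∑ y ∈ U, hh n k a θ y :=
              single_le_sum (f := hh n k a θ) (fun y _ => (P.hh_pos y).le) hx
        calc (1:ℝ) ≤ B * Real.sin a := hB
          _ ≤ B * Φ n k a θ U := mul_le_mul_of_nonneg_left h2 hB0.le
      calc avg U f ≤ 1 := avg_le_one hf1
        _ ≤ avg ∅ f + B * Φ n k a θ U := by linarith
        _ ≤ κ ^ U.card * (avg ∅ f + B * Φ n k a θ U) := by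
            apply le_mul_of_one_le_left _ hκU
            linarith
  | succ s ih =>
    intro U hU f hf0 hf1
    rw [Function.iterate_succ_apply', avg_K, div_le_iff₀ hnpos]
    -- bound for a letter that just moves `U`
    have hmove : ∀ i : Fin n, (lf n k (U.image (gl n k i))).card ≤ u0 →
        avg U (fun π => (K n k)^[s] f (π * gl n k i)) ≤ κ ^ U.card *
          (avg ∅ f + B * r ^ s * Φ n k a θ (U.image (gl n k i))) := by
      intro i hi
      rw [avg_move U _ (gl_sq i)]
      have h1 := ih (U.image (gl n k i)) hi (fun π => f (gl n k i * π)) (fun σ => hf0 _)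
        (fun σ => hf1 _)
      rw [card_image_gl, avg_empty_left, Kit_left] at h1
      exact h1
    -- the tail letters do not create unmarked ordinary leaves
    have htail : ∀ i : Fin n, n ≤ (i : ℕ) + k → (lf n k (U.image (gl n k i))).card ≤ u0 := by
      intro i hi
      refine (lf_mono ?_).trans hU
      intro x hx hx0 hxk
      obtain ⟨y, hy, rfl⟩ := mem_image.mp hx
      have hp := par_of_ge hi
      have h1 : gl n k i y ≠ i := by
        intro e; rw [e] at hxk; omega
      have h2 : gl n k i y ≠ par n k i := by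
        intro e; rw [e, hp] at hxk; omega
      have h3 : gl n k i (gl n k i y) = gl n k i y := gl_fix h1 h2
      have h4 : gl n k i y = y := (gl n k i).injective h3
      rw [h4]; exact hy
    by_cases h0 : (0 : Fin n) ∈ U
    · -- open state
      obtain ⟨hc1, hc2⟩ := card_I1 (k := k) h0 hk hn
      set q : ℝ := ((I1 n k U).card : ℝ) with hq
      have hq1 : (n : ℝ) - k - 1 - u0 ≤ q := by
        have h1 : (n : ℝ) ≤ (I1 n k U).card + (lf n k U).card + k + 1 := by exact_mod_cast hc1
        have h2 : ((lf n k U).card : ℝ) ≤ u0 := by exact_mod_cast hU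
        linarith
      have hq2 : ((Uᶜ).card : ℝ) + 1 ≤ κ * q := by
        have h1 : ((Uᶜ).card : ℝ) + 1 ≤ (I1 n k U).card + k := by exact_mod_cast hc2
        have h2 : (κ - 1) * ((n : ℝ) - k - 1 - u0) ≤ (κ - 1) * q :=
          mul_le_mul_of_nonneg_left hq1 (by linarith)
        linarith
      have hbig' : 2 * ((u0 : ℝ) + 2) ≤ (I1 n k U).card * Real.sin a := by
        refine hbig.trans ?_
        exact mul_le_mul_of_nonneg_right hq1 hsin.le
      have hΦ := P.Φ_open h0 hU hbig'
      -- the closing letters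
      have hclose : ∑ i ∈ I1 n k U, avg U (fun π => (K n k)^[s] f (π * gl n k i)) ≤
          q * (κ ^ U.card * (avg ∅ f + B * r ^ s * Φ n k a θ (U.erase 0))) := by
        have h1 : ∑ i ∈ I1 n k U, avg U (fun π => (K n k)^[s] f (π * gl n k i)) ≤
            ∑ j ∈ insert 0 Uᶜ, avg U (fun π => (K n k)^[s] f (π * swap 0 j)) := by
          have h2 : ∑ i ∈ I1 n k U, avg U (fun π => (K n k)^[s] f (π * gl n k i)) =
              ∑ i ∈ I1 n k U, avg U (fun π => (K n k)^[s] f (π * swap 0 i)) := by
            apply sum_congr rfl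
            intro i hi
            unfold I1 at hi
            rw [mem_filter] at hi
            unfold gl
            rw [par_of_lt hi.2.1, swap_comm]
          rw [h2]
          apply sum_le_sum_of_subset_of_nonneg
          · intro i hi
            unfold I1 at hi
            rw [mem_filter] at hi
            rcases hi.2.2 with h3 | h3
            · rw [h3]; exact mem_insert_self _ _
            · exact mem_insert_of_mem (mem_compl.mpr h3)
          · intro j _ _
            exact avg_nonneg fun π => Kit_nonneg hf0 s _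
        rw [avg_release h0] at h1
        have h3 : (lf n k (U.erase 0)).card ≤ u0 :=
          (lf_mono fun x hx _ _ => (mem_erase.mp hx).2).trans hU
        have h4 := ih (U.erase 0) h3 f hf0 hf1
        have hcard : κ * κ ^ (U.erase 0).card = κ ^ U.card := by
          rw [← pow_succ', card_erase_add_one h0]
        have hnn : 0 ≤ avg (U.erase 0) ((K n k)^[s] f) := avg_nonneg (Kit_nonneg hf0 s)
        calc _ ≤ ((Uᶜ.card : ℝ) + 1) * avg (U.erase 0) ((K n k)^[s] f) := h1
          _ ≤ (κ * q) * avg (U.erase 0) ((K n k)^[s] f) :=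
              mul_le_mul_of_nonneg_right hq2 hnn
          _ ≤ (κ * q) * (κ ^ (U.erase 0).card *
                (avg ∅ f + B * r ^ s * Φ n k a θ (U.erase 0))) := by
              apply mul_le_mul_of_nonneg_left h4
              have : 0 ≤ q := by positivity
              positivity
          _ = _ := by rw [← hcard]; ring
      -- the other letters
      have hother : ∑ i ∈ (I1 n k U)ᶜ, avg U (fun π => (K n k)^[s] f (π * gl n k i)) ≤
          ∑ i ∈ (I1 n k U)ᶜ, κ ^ U.card *
            (avg ∅ f + B * r ^ s * Φ n k a θ (U.image (gl n k i))) := by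
        apply sum_le_sum
        intro i hi
        apply hmove
        by_cases h5 : n ≤ (i : ℕ) + k
        · exact htail i h5
        · push Not at h5
          rw [mem_compl] at hi
          unfold I1 at hi
          rw [mem_filter] at hi
          have h6 : i ∈ U := by
            by_contra hc
            exact hi ⟨mem_univ _, h5, Or.inr hc⟩
          have : U.image (gl n k i) = U := by
            unfold gl
            rw [par_of_lt h5]
            exact image_swap_of_mem h6 h0
          rw [this]; exact hU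
      have hsplit : ∑ i, avg U (fun π => (K n k)^[s] f (π * gl n k i)) =
          ∑ i ∈ I1 n k U, avg U (fun π => (K n k)^[s] f (π * gl n k i)) +
          ∑ i ∈ (I1 n k U)ᶜ, avg U (fun π => (K n k)^[s] f (π * gl n k i)) :=
        (sum_add_sum_compl _ _).symm
      have e4 : (((I1 n k U)ᶜ).card : ℝ) = n - q := by
        rw [card_compl, Fintype.card_fin, Nat.cast_sub]
        exact (card_le_univ _).trans (by simp)
      have e5 : ∑ i ∈ (I1 n k U)ᶜ, κ ^ U.card *
            (avg ∅ f + B * r ^ s * Φ n k a θ (U.image (gl n k i))) =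
          κ ^ U.card * ((n - q) * avg ∅ f +
            B * r ^ s * ∑ i ∈ (I1 n k U)ᶜ, Φ n k a θ (U.image (gl n k i))) := by
        rw [← mul_sum, sum_add_distrib, sum_const, nsmul_eq_mul, e4, mul_sum]
      have hκU : 0 ≤ κ ^ U.card := by positivity
      have hBr : 0 ≤ B * r ^ s := by positivity
      calc _ ≤ q * (κ ^ U.card * (avg ∅ f + B * r ^ s * Φ n k a θ (U.erase 0))) +
            κ ^ U.card * ((n - q) * avg ∅ f +
            B * r ^ s * ∑ i ∈ (I1 n k U)ᶜ, Φ n k a θ (U.image (gl n k i))) := by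
            rw [hsplit, ← e5]; exact add_le_add hclose hother
        _ = κ ^ U.card * (n * avg ∅ f + B * r ^ s * (q * Φ n k a θ (U.erase 0) +
            ∑ i ∈ (I1 n k U)ᶜ, Φ n k a θ (U.image (gl n k i)))) := by ring
        _ ≤ κ ^ U.card * (n * avg ∅ f + B * r ^ s * ((n - (2 - 2 * Real.cos θ)) *
              Φ n k a θ U)) := by
            apply mul_le_mul_of_nonneg_left _ hκU
            have := mul_le_mul_of_nonneg_left hΦ hBr
            linarith
        _ = _ := by rw [← hrn]; ring
    · -- closed state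
      have hΦ := P.Φ_closed h0
      have hall : ∀ i : Fin n, (lf n k (U.image (gl n k i))).card ≤ u0 := by
        intro i
        by_cases hi : n ≤ (i : ℕ) + k
        · exact htail i hi
        · push Not at hi
          refine (lf_mono ?_).trans hU
          intro x hx hx0 hxk
          obtain ⟨y, hy, rfl⟩ := mem_image.mp hx
          have hy0 : y ≠ 0 := by rintro rfl; exact h0 hy
          by_cases hyi : y = i
          · exfalso; apply hx0; rw [hyi, gl_apply_self, par_of_lt hi]
          · have : gl n k i y = y := gl_fix hyi (by rw [par_of_lt hi]; exact hy0)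
            rw [this]; exact hy
      have hκU : 0 ≤ κ ^ U.card := by positivity
      have hBr : 0 ≤ B * r ^ s := by positivity
      calc _ ≤ ∑ i : Fin n, κ ^ U.card *
            (avg ∅ f + B * r ^ s * Φ n k a θ (U.image (gl n k i))) :=
            sum_le_sum fun i _ => hmove i (hall i)
        _ = κ ^ U.card * (n * avg ∅ f +
            B * r ^ s * ∑ i, Φ n k a θ (U.image (gl n k i))) := by
            rw [← mul_sum, sum_add_distrib, sum_const, nsmul_eq_mul, card_univ,
              Fintype.card_fin, mul_sum]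
        _ ≤ κ ^ U.card * (n * avg ∅ f + B * r ^ s * ((n - (2 - 2 * Real.cos θ)) *
              Φ n k a θ U)) := by
            apply mul_le_mul_of_nonneg_left _ hκU
            have := mul_le_mul_of_nonneg_left hΦ hBr
            linarith
        _ = _ := by rw [← hrn]; ring

end Pool.Agent.H79.Cut
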