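import Mathlib
import Pool.Agent.H79.CutPhase2

/-!
# First phase: marking the star
-/

namespace Pool.Agent.H79.Cut

open Equiv Finset

/-- potential of a closed state with `a` marked points -/
noncomputable def xx (m a : ℝ) : ℝ := m * (m + 1 - a) / (a + 1)

/-- potential of an open state with `a` marked points -/
noncomputable def yy (m a : ℝ) : ℝ := m * (m - a) * (a + 1) / ((a + 2) * (a + 1 / 2))

lemma yy_open (m a : ℝ) (ha : 0 ≤ a) : (a + 1) * (xx m (a + 1) - yy m a) = -(yy m a / 2) := by
  unfold xx yy
  have h1 : a + 1 + 1 ≠ 0 := by positivity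
  have h2 : a + 2 ≠ 0 := by positivity
  have h3 : a + 1 / 2 ≠ 0 := by positivity
  field_simp
  ring

lemma xx_closed_aux (a b : ℕ) (ha : 1 ≤ a) (hab : 8 ≤ a + b) :
    -(b : ℝ) * (1 + b * a / ((a + 2) * (2 * a + 1))) + (b + 1) / (2 * a - 1) + (b + 1) / 2 ≤
      (a + 1) / (a + b) := by
  have ha' : (1 : ℝ) ≤ a := by exact_mod_cast ha
  have hb' : (0 : ℝ) ≤ b := by positivity
  have hab' : (8 : ℝ) ≤ a + b := by exact_mod_cast hab
  rcases Nat.eq_or_lt_of_le ha with h1 | h1
  · -- a = 1
    subst h1
    push_cast at *
    have hb7 : (7 : ℝ) ≤ b := by linarith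
    have h2 : 0 ≤ ((1 : ℝ) + 1) / (1 + b) := by positivity
    have h3 : -(b : ℝ) * (1 + b * 1 / ((1 + 2) * (2 * 1 + 1))) + (b + 1) / (2 * 1 - 1) +
        (b + 1) / 2 = -(b * b / 9) + b / 2 + 3 / 2 := by
      ring
    rw [h3]
    nlinarith
  · -- a ≥ 2
    have ha2 : (2 : ℝ) ≤ a := by exact_mod_cast h1
    have h2 : 0 ≤ (b : ℝ) * a / ((a + 2) * (2 * a + 1)) := by positivity
    have h3 : (0 : ℝ) < 2 * a - 1 := by linarith
    have h4 : 0 ≤ ((a : ℝ) + 1) / (a + b) := by positivity
    have h5 : (b : ℝ) * ((b : ℝ) * a / ((a + 2) * (2 * a + 1))) ≥ 0 := by positivity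
    rcases Nat.lt_or_ge b 5 with hb | hb
    · have ha4 : 4 ≤ a := by omega
      have ha4' : (4 : ℝ) ≤ a := by exact_mod_cast ha4
      have h6 : ((b : ℝ) + 1) / (2 * a - 1) ≤ (b + 1) / 7 := by
        apply div_le_div_of_nonneg_left (by positivity) (by norm_num) (by linarith)
      rcases Nat.lt_or_ge b 2 with hb2 | hb2
      · have hb1 : (b : ℝ) ≤ 1 := by exact_mod_cast (show b ≤ 1 by omega)
        have h7 : 1 ≤ ((a : ℝ) + 1) / (a + b) := by
          rw [le_div_iff₀ (by positivity)]
          linarith
        linarith
      · have hb2' : (2 : ℝ) ≤ b := by exact_mod_cast hb2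
        linarith
    · have hb5 : (5 : ℝ) ≤ b := by exact_mod_cast hb
      have h6 : ((b : ℝ) + 1) / (2 * a - 1) ≤ (b + 1) / 3 := by
        apply div_le_div_of_nonneg_left (by positivity) (by norm_num) (by linarith)
      linarith

lemma xx_closed (a b : ℕ) (ha : 1 ≤ a) (hab : 8 ≤ a + b) :
    (b : ℝ) * (yy (a + b) a - xx (a + b) a) + (yy (a + b) (a - 1) - xx (a + b) a) ≤
      -(xx (a + b) a / 2) + 1 := by
  have ha' : (1 : ℝ) ≤ a := by exact_mod_cast ha
  have h := xx_closed_aux a b ha hab
  have h0 : (0 : ℝ) < (a + b) / (a + 1) := by positivity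
  have h1 := mul_le_mul_of_nonneg_left h h0.le
  have e1 : ((a : ℝ) + b) / (a + 1) * ((a + 1) / (a + b)) = 1 := by
    have : (a : ℝ) + b ≠ 0 := by positivity
    field_simp
  rw [e1] at h1
  have hne : (2 * (a : ℝ) - 1) ≠ 0 := by nlinarith
  have e3 : yy (a + b) (a - 1) = 2 * ((a : ℝ) + b) * (b + 1) * a / ((a + 1) * (2 * a - 1)) := by
    unfold yy
    have h5 : ((a : ℝ) - 1 + 2) * (a - 1 + 1 / 2) = (a + 1) * (2 * a - 1) / 2 := by ring
    rw [h5]
    have h6 : ((a : ℝ) + 1) * (2 * a - 1) ≠ 0 := mul_ne_zero (by positivity) hne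
    field_simp
    ring
  have e2 : (b : ℝ) * (yy (a + b) a - xx (a + b) a) =
      ((a : ℝ) + b) / (a + 1) * (-(b : ℝ) * (1 + b * a / ((a + 2) * (2 * a + 1)))) := by
    unfold xx yy
    field_simp
    ring
  have e4 : yy (a + b) (a - 1) - xx (a + b) a + xx (a + b) a / 2 =
      ((a : ℝ) + b) / (a + 1) * ((b + 1) / (2 * a - 1) + (b + 1) / 2) := by
    rw [e3]
    unfold xx
    generalize hc : 2 * (a : ℝ) - 1 = c at hne ⊢
    have ha2 : (a : ℝ) = (c + 1) / 2 := by linarith
    have hc3 : c + 3 ≠ 0 := by
      have : c + 3 = 2 * (a + 1) := by linarith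
      rw [this]; positivity
    rw [ha2]
    have hc4 : (c + 1) / 2 + 1 ≠ 0 := by
      have : (c + 1) / 2 + 1 = (c + 3) / 2 := by ring
      rw [this]; exact div_ne_zero hc3 two_ne_zero
    field_simp
    ring
  linarith

/-- potential of a state, in terms of the set `U` of unmarked positions -/
noncomputable def ψ (m : ℕ) {n : ℕ} [NeZero n] (U : Finset (Fin n)) : ℝ :=
  if (0 : Fin n) ∈ U then yy m (Uᶜ.card) else xx m (Uᶜ.card)

variable {n k : ℕ} [NeZero n]

lemma card_star {m : ℕ} (hm : n = m + k + 1) :
    (univ.filter fun i : Fin n => (i : ℕ) + k + 1 < n).card = m := by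
  have : (univ.filter fun x : Fin n => (x : ℕ) + k + 1 < n) =
      univ.filter fun x : Fin n => (x : ℕ) < m := by
    apply filter_congr; intro x _; omega
  rw [this, Fin.card_filter_val_lt]
  omega

lemma card_p0 {m : ℕ} (hm : n = m + k + 1) :
    (univ.filter fun i : Fin n => (i : ℕ) + k + 1 = n).card = 1 := by
  rw [card_eq_one]
  refine ⟨⟨m, by omega⟩, ?_⟩
  ext x
  rw [mem_filter, mem_singleton, Fin.ext_iff]
  simp only [mem_univ, true_and]
  omega

lemma card_star_mem {m : ℕ} (hm : n = m + k + 1) {U : Finset (Fin n)}
    (hT : ∀ x : Fin n, n ≤ (x : ℕ) + k + 1 → x ∈ U) :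
    (univ.filter fun i : Fin n => (i : ℕ) + k + 1 < n ∧ i ∈ U).card + Uᶜ.card = m := by
  rw [← card_star (n := n) hm]
  have e : (Uᶜ : Finset (Fin n)) = (univ.filter fun i : Fin n => (i : ℕ) + k + 1 < n ∧ i ∉ U) := by
    ext x
    rw [mem_compl, mem_filter]
    constructor
    · intro h
      refine ⟨mem_univ _, ?_, h⟩
      by_contra hc
      exact h (hT x (by omega))
    · intro h; exact h.2.2
  rw [e, ← card_union_of_disjoint]
  · congr 1
    ext x
    rw [mem_union, mem_filter, mem_filter, mem_filter]
    tauto
  · rw [disjoint_left]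
    intro x h1 h2
    rw [mem_filter] at h1 h2
    exact h2.2.2 h1.2.2

lemma lf_closed {m : ℕ} (hm : n = m + k + 1) {U : Finset (Fin n)}
    (hT : ∀ x : Fin n, n ≤ (x : ℕ) + k + 1 → x ∈ U) (h0 : (0 : Fin n) ∉ U) :
    (lf n k U).card + Uᶜ.card = m := by
  rw [← card_star_mem hm hT]
  congr 2
  unfold lf
  ext x
  rw [mem_filter, mem_filter]
  constructor
  · rintro ⟨h1, h2, h3⟩; exact ⟨mem_univ _, h3, h1⟩
  · rintro ⟨_, h1, h2⟩
    refine ⟨h2, ?_, h1⟩
    rintro rfl; exact h0 h2

lemma lf_open {m : ℕ} (hm : n = m + k + 1) (hm1 : 1 ≤ m) {U : Finset (Fin n)}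
    (hT : ∀ x : Fin n, n ≤ (x : ℕ) + k + 1 → x ∈ U) (h0 : (0 : Fin n) ∈ U) :
    (lf n k U).card + 1 + Uᶜ.card = m := by
  rw [← card_star_mem hm hT]
  congr 1
  have : (univ.filter fun i : Fin n => (i : ℕ) + k + 1 < n ∧ i ∈ U) = insert 0 (lf n k U) := by
    unfold lf
    ext x
    rw [mem_filter, mem_insert, mem_filter]
    constructor
    · rintro ⟨_, h1, h2⟩
      by_cases hx : x = 0
      · left; exact hx
      · right; exact ⟨h2, hx, h1⟩
    · rintro (rfl | ⟨h1, h2, h3⟩)
      · refine ⟨mem_univ _, ?_, h0⟩
        simp only [Fin.val_zero]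
        omega
      · exact ⟨mem_univ _, h3, h1⟩
  rw [this, card_insert_of_notMem]
  unfold lf
  rw [mem_filter]
  tauto

lemma ψ_nonneg {m : ℕ} (hm : n = m + k + 1) (hm1 : 1 ≤ m) {U : Finset (Fin n)}
    (hT : ∀ x : Fin n, n ≤ (x : ℕ) + k + 1 → x ∈ U) : 0 ≤ ψ m U := by
  unfold ψ
  split_ifs with h0
  · have h1 := lf_open hm hm1 hT h0
    unfold yy
    have h2 : (0 : ℝ) ≤ (m : ℝ) - (Uᶜ.card : ℝ) := by
      have : ((Uᶜ.card : ℕ) : ℝ) ≤ m := by exact_mod_cast (by omega : Uᶜ.card ≤ m)
      linarith
    positivity
  · have h1 := lf_closed hm hT h0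
    unfold xx
    have h2 : (0 : ℝ) ≤ (m : ℝ) + 1 - (Uᶜ.card : ℝ) := by
      have : ((Uᶜ.card : ℕ) : ℝ) ≤ m := by exact_mod_cast (by omega : Uᶜ.card ≤ m)
      linarith
    positivity

/-- in a state with many unmarked ordinary leaves, the potential is large -/
lemma ψ_ge {m : ℕ} (hm : n = m + k + 1) (hm1 : 1 ≤ m) {U : Finset (Fin n)}
    (hT : ∀ x : Fin n, n ≤ (x : ℕ) + k + 1 → x ∈ U) {u0 : ℕ} (hu : u0 < (lf n k U).card) :
    (u0 : ℝ) ≤ ψ m U := by
  have hu' : (u0 : ℝ) + 1 ≤ (lf n k U).card := by exact_mod_cast hu
  unfold ψ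
  split_ifs with h0
  · have h1 := lf_open hm hm1 hT h0
    have h2 : (((lf n k U).card : ℕ) : ℝ) + 1 + (Uᶜ.card : ℝ) = m := by exact_mod_cast h1
    set a : ℝ := (Uᶜ.card : ℝ) with ha
    have ha0 : 0 ≤ a := by positivity
    unfold yy
    rw [le_div_iff₀ (by positivity)]
    have h3 : (u0 : ℝ) + 2 ≤ m - a := by linarith
    have h4 : a + 2 ≤ m := by
      have : (0 : ℝ) ≤ u0 := by positivity
      linarith
    have h5 : (0 : ℝ) ≤ u0 := by positivity
    calc (u0 : ℝ) * ((a + 2) * (a + 1 / 2)) ≤ (m - a) * (m * (a + 1)) := by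
          apply mul_le_mul (by linarith) _ (by positivity) (by linarith)
          apply mul_le_mul h4 (by linarith) (by positivity) (by linarith)
      _ = _ := by ring
  · have h1 := lf_closed hm hT h0
    have h2 : (((lf n k U).card : ℕ) : ℝ) + (Uᶜ.card : ℝ) = m := by exact_mod_cast h1
    set a : ℝ := (Uᶜ.card : ℝ) with ha
    have ha0 : 0 ≤ a := by positivity
    unfold xx
    rw [le_div_iff₀ (by positivity)]
    have h5 : (0 : ℝ) ≤ u0 := by positivity
    calc (u0 : ℝ) * (a + 1) ≤ (m + 1 - a) * m := by
          apply mul_le_mul (by linarith) (by linarith) (by positivity) (by linarith)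
      _ = _ := by ring

/-- The first phase. -/
lemma phase1 {m u0 : ℕ} (hm : n = m + k + 1) (hm8 : 8 ≤ m) (hu0 : 1 ≤ u0) {C : ℝ} (hC : 0 ≤ C)
    (s : ℕ) :
    ∀ (U : Finset (Fin n)), (∀ x : Fin n, n ≤ (x : ℕ) + k + 1 → x ∈ U) →
    ∀ h : Perm (Fin n) → ℝ, (∀ σ, h σ ≤ 1) →
      (∀ (w : Perm (Fin n)) (V : Finset (Fin n)), (∀ x : Fin n, n ≤ (x : ℕ) + k + 1 → x ∈ V) →
        (lf n k V).card ≤ u0 → avg V (fun π => h (w * π)) ≤ C) →
      avg U ((K n k)^[s] h) ≤
        C + ((1 - 1 / (2 * n)) ^ s * ψ m U + 2 * (1 - (1 - 1 / (2 * n)) ^ s)) / u0 := by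
  have hnpos : (0 : ℝ) < n := npos
  have hu0' : (0 : ℝ) < u0 := by exact_mod_cast hu0
  set r : ℝ := 1 - 1 / (2 * n) with hr
  have hr0 : 0 ≤ r := by
    have h2 : 1 / (2 * (n : ℝ)) ≤ 1 := by
      rw [div_le_one (by positivity)]
      have : (1 : ℝ) ≤ n := by exact_mod_cast (show 1 ≤ n by omega)
      linarith
    linarith
  have hrn : (n : ℝ) * r = n - 1 / 2 := by
    rw [hr]; field_simp
  induction s with
  | zero =>
    intro U hT h h1 hV
    simp only [Function.iterate_zero, id_eq, pow_zero, one_mul, sub_self, mul_zero, add_zero]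
    rcases Nat.lt_or_ge u0 (lf n k U).card with hu | hu
    · have h2 := ψ_ge hm (by omega) hT hu
      have h3 : 1 ≤ ψ m U / u0 := by rwa [le_div_iff₀ hu0', one_mul]
      have h4 : avg U h ≤ 1 := avg_le_one h1
      linarith
    · have h2 := hV 1 U hT hu
      simp only [one_mul] at h2
      have h3 : 0 ≤ ψ m U / u0 := div_nonneg (ψ_nonneg hm (by omega) hT) hu0'.le
      linarith
  | succ s ih =>
    intro U hT h h1 hV
    rw [Function.iterate_succ_apply', avg_K, div_le_iff₀ hnpos]
    set F := (K n k)^[s] h with hF
    have hrs : 0 ≤ r ^ s := by positivity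
    -- the induction hypothesis for left translates
    have ihw : ∀ (w : Perm (Fin n)) (V : Finset (Fin n)),
        (∀ x : Fin n, n ≤ (x : ℕ) + k + 1 → x ∈ V) →
        avg V (fun π => F (w * π)) ≤ C + (r ^ s * ψ m V + 2 * (1 - r ^ s)) / u0 := by
      intro w V hVT
      have h2 := ih V hVT (fun π => h (w * π)) (fun σ => h1 _) (fun w' V' hV' hl => by
        have h3 := hV (w * w') V' hV' hl
        simpa only [mul_assoc] using h3)
      rw [Kit_left] at h2
      exact h2
    by_cases h0 : (0 : Fin n) ∈ U
    · -- open state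
      have hcard := lf_open hm (by omega) hT h0
      set a : ℝ := (Uᶜ.card : ℝ) with ha
      have ha0 : 0 ≤ a := by positivity
      have hψU : ψ m U = yy m a := by unfold ψ; rw [if_pos h0]
      have hψE : ψ m (U.erase 0) = xx m (a + 1) := by
        unfold ψ
        rw [if_neg (notMem_erase _ _)]
        congr 1
        have : (U.erase 0)ᶜ.card = Uᶜ.card + 1 := by
          have e1 := card_add_card_compl U
          have e2 := card_add_card_compl (U.erase 0)
          have e3 := card_erase_add_one h0
          omega
        rw [this, ha]; push_cast; ring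
      have hclose : ∑ j ∈ insert 0 Uᶜ, avg U (fun π => F (π * gl n k j)) ≤
          (a + 1) * (C + (r ^ s * xx m (a + 1) + 2 * (1 - r ^ s)) / u0) := by
        have e1 : ∑ j ∈ insert 0 Uᶜ, avg U (fun π => F (π * gl n k j)) =
            ∑ j ∈ insert 0 Uᶜ, avg U (fun π => F (π * swap 0 j)) := by
          apply sum_congr rfl
          intro j hj
          have hjk : (j : ℕ) + k < n := by
            rcases mem_insert.mp hj with h2 | h2
            · rw [h2]; simp only [Fin.val_zero]; omega
            · by_contra hc
              exact (mem_compl.mp h2) (hT j (by omega))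
          unfold gl
          rw [par_of_lt hjk, swap_comm]
        rw [e1, avg_release h0]
        apply mul_le_mul_of_nonneg_left _ (by positivity)
        have h2 := ihw 1 (U.erase 0) (by
          intro x hx
          rw [mem_erase]
          refine ⟨?_, hT x hx⟩
          rintro rfl
          simp only [Fin.val_zero] at hx
          omega)
        simp only [one_mul] at h2
        rw [hψE] at h2
        exact h2
      have hother : ∑ j ∈ (insert 0 Uᶜ)ᶜ, avg U (fun π => F (π * gl n k j)) ≤
          (n - (a + 1)) * (C + (r ^ s * yy m a + 2 * (1 - r ^ s)) / u0) := by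
        have e1 : (((insert 0 Uᶜ)ᶜ : Finset (Fin n)).card : ℝ) = n - (a + 1) := by
          rw [card_compl, Fintype.card_fin, Nat.cast_sub, card_insert_of_notMem]
          · rw [ha]; push_cast; ring
          · simpa using h0
          · exact (card_le_univ _).trans (by simp)
        rw [← e1, ← nsmul_eq_mul, ← sum_const]
        apply sum_le_sum
        intro j hj
        rw [mem_compl, mem_insert, not_or, mem_compl, not_not] at hj
        have himg : U.image (gl n k j) = U := by
          unfold gl
          apply image_swap_of_mem hj.2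
          by_cases hjk : (j : ℕ) + k < n
          · rw [par_of_lt hjk]; exact h0
          · apply hT
            rw [par_of_ge (by omega)]
            omega
        rw [avg_move U _ (gl_sq j), himg]
        have h2 := ihw (gl n k j) U hT
        rw [hψU] at h2
        exact h2
      have hy := yy_open m a ha0
      rw [← sum_add_sum_compl (insert 0 Uᶜ)]
      rw [hψU]
      refine (add_le_add hclose hother).trans ?_
      have e5 : (a + 1) * (C + (r ^ s * xx m (a + 1) + 2 * (1 - r ^ s)) / u0) +
          (n - (a + 1)) * (C + (r ^ s * yy m a + 2 * (1 - r ^ s)) / u0) =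
          n * C + (r ^ s * (n * yy m a + (a + 1) * (xx m (a + 1) - yy m a)) +
            2 * n * (1 - r ^ s)) / u0 := by
        ring
      have e6 : (C + (r ^ (s + 1) * yy m a + 2 * (1 - r ^ (s + 1))) / u0) * n =
          n * C + (r ^ s * ((n * r) * yy m a) + 2 * n - 2 * r ^ s * (n * r)) / u0 := by
        rw [pow_succ]; ring
      rw [e5, hy, e6, hrn]
      apply add_le_add le_rfl
      apply div_le_div_of_nonneg_right _ hu0'.le
      nlinarith
    · -- closed state
      have hcard := lf_closed hm hT h0
      have hcard2 := card_star_mem hm hT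
      set a : ℕ := Uᶜ.card with ha
      have ha1 : 1 ≤ a := by
        rw [ha]
        exact card_pos.mpr ⟨0, mem_compl.mpr h0⟩
      obtain ⟨b, hb⟩ : ∃ b : ℕ, b = (univ.filter fun i : Fin n =>
        (i : ℕ) + k + 1 < n ∧ i ∈ U).card := ⟨_, rfl⟩
      rw [← hb] at hcard2
      have hmab : (m : ℝ) = a + b := by rw [← hcard2]; push_cast; ring
      have hψU : ψ m U = xx m a := by unfold ψ; rw [if_neg h0]
      have hdrift := xx_closed a b ha1 (by omega)
      rw [← hmab] at hdrift
      let t : Fin n → ℝ := fun i => xx m a +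
        (if (i : ℕ) + k + 1 < n ∧ i ∈ U then yy m a - xx m a else 0) +
        (if (i : ℕ) + k + 1 = n then yy m (a - 1) - xx m a else 0)
      have hsum : ∑ i, t i = n * xx m a + (b * (yy m a - xx m a) +
          (yy m (a - 1) - xx m a)) := by
        simp only [t]
        rw [sum_add_distrib, sum_add_distrib, ← sum_filter, ← sum_filter, sum_const, sum_const,
          sum_const, ← hb, card_p0 hm]
        simp only [card_univ, Fintype.card_fin, nsmul_eq_mul, Nat.cast_one, one_mul]
        ring
      have hlet : ∀ i : Fin n, avg U (fun π => F (π * gl n k i)) ≤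
          C + (r ^ s * t i + 2 * (1 - r ^ s)) / u0 := by
        intro i
        by_cases hi1 : (i : ℕ) + k + 1 = n
        · -- the special leaf: drop it
          have ht : t i = yy m (a - 1) := by
            simp only [t]
            rw [if_neg (by omega), if_pos hi1]
            ring
          rw [ht]
          have hp : par n k i = 0 := par_of_lt (by omega)
          have hi0 : i ≠ 0 := by
            rintro rfl
            simp only [Fin.val_zero] at hi1
            omega
          have himg : U.image (gl n k i) ⊆ insert 0 U := by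
            intro x hx
            obtain ⟨y, hy, rfl⟩ := mem_image.mp hx
            have hy0 : y ≠ 0 := by rintro rfl; exact h0 hy
            by_cases hyi : y = i
            · rw [hyi, gl_apply_self, hp]; exact mem_insert_self _ _
            · rw [gl_fix hyi (by rw [hp]; exact hy0)]; exact mem_insert_of_mem hy
          have hψV : ψ m (insert 0 U) = yy m (a - 1) := by
            unfold ψ
            rw [if_pos (mem_insert_self _ _)]
            congr 1
            have e1 := card_add_card_compl U
            have e2 := card_add_card_compl (insert 0 U)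
            have e3 := card_insert_of_notMem h0
            have e4 : ((insert 0 U)ᶜ).card + 1 = a := by omega
            rw [← e4]; push_cast; ring
          rw [avg_move U _ (gl_sq i)]
          apply avg_drop himg
          intro w
          have h2 := ihw (gl n k i * w) (insert 0 U) (fun x hx => mem_insert_of_mem (hT x hx))
          rw [hψV] at h2
          simpa only [mul_assoc] using h2
        · by_cases hi2 : (i : ℕ) + k + 1 < n
          · have hp : par n k i = 0 := par_of_lt (by omega)
            by_cases hi3 : i ∈ U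
            · -- opening letter
              have ht : t i = yy m a := by
                simp only [t]
                rw [if_pos ⟨hi2, hi3⟩, if_neg hi1]
                ring
              rw [ht]
              have hmem : (0 : Fin n) ∈ U.image (gl n k i) := by
                rw [mem_image]
                exact ⟨i, hi3, by rw [gl_apply_self, hp]⟩
              have hψV : ψ m (U.image (gl n k i)) = yy m a := by
                unfold ψ
                rw [if_pos hmem]
                congr 1
                have e1 := card_add_card_compl U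
                have e2 := card_add_card_compl (U.image (gl n k i))
                rw [card_image_gl] at e2
                have : ((U.image (gl n k i))ᶜ).card = a := by omega
                rw [this]
              rw [avg_move U _ (gl_sq i)]
              have h2 := ihw (gl n k i) (U.image (gl n k i)) (by
                intro x hx
                rw [mem_image]
                refine ⟨x, hT x hx, gl_fix ?_ ?_⟩
                · rintro rfl; omega
                · rw [hp]; rintro rfl; simp only [Fin.val_zero] at hx; omega)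
              rw [hψV] at h2
              exact h2
            · -- both marked
              have ht : t i = xx m a := by
                simp only [t]
                rw [if_neg (fun h => hi3 h.2), if_neg hi1]
                ring
              rw [ht]
              have hg : gl n k i ∈ Fx U := by
                rw [mem_Fx]
                intro x hx
                apply gl_fix
                · rintro rfl; exact hi3 hx
                · rw [hp]; rintro rfl; exact h0 hx
              rw [avg_right _ hg]
              have h2 := ihw 1 U hT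
              simp only [one_mul] at h2
              rw [hψU] at h2
              exact h2
          · -- tail letter
            have ht : t i = xx m a := by
              simp only [t]
              rw [if_neg (fun h => hi2 h.1), if_neg hi1]
              ring
            rw [ht]
            have himg : U.image (gl n k i) = U := by
              unfold gl
              apply image_swap_of_mem (hT i (by omega))
              apply hT
              rw [par_of_ge (by omega)]
              omega
            rw [avg_move U _ (gl_sq i), himg]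
            have h2 := ihw (gl n k i) U hT
            rw [hψU] at h2
            exact h2
      rw [hψU]
      refine (sum_le_sum fun i _ => hlet i).trans ?_
      have e5 : ∑ i : Fin n, (C + (r ^ s * t i + 2 * (1 - r ^ s)) / u0) =
          n * C + (r ^ s * (∑ i, t i) + 2 * n * (1 - r ^ s)) / u0 := by
        rw [sum_add_distrib, ← sum_div, sum_add_distrib, ← mul_sum, sum_const, sum_const]
        simp only [card_univ, Fintype.card_fin, nsmul_eq_mul]
        ring
      have e6 : (C + (r ^ (s + 1) * xx m a + 2 * (1 - r ^ (s + 1))) / u0) * n =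
          n * C + (r ^ s * ((n * r) * xx m a) + 2 * n - 2 * r ^ s * (n * r)) / u0 := by
        rw [pow_succ]; ring
      rw [e5, hsum, e6, hrn]
      apply add_le_add le_rfl
      apply div_le_div_of_nonneg_right _ hu0'.le
      nlinarith

end Pool.Agent.H79.Cut
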