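import Mathlib
import Pool.Agent.H79.CutDefs
import Pool.Agent.H79.CutPhase1
import Pool.Agent.H79.CutLower

/-!
# The broom walk is a walk based on a minimal generating set; upper and lower bounds for the total
variation distance
-/

namespace Pool.Agent.H79.Cut

open Equiv Finset

section general

variable {G : Type*} [Group G] [Fintype G] [DecidableEq G]

lemma sum_convPow (p : G → ℝ) (t : ℕ) : ∀ f : G → ℝ,
    ∑ g, convPow p t g * f g = ((fun f : G → ℝ => fun g => ∑ u, p u * f (g * u))^[t] f) 1 := by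
  induction t with
  | zero =>
    intro f
    simp [convPow]
  | succ t ih =>
    intro f
    rw [Function.iterate_succ_apply, ← ih]
    simp only [convPow, conv]
    simp only [sum_mul]
    rw [sum_comm]
    apply sum_congr rfl
    intro h _
    rw [mul_sum]
    refine Fintype.sum_equiv (Equiv.mulLeft h⁻¹) _ _ ?_
    intro g
    simp only [Equiv.coe_mulLeft]
    rw [mul_inv_cancel_left]
    ring

lemma tv_le {μ ν : G → ℝ} {c : ℝ} (h : ∀ A : Finset G, |∑ g ∈ A, μ g - ∑ g ∈ A, ν g| ≤ c) :
    tv μ ν ≤ c := ciSup_le h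

lemma le_tv (μ ν : G → ℝ) (A : Finset G) : |∑ g ∈ A, μ g - ∑ g ∈ A, ν g| ≤ tv μ ν :=
  le_ciSup (f := fun A : Finset G => |∑ g ∈ A, μ g - ∑ g ∈ A, ν g|)
    (Set.finite_range _).bddAbove A

lemma tv_nonneg (μ ν : G → ℝ) : 0 ≤ tv μ ν := (abs_nonneg _).trans (le_tv μ ν ∅)

end general

variable {n k : ℕ} [NeZero n]

/-- The minimal generating set of the broom. -/
def gens (n k : ℕ) [NeZero n] : Finset (Perm (Fin n)) := (univ.erase 0).image (gl n k)

lemma par_lt {i : Fin n} (hi : i ≠ 0) : ((par n k i : Fin n) : ℕ) < (i : ℕ) := by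
  have hi0 : (i : ℕ) ≠ 0 := fun h => hi (Fin.ext h)
  by_cases h : (i : ℕ) + k < n
  · rw [par_of_lt h]; simp only [Fin.val_zero]; omega
  · rw [par_of_ge (by omega)]; omega

lemma par_ne {i : Fin n} (hi : i ≠ 0) : par n k i ≠ i := by
  intro h
  have := par_lt (k := k) hi
  rw [h] at this
  exact lt_irrefl _ this

lemma gl_injective (hn : k < n) : Function.Injective (gl n k) := by
  intro i j hij
  by_cases hi : i = 0
  · subst hi
    by_contra hj
    have hj' : j ≠ 0 := fun h => hj h.symm
    rw [gl_zero hn] at hij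
    have h1 := gl_apply_self (k := k) j
    rw [← hij] at h1
    exact par_ne hj' h1.symm
  · by_cases hj : j = 0
    · subst hj
      exfalso
      rw [gl_zero hn] at hij
      have h1 := gl_apply_self (k := k) i
      rw [hij] at h1
      exact par_ne hi h1.symm
    · by_contra hne
      have h1 : gl n k j i = par n k i := by rw [← hij]; exact gl_apply_self i
      have h2 : gl n k i j = par n k j := by rw [hij]; exact gl_apply_self j
      have h3 : i = par n k j := by
        by_contra hc
        rw [gl_fix hne hc] at h1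
        exact par_ne hi h1.symm
      have h4 : j = par n k i := by
        by_contra hc
        rw [gl_fix (Ne.symm hne) hc] at h2
        exact par_ne hj h2.symm
      have h5 := par_lt (k := k) hi
      have h6 := par_lt (k := k) hj
      rw [← h4] at h5
      rw [← h3] at h6
      omega

lemma insert_gens (hn : k < n) : insert 1 (gens n k) = univ.image (gl n k) := by
  unfold gens
  rw [← gl_zero (k := k) (n := n) hn, ← image_insert, insert_erase (mem_univ _)]

lemma swap_preserves {α : Type*} [DecidableEq α] {B : Set α} {a b : α} (h : a ∈ B ↔ b ∈ B)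
    (x : α) : x ∈ B ↔ swap a b x ∈ B := by
  rw [swap_apply_def]
  split_ifs with h1 h2
  · rw [h1]; exact h
  · rw [h2]; exact h.symm
  · exact Iff.rfl

lemma isMinGen_gens (hn : k + 2 ≤ n) : IsMinGen (gens n k) := by
  constructor
  · -- generation
    have h0 : ∀ N : ℕ, ∀ x : Fin n, (x : ℕ) = N →
        swap x 0 ∈ Subgroup.closure (gens n k : Set (Perm (Fin n))) := by
      intro N
      induction N using Nat.strong_induction_on with
      | _ N ih =>
        intro x hx
        by_cases hx0 : x = 0
        · rw [hx0, swap_self]; exact one_mem _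
        · have h1 : swap x (par n k x) ∈ Subgroup.closure (gens n k : Set (Perm (Fin n))) := by
            apply Subgroup.subset_closure
            rw [mem_coe]
            unfold gens
            rw [mem_image]
            exact ⟨x, by simp [hx0], rfl⟩
          have h2 := ih (par n k x : Fin n) (by rw [← hx]; exact par_lt hx0) (par n k x) rfl
          exact SubmonoidClass.swap_mem_trans _ h1 h2
    rw [← top_le_iff, ← Equiv.Perm.closure_isSwap]
    rw [Subgroup.closure_le]
    rintro σ ⟨x, y, -, rfl⟩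
    have h1 := h0 _ x rfl
    have h2 := h0 _ y rfl
    rw [swap_comm] at h2
    exact SubmonoidClass.swap_mem_trans _ h1 h2
  · -- minimality
    intro T hT htop
    obtain ⟨hTS, hST⟩ := Finset.ssubset_iff_subset_ne.mp hT
    obtain ⟨g, hgS, hgT⟩ : ∃ g ∈ gens n k, g ∉ T := by
      by_contra hc
      push Not at hc
      exact hST (Finset.Subset.antisymm hTS hc)
    unfold gens at hgS
    rw [mem_image] at hgS
    obtain ⟨i, hi, rfl⟩ := hgS
    have hi0 : i ≠ 0 := (mem_erase.mp hi).1
    have hi0' : (i : ℕ) ≠ 0 := fun h => hi0 (Fin.ext h)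
    -- an invariant set
    obtain ⟨B, hiB, h0B, hB⟩ : ∃ B : Set (Fin n), i ∈ B ∧ (0 : Fin n) ∉ B ∧
        ∀ j : Fin n, j ≠ i → j ≠ 0 → (j ∈ B ↔ par n k j ∈ B) := by
      by_cases h : (i : ℕ) + k + 1 < n
      · refine ⟨{i}, rfl, fun h => hi0 (Set.mem_singleton_iff.mp h).symm, ?_⟩
        intro j hj hj0
        rw [Set.mem_singleton_iff, Set.mem_singleton_iff]
        constructor
        · intro h1; exact absurd h1 hj
        · intro h1
          exfalso
          by_cases h2 : (j : ℕ) + k < n
          · rw [par_of_lt h2] at h1; exact hi0 h1.symm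
          · have h3 := par_of_ge (n := n) (k := k) (i := j) (by omega)
            rw [h1] at h3
            omega
      · refine ⟨{x | (i : ℕ) ≤ (x : ℕ)}, by simp, ?_, ?_⟩
        · simp only [Set.mem_setOf_eq, Fin.val_zero]; omega
        · intro j hj hj0
          have hj' : (j : ℕ) ≠ (i : ℕ) := fun h => hj (Fin.ext h)
          simp only [Set.mem_setOf_eq]
          by_cases h2 : (j : ℕ) + k < n
          · rw [par_of_lt h2]
            simp only [Fin.val_zero]
            omega
          · rw [par_of_ge (n := n) (k := k) (i := j) (by omega)]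
            omega
    have hpres : ∀ σ ∈ Subgroup.closure (T : Set (Perm (Fin n))), ∀ x, x ∈ B ↔ σ x ∈ B := by
      intro σ hσ
      induction hσ using Subgroup.closure_induction with
      | mem σ hσ =>
        have h1 := hTS (mem_coe.mp hσ)
        unfold gens at h1
        rw [mem_image] at h1
        obtain ⟨j, hj, rfl⟩ := h1
        have hj0 : j ≠ 0 := (mem_erase.mp hj).1
        have hji : j ≠ i := by
          rintro rfl
          exact hgT (mem_coe.mp hσ)
        unfold gl
        exact swap_preserves (hB j hji hj0)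
      | one => intro x; exact Iff.rfl
      | mul σ τ _ _ h1 h2 =>
        intro x
        rw [Perm.mul_apply]
        exact (h2 x).trans (h1 _)
      | inv σ _ h1 =>
        intro x
        have h2 := h1 (σ⁻¹ x)
        rw [aii] at h2
        exact h2.symm
    have h1 : swap i 0 ∈ Subgroup.closure (T : Set (Perm (Fin n))) := by
      rw [htop]; exact Subgroup.mem_top _
    have h2 := hpres _ h1 i
    rw [swap_apply_left] at h2
    exact h0B (h2.mp hiB)

/-- The driving measure of the broom walk. -/
noncomputable def pb (n k : ℕ) [NeZero n] : Perm (Fin n) → ℝ := unifOn (insert 1 (gens n k))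

lemma isMinGenWalk_pb (hn : k + 2 ≤ n) : IsMinGenWalk (pb n k) :=
  ⟨gens n k, isMinGen_gens hn, Or.inr (Or.inl rfl)⟩

lemma pb_op (hn : k < n) :
    (fun f : Perm (Fin n) → ℝ => fun g => ∑ u, pb n k u * f (g * u)) = K n k := by
  funext f g
  unfold pb K
  rw [insert_gens hn]
  have hc : ((univ.image (gl n k)).card : ℝ) = n := by
    rw [card_image_of_injective _ (gl_injective hn)]
    simp
  have h1 : ∀ u, unifOn (univ.image (gl n k)) u * f (g * u) =
      if u ∈ univ.image (gl n k) then f (g * u) / n else 0 := by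
    intro u
    unfold unifOn
    rw [hc]
    split_ifs <;> ring
  rw [sum_congr rfl fun u _ => h1 u, ← sum_filter, filter_mem_eq_inter, univ_inter,
    sum_image fun _ _ _ _ h => gl_injective hn h, sum_div]

lemma convPow_pb (hn : k < n) (t : ℕ) (A : Finset (Perm (Fin n))) :
    ∑ g ∈ A, convPow (pb n k) t g = (K n k)^[t] (ind A) 1 := by
  rw [← pb_op hn, ← sum_convPow]
  unfold ind
  simp only [mul_ite, mul_one, mul_zero]
  rw [← sum_filter, filter_mem_eq_inter, univ_inter]

lemma unif_eq (A : Finset (Perm (Fin n))) :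
    ∑ g ∈ A, unifOn (univ : Finset (Perm (Fin n))) g = avg ∅ (ind A) := by
  rw [avg_empty]
  unfold ind unifOn
  simp only [mem_univ, if_true, card_univ]
  rw [sum_const, ← sum_filter, filter_mem_eq_inter, univ_inter, sum_const]
  simp only [nsmul_eq_mul]
  ring

lemma ind_compl {β : Type*} [Fintype β] [DecidableEq β] (A : Finset β) (σ : β) :
    ind Aᶜ σ = 1 - ind A σ := by
  by_cases h : σ ∈ A <;> simp [ind, h]

lemma K_apply (f : Perm (Fin n) → ℝ) (σ : Perm (Fin n)) :
    K n k f σ = (∑ i, f (σ * gl n k i)) / n := rfl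

lemma K_compl (A : Finset (Perm (Fin n))) (t : ℕ) :
    ∀ σ, (K n k)^[t] (ind Aᶜ) σ = 1 - (K n k)^[t] (ind A) σ := by
  induction t with
  | zero =>
    intro σ
    exact ind_compl A σ
  | succ t ih =>
    intro σ
    rw [Function.iterate_succ_apply', Function.iterate_succ_apply', K_apply, K_apply,
      sum_congr rfl fun i _ => ih _, sum_sub_distrib]
    simp only [sum_const, card_univ, Fintype.card_fin, nsmul_eq_mul, mul_one]
    rw [sub_div, div_self (npos (n := n)).ne']

lemma avg_compl (A : Finset (Perm (Fin n))) :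
    avg ∅ (ind Aᶜ) = 1 - avg ∅ (ind A) := by
  rw [avg_empty, avg_empty]
  rw [sum_congr rfl fun σ _ => ind_compl A σ, sum_sub_distrib]
  simp only [sum_const, card_univ, nsmul_eq_mul, mul_one]
  rw [sub_div, div_self]
  positivity

/-- One-sided bounds for all events give a bound for the total variation distance. -/
lemma tv_pb_le (hn : k < n) (t : ℕ) {δ : ℝ}
    (h : ∀ A : Finset (Perm (Fin n)), (K n k)^[t] (ind A) 1 ≤ avg ∅ (ind A) + δ) :
    tv (convPow (pb n k) t) (unifOn univ) ≤ δ := by
  apply tv_le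
  intro A
  rw [convPow_pb hn, unif_eq, abs_le]
  constructor
  · have h1 := h Aᶜ
    rw [K_compl, avg_compl] at h1
    linarith
  · have h1 := h A
    linarith

lemma tv_pb_le_one (hn : k < n) (t : ℕ) : tv (convPow (pb n k) t) (unifOn univ) ≤ 1 := by
  apply tv_pb_le hn
  intro A
  have h1 := Kit_le_one (n := n) (k := k) (f := ind A) (ind_le_one A) t 1
  have h2 : 0 ≤ avg ∅ (ind A) := avg_nonneg (ind_nonneg A)
  linarith

/-- The explicit upper bound. -/
lemma upper {a θ : ℝ} (P : Par n k a θ) {κ B : ℝ} (hκ1 : 1 ≤ κ) (hB : 1 ≤ B * Real.sin a)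
    (hbig : 2 * ((k : ℝ) + 2) ≤ ((n : ℝ) - k - 1 - k) * Real.sin a)
    (hκ : (k : ℝ) ≤ (κ - 1) * ((n : ℝ) - k - 1 - k)) (hm : k + 9 ≤ n) (t1 t2 : ℕ) :
    tv (convPow (pb n k) (t1 + t2)) (unifOn univ) ≤
      (κ ^ (2 * k + 2) - 1) +
      κ ^ (2 * k + 2) * (B * (1 - (2 - 2 * Real.cos θ) / n) ^ t2 * (2 * k + 2)) +
      ((1 - 1 / (2 * n)) ^ t1 * n ^ 2 + 2) / k := by
  have hk := P.hk
  obtain ⟨m, hmn⟩ : ∃ m, n = m + k + 1 := ⟨n - k - 1, by omega⟩
  have hk' : (0 : ℝ) < k := by exact_mod_cast hk
  have hsin := P.sin_pos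
  have hnpos : (0 : ℝ) < n := npos
  have hB0 : 0 < B := by
    by_contra hc
    push Not at hc
    nlinarith
  have hr0 : 0 ≤ 1 - (2 - 2 * Real.cos θ) / n := by
    have h1 := P.hlam
    have h2 : (2 - 2 * Real.cos θ) / n ≤ 1 := by
      rw [div_le_one hnpos]
      have : (3 : ℝ) ≤ n := by exact_mod_cast (show 3 ≤ n by omega)
      linarith
    linarith
  set r := 1 - (2 - 2 * Real.cos θ) / n with hr
  apply tv_pb_le (by omega)
  intro A
  set E := avg ∅ (ind A) with hE
  have hE0 : 0 ≤ E := avg_nonneg (ind_nonneg A)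
  have hE1 : E ≤ 1 := avg_le_one (ind_le_one A)
  have hκ0 : 0 ≤ κ := by linarith
  have hC0 : 0 ≤ κ ^ (2 * k + 2) * (E + B * r ^ t2 * (2 * k + 2)) := by positivity
  -- the second phase
  have h2 : ∀ (w : Perm (Fin n)) (V : Finset (Fin n)),
      (∀ x : Fin n, n ≤ (x : ℕ) + k + 1 → x ∈ V) → (lf n k V).card ≤ k →
      avg V (fun π => (K n k)^[t2] (ind A) (w * π)) ≤
        κ ^ (2 * k + 2) * (E + B * r ^ t2 * (2 * k + 2)) := by
    intro w V hV hl
    have h3 := phase2 P hκ1 hB hbig hκ t2 V hl (fun π => ind A (w * π)) (fun σ => ind_nonneg A _)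
      (fun σ => ind_le_one A _)
    rw [Kit_left, avg_empty_left] at h3
    have hVc : V.card ≤ 2 * k + 2 := by
      have h4 := card_low (k := k) V (by omega)
      have h5 := card_filter_add_card_filter_not (s := V) (fun x : Fin n => (x : ℕ) + k < n)
      have h6 : (V.filter fun x : Fin n => ¬ ((x : ℕ) + k < n)).card ≤ k := by
        have h7 : (V.filter fun x : Fin n => ¬ ((x : ℕ) + k < n)) ⊆
            (univ.filter fun x : Fin n => ¬ ((x : ℕ) + k < n)) := by
          apply filter_subset_filter
          exact subset_univ _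
        refine (card_le_card h7).trans ?_
        have h8 := card_filter_add_card_filter_not (s := (univ : Finset (Fin n)))
          (fun x : Fin n => (x : ℕ) + k < n)
        have h9 : (univ.filter fun x : Fin n => (x : ℕ) + k < n) =
            univ.filter fun x : Fin n => (x : ℕ) < n - k := by
          apply filter_congr; intro x _; omega
        rw [h9, Fin.card_filter_val_lt, card_univ, Fintype.card_fin] at h8
        rw [min_eq_right (by omega)] at h8
        omega
      omega
    have hVc' : (V.card : ℝ) ≤ 2 * k + 2 := by exact_mod_cast hVc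
    refine h3.trans ?_
    apply mul_le_mul
    · exact pow_le_pow_right₀ hκ1 hVc
    · apply add_le_add le_rfl
      apply mul_le_mul_of_nonneg_left _ (by positivity)
      exact (P.Φ_le V).trans hVc'
    · have := P.Φ_nonneg V
      positivity
    · positivity
  have h1 := phase1 hmn (by omega) hk hC0 t1 univ (fun x _ => mem_univ x)
    ((K n k)^[t2] (ind A)) (Kit_le_one (ind_le_one A) t2) h2
  rw [avg_univ, ← Function.iterate_add_apply] at h1
  refine h1.trans ?_
  have hψ : ψ m (univ : Finset (Fin n)) = (m : ℝ) ^ 2 := by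
    unfold ψ
    rw [if_pos (mem_univ _)]
    unfold yy
    simp
    ring
  rw [hψ]
  have hr1 : 0 ≤ (1 - 1 / (2 * (n : ℝ))) := by
    have h2 : 1 / (2 * (n : ℝ)) ≤ 1 := by
      rw [div_le_one (by positivity)]
      have : (1 : ℝ) ≤ n := by exact_mod_cast (show 1 ≤ n by omega)
      linarith
    linarith
  have h3 : ((1 - 1 / (2 * (n : ℝ))) ^ t1 * (m : ℝ) ^ 2 +
      2 * (1 - (1 - 1 / (2 * (n : ℝ))) ^ t1)) / k ≤
      ((1 - 1 / (2 * (n : ℝ))) ^ t1 * (n : ℝ) ^ 2 + 2) / k := by
    apply div_le_div_of_nonneg_right _ hk'.le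
    have h4 : (m : ℝ) ^ 2 ≤ (n : ℝ) ^ 2 := by
      have : (m : ℝ) ≤ n := by exact_mod_cast (show m ≤ n by omega)
      exact pow_le_pow_left₀ (by positivity) this 2
    have h5 : 0 ≤ (1 - 1 / (2 * (n : ℝ))) ^ t1 := by positivity
    nlinarith
  have h4 : κ ^ (2 * k + 2) * (E + B * r ^ t2 * (2 * k + 2)) ≤
      E + (κ ^ (2 * k + 2) - 1) + κ ^ (2 * k + 2) * (B * r ^ t2 * (2 * k + 2)) := by
    have h5 : 1 ≤ κ ^ (2 * k + 2) := one_le_pow₀ hκ1
    nlinarith
  linarith

/-- The explicit lower bound. -/
lemma tv_ge (hk : 1 ≤ k) (hn : k + 2 ≤ n)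
    (hr : 0 < 1 - (2 - 2 * Real.cos (Real.pi / (2 * k + 3))) / n) (t : ℕ) :
    1 - 2 / ((k + 1) * (1 - (2 - 2 * Real.cos (Real.pi / (2 * k + 3))) / n) ^ t) -
      ((k : ℝ) + 1) ^ 2 / n ≤ tv (convPow (pb n k) t) (unifOn univ) := by
  have h1 := lower hk hn hr t
  have h2 := avg_evT (n := n) (k := k) hn
  have h3 := le_tv (convPow (pb n k) t) (unifOn univ) (evT n k)
  rw [convPow_pb (by omega), unif_eq] at h3
  have h4 := le_abs_self ((K n k)^[t] (ind (evT n k)) 1 - avg ∅ (ind (evT n k)))
  linarith

end Pool.Agent.H79.Cut
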