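import Mathlib
import Pool.Agent.H79.CutLink

/-!
# Asymptotics
-/

namespace Pool.Agent.H79.Cut

open Equiv Finset Filter Topology

/-- The family of broom walks with tails of `k n` edges. -/
noncomputable def pfam (k : ℕ → ℕ) : ∀ n : ℕ, Perm (Fin n) → ℝ
  | 0 => fun _ => 0
  | n + 1 => pb (n + 1) (k (n + 1))

lemma pfam_eq (k : ℕ → ℕ) (n : ℕ) [h : NeZero n] : pfam k n = pb n (k n) := by
  cases n with
  | zero => exact absurd rfl h.ne
  | succ n => rfl

/-- `(1 - x)^T ≥ exp(-T x / (1 - x))`. -/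
lemma one_sub_pow_ge {x : ℝ} (hx1 : x < 1) (T : ℕ) :
    Real.exp (-(T * (x / (1 - x)))) ≤ (1 - x) ^ T := by
  have h1 : 0 < 1 - x := by linarith
  have h2 : (1 - x)⁻¹ ≤ Real.exp (x / (1 - x)) := by
    have h3 := Real.add_one_le_exp (x / (1 - x))
    have h4 : (1 - x)⁻¹ = x / (1 - x) + 1 := by field_simp; ring
    rw [h4]; exact h3
  have h3 : Real.exp (-(x / (1 - x))) ≤ 1 - x := by
    rw [Real.exp_neg]
    exact inv_le_of_inv_le₀ h1 h2
  calc Real.exp (-(T * (x / (1 - x)))) = (Real.exp (-(x / (1 - x)))) ^ T := by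
        rw [← Real.exp_nat_mul]; congr 1; ring
    _ ≤ (1 - x) ^ T := pow_le_pow_left₀ (Real.exp_pos _).le h3 T

/-- `(1 - x)^T ≤ exp(-T x)`. -/
lemma one_sub_pow_le {x : ℝ} (hx1 : x ≤ 1) (T : ℕ) :
    (1 - x) ^ T ≤ Real.exp (-(T * x)) := by
  have h3 : 1 - x ≤ Real.exp (-x) := by
    have := Real.add_one_le_exp (-x)
    linarith
  calc (1 - x) ^ T ≤ (Real.exp (-x)) ^ T := pow_le_pow_left₀ (by linarith) h3 T
    _ = Real.exp (-(T * x)) := by
        rw [← Real.exp_nat_mul]; congr 1; ring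

/-- the decay rate in the second phase -/
lemma rate_lim (b : ℝ) (c : ℝ) (hc : c < b ^ 2) :
    ∀ᶠ k : ℕ in atTop, c ≤ (2 - 2 * Real.cos (b / (k + 3 / 2))) * (k : ℝ) ^ 2 := by
  have hk : Tendsto (fun k : ℕ => (k : ℝ)) atTop atTop := tendsto_natCast_atTop_atTop
  have h0 : Tendsto (fun k : ℕ => b / ((k : ℝ) + 3 / 2)) atTop (𝓝 0) :=
    tendsto_const_nhds.div_atTop (tendsto_atTop_add_const_right _ _ hk)
  have h1 : Tendsto (fun k : ℕ => b / ((k : ℝ) + 3 / 2) * k) atTop (𝓝 b) := by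
    have h2 : Tendsto (fun k : ℕ => b - b / ((k : ℝ) + 3 / 2) * (3 / 2)) atTop
        (𝓝 (b - 0 * (3 / 2))) := tendsto_const_nhds.sub (h0.mul_const _)
    rw [zero_mul, sub_zero] at h2
    refine h2.congr ?_
    intro k
    have : (k : ℝ) + 3 / 2 ≠ 0 := by positivity
    field_simp
    ring
  have h2 : Tendsto (fun k : ℕ => (b / ((k : ℝ) + 3 / 2) * k) ^ 2 *
      (1 - 5 / 48 * (b / ((k : ℝ) + 3 / 2)) ^ 2)) atTop (𝓝 (b ^ 2 * (1 - 5 / 48 * 0 ^ 2))) :=
    (h1.pow 2).mul (tendsto_const_nhds.sub (tendsto_const_nhds.mul (h0.pow 2)))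
  have e : b ^ 2 * (1 - 5 / 48 * (0:ℝ) ^ 2) = b ^ 2 := by norm_num
  rw [e] at h2
  have h3 := h2.eventually_const_le hc
  have h4 : ∀ᶠ k : ℕ in atTop, |b / ((k : ℝ) + 3 / 2)| ≤ 1 := by
    have h5 := h0.abs
    rw [abs_zero] at h5
    exact h5.eventually_le_const one_pos
  filter_upwards [h3, h4] with k h3 h4
  refine h3.trans ?_
  set θ := b / ((k : ℝ) + 3 / 2) with hθ
  have h5 := Real.cos_bound h4
  rw [abs_le] at h5
  have h6 : |θ| ^ 4 = θ ^ 4 := by
    rw [← abs_pow, abs_of_nonneg]; positivity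
  rw [h6] at h5
  have h7 : θ ^ 2 * (1 - 5 / 48 * θ ^ 2) ≤ 2 - 2 * Real.cos θ := by nlinarith [h5.2]
  have h8 : (0 : ℝ) ≤ (k : ℝ) ^ 2 := by positivity
  calc (θ * k) ^ 2 * (1 - 5 / 48 * θ ^ 2) = (θ ^ 2 * (1 - 5 / 48 * θ ^ 2)) * (k : ℝ) ^ 2 := by ring
    _ ≤ _ := mul_le_mul_of_nonneg_right h7 h8

section cutoff

variable {k : ℕ → ℕ} {t : ℕ → ℝ}

lemma tendsto_k_div (hk : Tendsto k atTop atTop)
    (hk2 : Tendsto (fun n => (k n : ℝ) ^ 2 / n) atTop (𝓝 0)) :
    Tendsto (fun n => (k n : ℝ) / n) atTop (𝓝 0) := by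
  refine squeeze_zero' (Eventually.of_forall fun n => by positivity) ?_ hk2
  filter_upwards [hk.eventually_ge_atTop 1] with n hn
  apply div_le_div_of_nonneg_right _ (by positivity)
  have : (1 : ℝ) ≤ k n := by exact_mod_cast hn
  nlinarith

/-- The upper bound half of the cut-off. -/
lemma cutoff_upper (hk : Tendsto k atTop atTop)
    (hk2 : Tendsto (fun n => (k n : ℝ) ^ 2 / n) atTop (𝓝 0))
    (ht : Tendsto (fun n : ℕ => t n / (n * Real.log n)) atTop atTop)
    (hlo : ∀ᶠ n : ℕ in atTop, 4 / Real.pi ^ 2 * (k n : ℝ) ^ 2 * Real.log (k n) ≤ t n / n)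
    {ε : ℝ} (hε : 0 < ε) (hε1 : ε < 1) :
    Tendsto (fun n => tv (convPow (pfam k n) ⌊(1 + ε) * t n⌋₊) (unifOn univ)) atTop (𝓝 0) := by
  have hpi := Real.pi_pos
  have hpi3 := Real.pi_gt_three
  have hpi4 := Real.pi_lt_four
  set a : ℝ := Real.pi * ε / 64 with ha
  have ha0 : 0 < a := by positivity
  have ha1 : a ≤ 1 / 2 := by rw [ha]; nlinarith
  have hb0 : 0 < Real.pi / 2 - a := by linarith
  have hsa1 : Real.sin a ≤ 1 / 2 := (Real.sin_lt ha0).le.trans ha1
  have hsa0 : 0 < Real.sin a := Real.sin_pos_of_pos_of_lt_pi ha0 (by linarith)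
  set B : ℝ := 1 / Real.sin a with hB
  have hB0 : 0 < B := by positivity
  -- the constant in the rate
  have hrate : ∀ᶠ n in atTop, (1 + ε / 4) / (1 + ε / 2) * (Real.pi ^ 2 / 4) ≤
      (2 - 2 * Real.cos ((Real.pi / 2 - a) / (k n + 3 / 2))) * (k n : ℝ) ^ 2 := by
    apply hk.eventually (rate_lim (Real.pi / 2 - a) _ _)
    have h1 : (Real.pi / 2 - a) ^ 2 = (Real.pi ^ 2 / 4) * (1 - ε / 32) ^ 2 := by rw [ha]; ring
    rw [h1, mul_comm]
    apply mul_lt_mul_of_pos_left _ (by positivity)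
    rw [div_lt_iff₀ (by linarith)]
    nlinarith [mul_pos hε hε, mul_pos hε (mul_pos hε hε), mul_pos hε (sub_pos.mpr hε1)]
  -- the bound
  have hbound : ∀ᶠ n : ℕ in atTop, tv (convPow (pfam k n) ⌊(1 + ε) * t n⌋₊) (unifOn univ) ≤
      (Real.exp (8 * ((k n : ℝ) ^ 2 / n)) - 1) +
      Real.exp (8 * ((k n : ℝ) ^ 2 / n)) * (4 * B * Real.exp (-(ε / 4 * Real.log (k n)))) +
      3 / (k n : ℝ) := by
    have hkn := tendsto_k_div hk hk2
    have e1 : ∀ᶠ n : ℕ in atTop, (k n : ℝ) / n ≤ Real.sin a / 32 :=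
      hkn.eventually_le_const (by positivity)
    have e2 : ∀ᶠ n : ℕ in atTop, (64 : ℝ) / Real.sin a ≤ n :=
      tendsto_natCast_atTop_atTop.eventually_ge_atTop _
    have e3 : ∀ᶠ n : ℕ in atTop, 16 / ε ≤ t n / (n * Real.log n) := ht.eventually_ge_atTop _
    have e4 : ∀ᶠ n : ℕ in atTop, 100 ≤ n := eventually_ge_atTop 100
    filter_upwards [hrate, e1, e2, e3, e4, hlo, hk.eventually_ge_atTop 1] with
      n hrate e1 e2 e3 e4 hlo hk1
    have : NeZero n := ⟨by omega⟩
    rw [pfam_eq]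
    set K := k n with hKdef
    have hnR : (100 : ℝ) ≤ n := by exact_mod_cast e4
    have hn0 : (0 : ℝ) < n := by linarith
    have hK1 : (1 : ℝ) ≤ K := by exact_mod_cast hk1
    have hKn : (K : ℝ) ≤ n * (Real.sin a / 32) := by
      rw [div_le_iff₀ hn0] at e1; linarith
    have hnsin : 64 ≤ n * Real.sin a := by
      rw [div_le_iff₀ hsa0] at e2; linarith
    have hKn2 : (K : ℝ) ≤ n / 64 := by nlinarith
    have hKnat : K * 64 ≤ n := by
      have : (K : ℝ) * 64 ≤ n := by linarith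
      exact_mod_cast this
    -- logs
    have hlogn : 1 ≤ Real.log n := by
      rw [Real.le_log_iff_exp_le hn0]
      have := Real.exp_one_lt_d9
      linarith
    have hnlog : (0 : ℝ) < n * Real.log n := by positivity
    have ht1 : 16 / ε * (n * Real.log n) ≤ t n := by rwa [le_div_iff₀ hnlog] at e3
    have ht2 : 16 * (n * Real.log n) ≤ ε * t n := by
      have h1 := mul_le_mul_of_nonneg_left ht1 hε.le
      have h2 : ε * (16 / ε * (n * Real.log n)) = 16 * (n * Real.log n) := by field_simp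
      linarith
    have hnl1 : 100 ≤ n * Real.log n := by nlinarith
    have ht0 : 0 < t n := by
      by_contra hc
      push Not at hc
      nlinarith
    -- the parameters
    set θ : ℝ := (Real.pi / 2 - a) / (K + 3 / 2) with hθdef
    have hθ0 : 0 < θ := by positivity
    have hθ1 : θ ≤ 7 / 10 := by
      rw [hθdef, div_le_iff₀ (by positivity)]
      nlinarith [Real.pi_lt_d2]
    have hlam1 : 2 - 2 * Real.cos θ ≤ θ ^ 2 := by
      have := Real.one_sub_sq_div_two_le_cos (x := θ)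
      linarith
    have P : Par n K a θ := by
      refine ⟨hk1, by omega, ha0, hθ0, ?_, hsa1, ?_⟩
      · have : ((K : ℝ) + 3 / 2) * θ = Real.pi / 2 - a := by
          rw [hθdef]; field_simp
        rw [this]; linarith
      · nlinarith
    set κ : ℝ := 1 + K / ((n : ℝ) - 2 * K - 1) with hκdef
    have hden : (n : ℝ) / 2 ≤ (n : ℝ) - 2 * K - 1 := by linarith
    have hden0 : 0 < (n : ℝ) - 2 * K - 1 := by linarith
    have hκ1 : 1 ≤ κ := by
      rw [hκdef]
      have : 0 ≤ (K : ℝ) / ((n : ℝ) - 2 * K - 1) := by positivity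
      linarith
    set T := ⌊(1 + ε) * t n⌋₊ with hT
    set t1 := ⌈4 * (n * Real.log n)⌉₊ with ht1def
    have hT1 : (1 + ε) * t n - 1 < T := Nat.sub_one_lt_floor _
    have ht1b : (t1 : ℝ) < 4 * (n * Real.log n) + 1 := Nat.ceil_lt_add_one (by positivity)
    have ht1a : 4 * (n * Real.log n) ≤ t1 := Nat.le_ceil _
    have hle : t1 ≤ T := by
      have : (t1 : ℝ) ≤ T := by nlinarith
      exact_mod_cast this
    obtain ⟨t2, ht2def⟩ : ∃ t2, T = t1 + t2 := ⟨T - t1, by omega⟩
    have ht2R : (1 + ε / 2) * t n ≤ t2 := by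
      have h1 : (T : ℝ) = t1 + t2 := by exact_mod_cast ht2def
      linarith
    have hup := upper P hκ1 (B := B) (by rw [hB]; field_simp; exact le_rfl) (by nlinarith) (by
      rw [hκdef]
      have h1 : (n : ℝ) - K - 1 - K = (n : ℝ) - 2 * K - 1 := by ring
      rw [h1, add_sub_cancel_left, div_mul_cancel₀ _ hden0.ne']) (by omega) t1 t2
    rw [← ht2def] at hup
    refine hup.trans ?_
    -- the power of κ
    have hκpow : κ ^ (2 * K + 2) ≤ Real.exp (8 * ((K : ℝ) ^ 2 / n)) := by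
      have h1 : κ ≤ Real.exp (K / ((n : ℝ) - 2 * K - 1)) := by
        rw [hκdef, add_comm]; exact Real.add_one_le_exp _
      calc κ ^ (2 * K + 2) ≤ (Real.exp (K / ((n : ℝ) - 2 * K - 1))) ^ (2 * K + 2) :=
            pow_le_pow_left₀ (by linarith) h1 _
        _ = Real.exp ((2 * K + 2 : ℕ) * (K / ((n : ℝ) - 2 * K - 1))) := by
            rw [← Real.exp_nat_mul]
        _ ≤ _ := by
            apply Real.exp_le_exp.mpr
            push_cast
            rw [mul_div_assoc', mul_div_assoc', div_le_div_iff₀ hden0 hn0]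
            have h2 : (2 * (K : ℝ) + 2) * K ≤ 4 * K ^ 2 := by nlinarith
            have h3 : (0 : ℝ) ≤ K ^ 2 := by positivity
            calc (2 * (K : ℝ) + 2) * K * n ≤ 4 * K ^ 2 * n :=
                  mul_le_mul_of_nonneg_right h2 hn0.le
              _ = 8 * K ^ 2 * (n / 2) := by ring
              _ ≤ 8 * K ^ 2 * ((n : ℝ) - 2 * K - 1) :=
                  mul_le_mul_of_nonneg_left hden (by positivity)
    -- the power of r
    have hlam0 := P.lam_nonneg
    have hr : (1 - (2 - 2 * Real.cos θ) / n) ^ t2 ≤ Real.exp (-((1 + ε / 4) * Real.log K)) := by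
      have h1 : (2 - 2 * Real.cos θ) / n ≤ 1 := by
        rw [div_le_one hn0]; nlinarith
      refine (one_sub_pow_le h1 t2).trans ?_
      apply Real.exp_le_exp.mpr
      apply neg_le_neg
      have hlogK : 0 ≤ Real.log K := Real.log_nonneg hK1
      have h2 : (1 + ε / 2) * (4 / Real.pi ^ 2 * (K : ℝ) ^ 2 * Real.log K) ≤ t2 / n := by
        rw [le_div_iff₀ hn0]
        rw [le_div_iff₀ hn0] at hlo
        have h3 := mul_le_mul_of_nonneg_left hlo (by linarith : 0 ≤ 1 + ε / 2)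
        linarith
      have h3 : (1 + ε / 4) * Real.log K ≤ (2 - 2 * Real.cos θ) * ((1 + ε / 2) *
          (4 / Real.pi ^ 2 * (K : ℝ) ^ 2 * Real.log K)) := by
        have h4 := mul_le_mul_of_nonneg_left hrate
          (show 0 ≤ (1 + ε / 2) * (4 / Real.pi ^ 2) * Real.log K by positivity)
        have h5 : (1 + ε / 2) * (4 / Real.pi ^ 2) * Real.log K *
            ((1 + ε / 4) / (1 + ε / 2) * (Real.pi ^ 2 / 4)) = (1 + ε / 4) * Real.log K := by
          have : (1 + ε / 2) ≠ 0 := by positivity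
          field_simp
        rw [h5] at h4
        refine h4.trans (le_of_eq ?_)
        ring
      have h6 := mul_le_mul_of_nonneg_left h2 hlam0
      calc _ ≤ _ := h3
        _ ≤ (2 - 2 * Real.cos θ) * (t2 / n) := h6
        _ = _ := by ring
    have hrr : B * (1 - (2 - 2 * Real.cos θ) / n) ^ t2 * (2 * K + 2) ≤
        4 * B * Real.exp (-(ε / 4 * Real.log K)) := by
      have h1 : Real.exp (-((1 + ε / 4) * Real.log K)) =
          Real.exp (-(ε / 4 * Real.log K)) / K := by
        have : -((1 + ε / 4) * Real.log K) = -(ε / 4 * Real.log K) - Real.log K := by ring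
        rw [this, Real.exp_sub, Real.exp_log (by linarith)]
      rw [h1] at hr
      have h2 : (2 * (K : ℝ) + 2) ≤ 4 * K := by linarith
      have h3 : 0 ≤ Real.exp (-(ε / 4 * Real.log K)) / K := by positivity
      calc B * (1 - (2 - 2 * Real.cos θ) / n) ^ t2 * (2 * K + 2) ≤
            B * (Real.exp (-(ε / 4 * Real.log K)) / K) * (4 * K) := by
            apply mul_le_mul _ h2 (by positivity) (by positivity)
            exact mul_le_mul_of_nonneg_left hr hB0.le
        _ = _ := by field_simp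
    -- the first phase
    have hr1 : (1 - 1 / (2 * (n : ℝ))) ^ t1 * (n : ℝ) ^ 2 ≤ 1 := by
      have h1 : 1 / (2 * (n : ℝ)) ≤ 1 := by
        rw [div_le_one (by positivity)]; linarith
      have h2 := one_sub_pow_le h1 t1
      have h3 : Real.exp (-(t1 * (1 / (2 * (n : ℝ))))) ≤ Real.exp (-(2 * Real.log n)) := by
        apply Real.exp_le_exp.mpr
        apply neg_le_neg
        rw [mul_one_div, le_div_iff₀ (by positivity)]
        linarith
      have h4 : Real.exp (-(2 * Real.log n)) = ((n : ℝ) ^ 2)⁻¹ := by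
        rw [Real.exp_neg, mul_comm, Real.exp_mul, Real.exp_log hn0]
        norm_num
      calc (1 - 1 / (2 * (n : ℝ))) ^ t1 * (n : ℝ) ^ 2 ≤ ((n : ℝ) ^ 2)⁻¹ * (n : ℝ) ^ 2 := by
            apply mul_le_mul_of_nonneg_right _ (by positivity)
            rw [← h4]; exact h2.trans h3
        _ = 1 := by
            have : (n : ℝ) ^ 2 ≠ 0 := by positivity
            field_simp
    have h9 : ((1 - 1 / (2 * (n : ℝ))) ^ t1 * (n : ℝ) ^ 2 + 2) / K ≤ 3 / K := by
      apply div_le_div_of_nonneg_right _ (by positivity)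
      linarith
    have h10 : κ ^ (2 * K + 2) * (B * (1 - (2 - 2 * Real.cos θ) / n) ^ t2 * (2 * K + 2)) ≤
        Real.exp (8 * ((K : ℝ) ^ 2 / n)) * (4 * B * Real.exp (-(ε / 4 * Real.log K))) := by
      apply mul_le_mul hκpow hrr _ (Real.exp_pos _).le
      have : 0 ≤ 1 - (2 - 2 * Real.cos θ) / n := by
        have : (2 - 2 * Real.cos θ) / n ≤ 1 := by
          rw [div_le_one hn0]; nlinarith
        linarith
      positivity
    linarith
  -- the limit of the bound
  refine squeeze_zero' (Eventually.of_forall fun n => tv_nonneg _ _) hbound ?_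
  have hkR : Tendsto (fun n => (k n : ℝ)) atTop atTop := tendsto_natCast_atTop_atTop.comp hk
  have l1 : Tendsto (fun n => Real.exp (8 * ((k n : ℝ) ^ 2 / n))) atTop (𝓝 1) := by
    have h1 : Tendsto (fun n => 8 * ((k n : ℝ) ^ 2 / n)) atTop (𝓝 (8 * 0)) := hk2.const_mul 8
    rw [mul_zero] at h1
    have h2 := (Real.continuous_exp.tendsto 0).comp h1
    rw [Real.exp_zero] at h2
    exact h2
  have l2 : Tendsto (fun n => Real.exp (-(ε / 4 * Real.log (k n)))) atTop (𝓝 0) := by
    apply Real.tendsto_exp_neg_atTop_nhds_zero.comp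
    exact (Real.tendsto_log_atTop.comp hkR).const_mul_atTop (by positivity)
  have l3 : Tendsto (fun n => 3 / (k n : ℝ)) atTop (𝓝 0) := tendsto_const_nhds.div_atTop hkR
  have l4 := ((l1.sub_const 1).add (l1.mul (l2.const_mul (4 * B)))).add l3
  simpa using l4

/-- The lower bound half of the cut-off. -/
lemma cutoff_lower (hk : Tendsto k atTop atTop)
    (hk2 : Tendsto (fun n => (k n : ℝ) ^ 2 / n) atTop (𝓝 0))
    (htpos : ∀ᶠ n : ℕ in atTop, 0 < t n)
    (hhi : ∀ᶠ n : ℕ in atTop, t n / n ≤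
      4 / Real.pi ^ 2 * ((k n : ℝ) + 1) ^ 2 * Real.log ((k n : ℝ) + 1))
    {ε : ℝ} (hε : 0 < ε) (hε1 : ε < 1) :
    Tendsto (fun n => tv (convPow (pfam k n) ⌊(1 - ε) * t n⌋₊) (unifOn univ)) atTop (𝓝 1) := by
  have hpi := Real.pi_pos
  have hpi4 := Real.pi_lt_four
  have hbound : ∀ᶠ n : ℕ in atTop,
      1 - 2 * Real.exp (-(ε / 2 * Real.log ((k n : ℝ) + 1))) - 4 * ((k n : ℝ) ^ 2 / n) ≤
      tv (convPow (pfam k n) ⌊(1 - ε) * t n⌋₊) (unifOn univ) := by
    have hkn := tendsto_k_div hk hk2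
    have e1 : ∀ᶠ n : ℕ in atTop, (k n : ℝ) / n ≤ 1 / 2 :=
      hkn.eventually_le_const (by positivity)
    have e2 : ∀ᶠ n : ℕ in atTop, 2 / ε ≤ (n : ℝ) :=
      tendsto_natCast_atTop_atTop.eventually_ge_atTop _
    have e4 : ∀ᶠ n : ℕ in atTop, 100 ≤ n := eventually_ge_atTop 100
    filter_upwards [e1, e2, e4, hhi, htpos, hk.eventually_ge_atTop 1] with
      n e1 e2 e4 hhi ht0 hk1
    have : NeZero n := ⟨by omega⟩
    rw [pfam_eq]
    set K := k n with hKdef
    have hnR : (100 : ℝ) ≤ n := by exact_mod_cast e4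
    have hn0 : (0 : ℝ) < n := by linarith
    have hK1 : (1 : ℝ) ≤ K := by exact_mod_cast hk1
    have hKn : (K : ℝ) ≤ n / 2 := by
      rw [div_le_iff₀ hn0] at e1; linarith
    have hKnat : K * 2 ≤ n := by
      have : (K : ℝ) * 2 ≤ n := by linarith
      exact_mod_cast this
    set φ : ℝ := Real.pi / (2 * K + 3) with hφ
    have hφ0 : 0 < φ := by positivity
    have hφ1 : φ ≤ 4 / 5 := by
      rw [hφ, div_le_div_iff₀ (by positivity) (by norm_num)]
      nlinarith
    have hlam1 : 2 - 2 * Real.cos φ ≤ φ ^ 2 := by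
      have := Real.one_sub_sq_div_two_le_cos (x := φ)
      linarith
    have hlam0 : 0 ≤ 2 - 2 * Real.cos φ := by
      have := Real.cos_le_one φ
      linarith
    set x : ℝ := (2 - 2 * Real.cos φ) / n with hx
    have hx0 : 0 ≤ x := by positivity
    have hx1 : x ≤ 1 / n := by
      rw [hx]
      apply div_le_div_of_nonneg_right _ hn0.le
      nlinarith
    have hx2 : x ≤ ε / 2 := by
      refine hx1.trans ?_
      rw [div_le_div_iff₀ hn0 (by norm_num)]
      rw [div_le_iff₀ hε] at e2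
      linarith
    have hx3 : x < 1 := by linarith
    set T := ⌊(1 - ε) * t n⌋₊ with hT
    have hT1 : (T : ℝ) ≤ (1 - ε) * t n := Nat.floor_le (mul_nonneg (by linarith) ht0.le)
    have hlow := tv_ge hk1 (by omega : K + 2 ≤ n) (by linarith : 0 < 1 - x) T
    refine le_trans ?_ hlow
    have hlogK : 0 ≤ Real.log ((K : ℝ) + 1) := Real.log_nonneg (by linarith)
    -- the exponent
    have hTx : T * (x / (1 - x)) ≤ (1 - ε / 2) * Real.log ((K : ℝ) + 1) := by
      have h1 : T * x ≤ (1 - ε) * Real.log ((K : ℝ) + 1) := by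
        have h2 : T * x ≤ (1 - ε) * (t n / n) * φ ^ 2 := by
          calc T * x ≤ (1 - ε) * t n * (φ ^ 2 / n) := by
                apply mul_le_mul hT1 _ hx0 (mul_nonneg (by linarith) ht0.le)
                rw [hx]
                exact div_le_div_of_nonneg_right hlam1 hn0.le
            _ = _ := by ring
        have h3 : (t n / n) * φ ^ 2 ≤ Real.log ((K : ℝ) + 1) := by
          calc (t n / n) * φ ^ 2 ≤
                (4 / Real.pi ^ 2 * ((K : ℝ) + 1) ^ 2 * Real.log ((K : ℝ) + 1)) * φ ^ 2 :=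
                mul_le_mul_of_nonneg_right hhi (by positivity)
            _ = (4 * ((K : ℝ) + 1) ^ 2 / (2 * K + 3) ^ 2) * Real.log ((K : ℝ) + 1) := by
                rw [hφ]; field_simp
            _ ≤ 1 * Real.log ((K : ℝ) + 1) := by
                apply mul_le_mul_of_nonneg_right _ hlogK
                rw [div_le_one (by positivity)]
                nlinarith
            _ = _ := one_mul _
        calc T * x ≤ (1 - ε) * (t n / n) * φ ^ 2 := h2
          _ = (1 - ε) * ((t n / n) * φ ^ 2) := by ring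
          _ ≤ _ := mul_le_mul_of_nonneg_left h3 (by linarith)
      rw [mul_div_assoc', div_le_iff₀ (by linarith)]
      have h4 : (1 - ε) * Real.log ((K : ℝ) + 1) ≤
          (1 - ε / 2) * (1 - ε / 2) * Real.log ((K : ℝ) + 1) := by
        apply mul_le_mul_of_nonneg_right _ hlogK
        nlinarith
      have h5 : (1 - ε / 2) * (1 - ε / 2) * Real.log ((K : ℝ) + 1) ≤
          (1 - ε / 2) * Real.log ((K : ℝ) + 1) * (1 - x) := by
        have h6 : 0 ≤ (1 - ε / 2) * Real.log ((K : ℝ) + 1) := mul_nonneg (by linarith) hlogK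
        nlinarith
      linarith
    have hr : Real.exp (-((1 - ε / 2) * Real.log ((K : ℝ) + 1))) ≤ (1 - x) ^ T :=
      (Real.exp_le_exp.mpr (neg_le_neg hTx)).trans (one_sub_pow_ge hx3 T)
    have hμ : Real.exp (ε / 2 * Real.log ((K : ℝ) + 1)) ≤ (K + 1) * (1 - x) ^ T := by
      calc Real.exp (ε / 2 * Real.log ((K : ℝ) + 1)) =
            (K + 1) * Real.exp (-((1 - ε / 2) * Real.log ((K : ℝ) + 1))) := by
            nth_rewrite 2 [← Real.exp_log (show (0:ℝ) < (K : ℝ) + 1 by positivity)]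
            rw [← Real.exp_add]
            congr 1; ring
        _ ≤ _ := mul_le_mul_of_nonneg_left hr (by positivity)
    have h7 : 2 / ((K + 1) * (1 - x) ^ T) ≤ 2 * Real.exp (-(ε / 2 * Real.log ((K : ℝ) + 1))) := by
      rw [Real.exp_neg, ← div_eq_mul_inv]
      exact div_le_div_of_nonneg_left (by norm_num) (Real.exp_pos _) hμ
    have h8 : ((K : ℝ) + 1) ^ 2 / n ≤ 4 * ((K : ℝ) ^ 2 / n) := by
      rw [mul_div_assoc']
      apply div_le_div_of_nonneg_right _ hn0.le
      nlinarith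
    linarith
  have hkR : Tendsto (fun n => (k n : ℝ)) atTop atTop := tendsto_natCast_atTop_atTop.comp hk
  have l2 : Tendsto (fun n => Real.exp (-(ε / 2 * Real.log ((k n : ℝ) + 1)))) atTop (𝓝 0) := by
    apply Real.tendsto_exp_neg_atTop_nhds_zero.comp
    exact (Real.tendsto_log_atTop.comp (tendsto_atTop_add_const_right _ _ hkR)).const_mul_atTop
      (by positivity)
  have l3 : Tendsto (fun n => 1 - 2 * Real.exp (-(ε / 2 * Real.log ((k n : ℝ) + 1))) -
      4 * ((k n : ℝ) ^ 2 / n)) atTop (𝓝 (1 - 2 * 0 - 4 * 0)) :=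
    (tendsto_const_nhds.sub (l2.const_mul 2)).sub (hk2.const_mul 4)
  have l4 : (1 : ℝ) - 2 * 0 - 4 * 0 = 1 := by norm_num
  rw [l4] at l3
  refine tendsto_of_tendsto_of_tendsto_of_le_of_le' l3 tendsto_const_nhds hbound ?_
  have hkn := tendsto_k_div hk hk2
  have e1 : ∀ᶠ n : ℕ in atTop, (k n : ℝ) / n ≤ 1 / 2 := hkn.eventually_le_const (by positivity)
  filter_upwards [e1, eventually_ge_atTop 1] with n e1 hn
  have : NeZero n := ⟨by omega⟩
  rw [pfam_eq]
  apply tv_pb_le_one
  have hn0 : (0 : ℝ) < n := by exact_mod_cast hn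
  rw [div_le_iff₀ hn0] at e1
  have : (k n : ℝ) < n := by linarith
  exact_mod_cast this

end cutoff

end Pool.Agent.H79.Cut
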