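import Mathlib
import Pool.Agent.H79.CutDefs

/-!
# The entropy lower bound for cut-off times
-/

namespace Pool.Agent.H79.Cut

open Finset Filter Topology

section general

variable {G : Type*} [Group G] [Fintype G] [DecidableEq G]

/-- A minimal generating set has at most `log₂ |G|` elements. -/
lemma two_pow_card_le {S : Finset G} (hS : IsMinGen S) : 2 ^ S.card ≤ Nat.card G := by
  have hind : ∀ a ∈ S, a ∉ Subgroup.closure ((S.erase a : Finset G) : Set G) := by
    intro a ha hc
    apply hS.2 (S.erase a) (erase_ssubset ha)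
    rw [← hS.1]
    apply le_antisymm
    · exact Subgroup.closure_mono (by simp)
    · rw [Subgroup.closure_le]
      intro x hx
      by_cases hxa : x = a
      · rw [hxa]; exact hc
      · exact Subgroup.subset_closure (by
          rw [mem_coe, mem_erase]
          exact ⟨hxa, mem_coe.mp hx⟩)
  have key : ∀ T : Finset G, T ⊆ S → 2 ^ T.card ≤ Nat.card (Subgroup.closure (T : Set G)) := by
    intro T
    induction T using Finset.induction_on with
    | empty =>
      intro _
      simp only [card_empty, pow_zero]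
      exact Nat.one_le_iff_ne_zero.mpr Nat.card_pos.ne'
    | insert a T haT ih =>
      intro hT
      have haS : a ∈ S := hT (mem_insert_self _ _)
      have hTS : T ⊆ S := (subset_insert _ _).trans hT
      have h1 := ih hTS
      have hle : Subgroup.closure (T : Set G) ≤ Subgroup.closure ((insert a T : Finset G) : Set G) :=
        Subgroup.closure_mono (by simp)
      have hna : a ∉ Subgroup.closure (T : Set G) := by
        intro hc
        apply hind a haS
        refine Subgroup.closure_mono ?_ hc
        intro x hx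
        rw [mem_coe] at hx ⊢
        rw [mem_erase]
        exact ⟨fun h => haT (h ▸ hx), hTS hx⟩
      have hdvd := Subgroup.card_dvd_of_le hle
      have hne : Nat.card (Subgroup.closure (T : Set G)) ≠
          Nat.card (Subgroup.closure ((insert a T : Finset G) : Set G)) := by
        intro he
        have h2 := Subgroup.eq_of_le_of_card_ge hle he.ge
        apply hna
        rw [h2]
        exact Subgroup.subset_closure (by simp)
      obtain ⟨c, hc⟩ := hdvd
      have hpos : 0 < Nat.card (Subgroup.closure ((insert a T : Finset G) : Set G)) := Nat.card_pos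
      have hc2 : 2 ≤ c := by
        by_contra hcc
        have : c = 0 ∨ c = 1 := by omega
        rcases this with h3 | h3
        · rw [h3, mul_zero] at hc; omega
        · rw [h3, mul_one] at hc; exact hne hc.symm
      rw [card_insert_of_notMem haT, pow_succ, hc]
      exact Nat.mul_le_mul h1 hc2
  have h1 := key S (Finset.Subset.refl S)
  rw [hS.1] at h1
  simpa using h1

/-- the support of a convolution power -/
lemma card_support_convPow {p : G → ℝ} {S : Finset G} (hp : ∀ g, g ∉ S → p g = 0) (T : ℕ) :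
    ∃ A : Finset G, A.card ≤ S.card ^ T ∧ ∀ g, g ∉ A → convPow p T g = 0 := by
  induction T with
  | zero =>
    refine ⟨{1}, by simp, ?_⟩
    intro g hg
    rw [mem_singleton] at hg
    simp [convPow, hg]
  | succ T ih =>
    obtain ⟨A, hA, hA2⟩ := ih
    refine ⟨(A ×ˢ S).image (fun x => x.1 * x.2), ?_, ?_⟩
    · calc _ ≤ (A ×ˢ S).card := card_image_le
        _ = A.card * S.card := card_product _ _
        _ ≤ S.card ^ T * S.card := Nat.mul_le_mul_right _ hA
        _ = S.card ^ (T + 1) := by rw [pow_succ]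
    · intro g hg
      simp only [convPow, conv]
      apply sum_eq_zero
      intro h _
      by_cases h1 : h ∈ A
      · by_cases h2 : h⁻¹ * g ∈ S
        · exfalso
          apply hg
          rw [mem_image]
          exact ⟨(h, h⁻¹ * g), mem_product.mpr ⟨h1, h2⟩, by simp⟩
        · rw [hp _ h2, mul_zero]
      · rw [hA2 _ h1, zero_mul]

lemma sum_convPow_eq_one {p : G → ℝ} (hp : ∑ g, p g = 1) (T : ℕ) : ∑ g, convPow p T g = 1 := by
  induction T with
  | zero => simp [convPow]
  | succ T ih =>
    simp only [convPow, conv]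
    rw [sum_comm]
    have : ∀ h : G, ∑ g, convPow p T h * p (h⁻¹ * g) = convPow p T h := by
      intro h
      rw [← mul_sum]
      have h1 : ∑ g, p (h⁻¹ * g) = 1 := by
        rw [← hp]
        exact Fintype.sum_equiv (Equiv.mulLeft h⁻¹) _ _ (fun g => rfl)
      rw [h1, mul_one]
    rw [sum_congr rfl fun h _ => this h, ih]

lemma sum_unifOn {S : Finset G} (hS : S.Nonempty) : ∑ g, unifOn S g = 1 := by
  unfold unifOn
  rw [← sum_filter, filter_mem_eq_inter, univ_inter, sum_const, nsmul_eq_mul]
  have : (S.card : ℝ) ≠ 0 := by exact_mod_cast hS.card_pos.ne'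
  field_simp

/-- total variation distance and support -/
lemma tv_support {S : Finset G} (hS : S.Nonempty) (T : ℕ) :
    1 - (S.card : ℝ) ^ T / (Fintype.card G : ℝ) ≤ tv (convPow (unifOn S) T) (unifOn univ) := by
  obtain ⟨A, hA, hA2⟩ := card_support_convPow (p := unifOn S) (S := S)
    (fun g hg => by unfold unifOn; rw [if_neg hg]) T
  have h1 : ∑ g ∈ A, convPow (unifOn S) T g = 1 := by
    rw [← sum_convPow_eq_one (sum_unifOn hS) T]
    apply sum_subset (subset_univ _)
    intro g _ hg
    exact hA2 g hg
  have h2 : ∑ g ∈ A, unifOn (univ : Finset G) g = A.card / (Fintype.card G : ℝ) := by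
    unfold unifOn
    simp only [mem_univ, if_true, card_univ, sum_const, nsmul_eq_mul]
    ring
  have h3 : |∑ g ∈ A, convPow (unifOn S) T g - ∑ g ∈ A, unifOn (univ : Finset G) g| ≤
      tv (convPow (unifOn S) T) (unifOn univ) :=
    le_ciSup (f := fun A : Finset G => |∑ g ∈ A, convPow (unifOn S) T g -
      ∑ g ∈ A, unifOn (univ : Finset G) g|) (Set.finite_range _).bddAbove A
  rw [h1, h2] at h3
  have h4 := le_abs_self (1 - (A.card : ℝ) / (Fintype.card G : ℝ))
  have h5 : (A.card : ℝ) / (Fintype.card G : ℝ) ≤ (S.card : ℝ) ^ T / (Fintype.card G : ℝ) := by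
    apply div_le_div_of_nonneg_right _ (by positivity)
    exact_mod_cast hA
  linarith

/-- the driving measures are uniform on a set with at most `2|Σ| + 1` elements -/
lemma walk_support [Nontrivial G] {p : G → ℝ} (hp : IsMinGenWalk p) :
    ∃ S' : Finset G, S'.Nonempty ∧ p = unifOn S' ∧
      ∃ m : ℕ, 2 ^ m ≤ Nat.card G ∧ S'.card ≤ 2 * m + 1 := by
  obtain ⟨S, hS, h⟩ := hp
  have hc := two_pow_card_le hS
  have hne : S.Nonempty := by
    rw [nonempty_iff_ne_empty]
    rintro rfl
    have h1 := hS.1
    rw [coe_empty, Subgroup.closure_empty] at h1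
    exact bot_ne_top h1
  have h2 : (S ∪ S.image (fun g => g⁻¹)).card ≤ 2 * S.card := by
    calc _ ≤ S.card + (S.image (fun g => g⁻¹)).card := card_union_le _ _
      _ ≤ S.card + S.card := by
        have : (S.image (fun g => g⁻¹)).card ≤ S.card := card_image_le
        omega
      _ = _ := by ring
  rcases h with h | h | h | h
  · exact ⟨_, hne, h, _, hc, by omega⟩
  · refine ⟨_, insert_nonempty _ _, h, _, hc, ?_⟩
    have := card_insert_le (1 : G) S
    omega
  · exact ⟨_, hne.mono subset_union_left, h, _, hc, by omega⟩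
  · refine ⟨_, insert_nonempty _ _, h, _, hc, ?_⟩
    have := card_insert_le (1 : G) (S ∪ S.image (fun g => g⁻¹))
    omega

end general

/-- Every cut-off time sequence is asymptotically at least `n`. -/
lemma entropy_bound {t : ℕ → ℝ} (ht : IsCutoffTime t) {δ : ℝ} (hδ : δ < 1) :
    ∀ᶠ n : ℕ in atTop, δ * n ≤ t n := by
  obtain ⟨p, hp, htpos, -, hcut⟩ := ht
  rcases le_or_gt δ 0 with h0 | h0
  · filter_upwards [htpos] with n h1
    have : δ * (n : ℝ) ≤ 0 := mul_nonpos_of_nonpos_of_nonneg h0 (by positivity)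
    linarith
  set ε := (1 - δ) / 4 with hε
  have hε0 : 0 < ε := by rw [hε]; linarith
  have hε1 : ε < 1 / 4 := by rw [hε]; linarith
  have hδε : δ = 1 - 4 * ε := by rw [hε]; ring
  obtain ⟨hc, -⟩ := hcut ε hε0 (by linarith)
  have e1 : ∀ᶠ n in atTop, tv (convPow (p n) ⌊(1 + ε) * t n⌋₊) (unifOn univ) ≤ 1 / 2 :=
    hc.eventually_le_const (by norm_num)
  have hlogt : Tendsto (fun n : ℕ => Real.log n) atTop atTop :=
    Real.tendsto_log_atTop.comp tendsto_natCast_atTop_atTop
  -- `log(log n)` is small compared with `log n`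
  have e2 : ∀ᶠ n : ℕ in atTop, Real.log (Real.log n) ≤ ε / 2 * Real.log n := by
    have h1 := Real.isLittleO_log_id_atTop.bound (show (0:ℝ) < ε / 2 by positivity)
    have h2 := hlogt.eventually h1
    filter_upwards [h2, hlogt.eventually_ge_atTop 1] with n h2 h3
    have h4 : 0 ≤ Real.log (Real.log n) := Real.log_nonneg h3
    rw [Real.norm_eq_abs, Real.norm_eq_abs, abs_of_nonneg h4, id, abs_of_nonneg (by linarith)] at h2
    exact h2
  have e3 : ∀ᶠ n : ℕ in atTop, 2 * Real.log 4 / ε ≤ Real.log n := hlogt.eventually_ge_atTop _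
  have e4 : ∀ᶠ n : ℕ in atTop, 2 / ε ≤ Real.log n := hlogt.eventually_ge_atTop _
  filter_upwards [e1, e2, e3, e4, hp, htpos, hlogt.eventually_ge_atTop 1, eventually_ge_atTop 2]
    with n e1 e2 e3 e4 hp htn hl hn2
  have hnt : Nontrivial (Fin n) := Fin.nontrivial_iff_two_le.mpr hn2
  obtain ⟨S', hne, hS', m, hm, hcard⟩ := walk_support hp
  have hn2R : (2 : ℝ) ≤ n := by exact_mod_cast hn2
  have hn0 : (0 : ℝ) < n := by linarith
  have hfac : Nat.card (Equiv.Perm (Fin n)) = n.factorial := by
    rw [Nat.card_eq_fintype_card, Fintype.card_perm, Fintype.card_fin]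
  have hfpos : (0 : ℝ) < (n.factorial : ℝ) := by positivity
  set T := ⌊(1 + ε) * t n⌋₊ with hT
  have hTle : (T : ℝ) ≤ (1 + ε) * t n := Nat.floor_le (by positivity)
  have h1 := tv_support hne T
  rw [← hS'] at h1
  have h2 : (1 : ℝ) / 2 ≤ (S'.card : ℝ) ^ T / (n.factorial : ℝ) := by
    have h3 : (Fintype.card (Equiv.Perm (Fin n)) : ℝ) = (n.factorial : ℝ) := by
      rw [Fintype.card_perm, Fintype.card_fin]
    rw [h3] at h1
    linarith
  rw [le_div_iff₀ hfpos] at h2
  have hSpos : (0 : ℝ) < S'.card := by exact_mod_cast hne.card_pos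
  -- take logarithms
  have h3 : Real.log (1 / 2 * (n.factorial : ℝ)) ≤ T * Real.log S'.card := by
    rw [← Real.log_pow]
    exact Real.log_le_log (by positivity) h2
  rw [Real.log_mul (by norm_num) hfpos.ne', one_div, Real.log_inv] at h3
  have h4 : n * Real.log n - n ≤ Real.log (n.factorial : ℝ) := by
    have h5 := Real.pow_div_factorial_le_exp (n : ℝ) hn0.le n
    rw [div_le_iff₀ hfpos] at h5
    have h6 := Real.log_le_log (by positivity) h5
    rw [Real.log_pow, Real.log_mul (Real.exp_pos _).ne' hfpos.ne', Real.log_exp] at h6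
    linarith
  have h5 : Real.log S'.card ≤ (1 + ε) * Real.log n := by
    have h6 : (2 : ℝ) ^ m ≤ (n : ℝ) ^ n := by
      rw [hfac] at hm
      exact_mod_cast hm.trans (Nat.factorial_le_pow n)
    have h7 := Real.log_le_log (by positivity) h6
    rw [Real.log_pow, Real.log_pow] at h7
    have hlog2 := Real.log_two_gt_d9
    have h8 : (m : ℝ) ≤ 3 / 2 * (n * Real.log n) := by
      have h9 : (m : ℝ) * (2 / 3) ≤ m * Real.log 2 :=
        mul_le_mul_of_nonneg_left (by linarith) (by positivity)
      linarith
    have h9 : (S'.card : ℝ) ≤ 4 * (n * Real.log n) := by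
      have h10 : (S'.card : ℝ) ≤ 2 * m + 1 := by exact_mod_cast hcard
      have h11 : (2 : ℝ) ≤ n * Real.log n := by nlinarith
      linarith
    have h10 := Real.log_le_log hSpos h9
    rw [Real.log_mul (by norm_num) (by positivity), Real.log_mul hn0.ne' (by positivity)] at h10
    have h11 : Real.log 4 ≤ ε / 2 * Real.log n := by
      rw [div_le_iff₀ hε0] at e3
      linarith
    linarith
  have hlog2 : Real.log 2 ≤ 1 := by
    have := Real.log_two_lt_d9
    linarith
  have h6 : (1 - ε) * (n * Real.log n) ≤ T * Real.log S'.card := by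
    rw [div_le_iff₀ hε0] at e4
    have h7 : 2 * (n : ℝ) ≤ ε * (n * Real.log n) := by nlinarith
    linarith
  have h7 : (T : ℝ) * Real.log S'.card ≤ ((1 + ε) * t n) * ((1 + ε) * Real.log n) := by
    have h8 : 0 ≤ Real.log S'.card := Real.log_nonneg (by exact_mod_cast hne.card_pos)
    exact mul_le_mul hTle h5 h8 (by positivity)
  have h8 : (1 - ε) * n ≤ (1 + ε) ^ 2 * t n := by
    have h9 : ((1 - ε) * n) * Real.log n ≤ ((1 + ε) ^ 2 * t n) * Real.log n := by
      calc _ = (1 - ε) * (n * Real.log n) := by ring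
        _ ≤ _ := h6.trans h7
        _ = _ := by ring
    exact le_of_mul_le_mul_right h9 (by linarith)
  have h9 : δ * (1 + ε) ^ 2 ≤ 1 - ε := by
    rw [hδε]
    nlinarith [mul_pos hε0 hε0, mul_pos hε0 (mul_pos hε0 hε0)]
  have h10 : δ * (1 + ε) ^ 2 * n ≤ (1 + ε) ^ 2 * t n :=
    (mul_le_mul_of_nonneg_right h9 hn0.le).trans h8
  have h11 : (1 + ε) ^ 2 * (δ * n) ≤ (1 + ε) ^ 2 * t n := by
    calc _ = δ * (1 + ε) ^ 2 * n := by ring
      _ ≤ _ := h10
  exact le_of_mul_le_mul_left h11 (by positivity)

end Pool.Agent.H79.Cut
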