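import Mathlib
import Pool.Agent.H79.CutLower

/-!
# Second moment of a linear statistic of the broom walk
-/

namespace Pool.Agent.H79.Cut

open Equiv Finset

variable {n k : ℕ} [NeZero n]

/-- The inner product of two functions of a position. -/
def ip (f g : Fin n → ℝ) : ℝ := ∑ x, f x * g x

/-- The operator of a single card. -/
noncomputable def Pc (n k : ℕ) [NeZero n] (f : Fin n → ℝ) : Fin n → ℝ :=
  fun x => (∑ i, f (gl n k i x)) / n

/-- A linear statistic of the permutation. -/
def FF (a b : Fin n → ℝ) (σ : Perm (Fin n)) : ℝ := ∑ x, a (σ x) * b x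

omit [NeZero n] in
lemma sum_swap_sub {A b : Fin n → ℝ} (i j : Fin n) :
    ∑ y, A y * (b (swap i j y) - b y) = -((A i - A j) * (b i - b j)) := by
  by_cases hij : i = j
  · subst hij
    simp
  · rw [Fintype.sum_eq_add i j hij]
    · rw [swap_apply_left, swap_apply_right]; ring
    · rintro y ⟨h1, h2⟩
      rw [swap_apply_of_ne_of_ne h1 h2]; ring

omit [NeZero n] in
lemma sum_swap_sq {A b : Fin n → ℝ} (i j : Fin n) :
    ∑ y, A y * (b (swap i j y) - b y) ^ 2 = (A i + A j) * (b i - b j) ^ 2 := by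
  by_cases hij : i = j
  · subst hij
    simp
  · rw [Fintype.sum_eq_add i j hij]
    · rw [swap_apply_left, swap_apply_right]; ring
    · rintro y ⟨h1, h2⟩
      rw [swap_apply_of_ne_of_ne h1 h2]; ring

lemma FF_mul_gl (a b : Fin n → ℝ) (σ : Perm (Fin n)) (i : Fin n) :
    FF a b (σ * gl n k i) = ∑ y, a (σ y) * b (gl n k i y) := by
  unfold FF
  refine Fintype.sum_equiv (gl n k i) _ _ ?_
  intro x
  have h1 : gl n k i (gl n k i x) = x := by
    rw [← Perm.mul_apply, gl_sq]; rfl
  rw [Perm.mul_apply, h1]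

/-- the increment of the statistic along the edge `i` -/
def DD (n k : ℕ) [NeZero n] (a b : Fin n → ℝ) (σ : Perm (Fin n)) (i : Fin n) : ℝ :=
  (a (σ i) - a (σ (par n k i))) * (b i - b (par n k i))

lemma FF_step (a b : Fin n → ℝ) (σ : Perm (Fin n)) (i : Fin n) :
    FF a b (σ * gl n k i) = FF a b σ - DD n k a b σ i := by
  have h := sum_swap_sub (A := fun y => a (σ y)) (b := b) i (par n k i)
  have h2 : ∑ y, a (σ y) * (b (swap i (par n k i) y) - b y) =
      ∑ y, a (σ y) * b (gl n k i y) - ∑ y, a (σ y) * b y := by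
    rw [← sum_sub_distrib]
    apply sum_congr rfl
    intro y _
    unfold gl
    ring
  rw [FF_mul_gl]
  unfold DD FF
  rw [h2] at h
  linarith

lemma K_FF (a b : Fin n → ℝ) (σ : Perm (Fin n)) :
    K n k (FF a b) σ = FF a (Pc n k b) σ := by
  unfold K
  simp only [FF_mul_gl]
  rw [sum_comm]
  unfold FF Pc
  rw [sum_div]
  apply sum_congr rfl
  intro y _
  rw [← mul_sum]
  ring

lemma FF_Pc (a b : Fin n → ℝ) (σ : Perm (Fin n)) :
    FF a (Pc n k b) σ = FF a b σ - (∑ i, DD n k a b σ i) / n := by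
  rw [← K_FF]
  unfold K
  simp only [FF_step]
  rw [sum_sub_distrib]
  simp only [sum_const, card_univ, Fintype.card_fin, nsmul_eq_mul]
  have := (npos (n := n)).ne'
  field_simp

/-- the carre du champ -/
noncomputable def Gam (n k : ℕ) [NeZero n] (b : Fin n → ℝ) : Fin n → ℝ :=
  fun x => (∑ i, (b (gl n k i x) - b x) ^ 2) / n

lemma FF_Gam (a b : Fin n → ℝ) (σ : Perm (Fin n)) :
    FF a (Gam n k b) σ =
      (∑ i, (a (σ i) + a (σ (par n k i))) * (b i - b (par n k i)) ^ 2) / n := by
  unfold FF Gam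
  have h1 : ∀ x : Fin n, a (σ x) * ((∑ i, (b (gl n k i x) - b x) ^ 2) / n) =
      (∑ i, a (σ x) * (b (gl n k i x) - b x) ^ 2) / n := by
    intro x
    rw [← mul_sum]; ring
  rw [sum_congr rfl fun x _ => h1 x, ← sum_div, sum_comm]
  congr 1
  apply sum_congr rfl
  intro i _
  exact sum_swap_sq (A := fun y => a (σ y)) (b := b) i (par n k i)

lemma K_sq_le {a : Fin n → ℝ} (ha0 : ∀ x, 0 ≤ a x) (ha1 : ∀ x, a x ≤ 1) (b : Fin n → ℝ)
    (σ : Perm (Fin n)) :
    K n k (fun τ => FF a b τ ^ 2) σ ≤ FF a (Pc n k b) σ ^ 2 + FF a (Gam n k b) σ := by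
  have hn : (0 : ℝ) < n := npos
  rw [FF_Gam, FF_Pc]
  unfold K
  simp only [FF_step]
  set X := FF a b σ with hX
  set S := ∑ i, DD n k a b σ i with hS
  have h1 : ∑ i, (X - DD n k a b σ i) ^ 2 = n * X ^ 2 - 2 * X * S + ∑ i, DD n k a b σ i ^ 2 := by
    have h2 : ∀ i : Fin n, (X - DD n k a b σ i) ^ 2 =
        X ^ 2 - 2 * X * DD n k a b σ i + DD n k a b σ i ^ 2 := by
      intro i; ring
    rw [sum_congr rfl fun i _ => h2 i, sum_add_distrib, sum_sub_distrib, ← mul_sum, ← hS]
    simp only [sum_const, card_univ, Fintype.card_fin, nsmul_eq_mul]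
  have h3 : ∑ i, DD n k a b σ i ^ 2 ≤
      ∑ i, (a (σ i) + a (σ (par n k i))) * (b i - b (par n k i)) ^ 2 := by
    apply sum_le_sum
    intro i _
    unfold DD
    rw [mul_pow]
    apply mul_le_mul_of_nonneg_right _ (sq_nonneg _)
    have e1 := ha0 (σ i)
    have e2 := ha1 (σ i)
    have e3 := ha0 (σ (par n k i))
    have e4 := ha1 (σ (par n k i))
    nlinarith
  rw [h1]
  have h4 : (n * X ^ 2 - 2 * X * S + ∑ i, DD n k a b σ i ^ 2) / n =
      X ^ 2 - 2 * X * (S / n) + (∑ i, DD n k a b σ i ^ 2) / n := by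
    field_simp
  rw [h4]
  have h5 : (∑ i, DD n k a b σ i ^ 2) / n ≤
      (∑ i, (a (σ i) + a (σ (par n k i))) * (b i - b (par n k i)) ^ 2) / n :=
    div_le_div_of_nonneg_right h3 hn.le
  nlinarith [sq_nonneg (S / (n : ℝ))]

lemma Pc_apply (f : Fin n → ℝ) (x : Fin n) : Pc n k f x = (∑ i, f (gl n k i x)) / n := rfl

lemma Gam_eq (b : Fin n → ℝ) (x : Fin n) :
    Gam n k b x = Pc n k (fun y => b y ^ 2) x - (Pc n k b x) ^ 2 + (Pc n k b x - b x) ^ 2 := by
  have hn : (0 : ℝ) < n := npos
  unfold Gam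
  rw [Pc_apply, Pc_apply]
  have h2 : ∀ i : Fin n, (b (gl n k i x) - b x) ^ 2 =
      b (gl n k i x) ^ 2 - 2 * b x * b (gl n k i x) + b x ^ 2 := by
    intro i; ring
  rw [sum_congr rfl fun i _ => h2 i, sum_add_distrib, sum_sub_distrib, ← mul_sum]
  simp only [sum_const, card_univ, Fintype.card_fin, nsmul_eq_mul]
  field_simp
  ring

lemma Pc_mono {f g : Fin n → ℝ} (h : ∀ x, f x ≤ g x) (x : Fin n) : Pc n k f x ≤ Pc n k g x := by
  unfold Pc
  exact div_le_div_of_nonneg_right (sum_le_sum fun i _ => h _) npos.le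

lemma Pc_iter_mono {f g : Fin n → ℝ} (h : ∀ x, f x ≤ g x) (t : ℕ) :
    ∀ x, (Pc n k)^[t] f x ≤ (Pc n k)^[t] g x := by
  induction t with
  | zero => exact h
  | succ t ih =>
    intro x
    rw [Function.iterate_succ_apply', Function.iterate_succ_apply']
    exact Pc_mono ih x

lemma Pc_const (c : ℝ) : Pc n k (fun _ => c) = fun _ => c := by
  funext x
  unfold Pc
  have := (npos (n := n)).ne'
  simp only [sum_const, card_univ, Fintype.card_fin, nsmul_eq_mul]
  field_simp

lemma Pc_lin (c d : ℝ) (f g : Fin n → ℝ) :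
    Pc n k (fun x => c * f x + d * g x) = fun x => c * Pc n k f x + d * Pc n k g x := by
  funext x
  unfold Pc
  rw [sum_add_distrib, ← mul_sum, ← mul_sum]
  ring

lemma Pc_iter_const (c : ℝ) (t : ℕ) : (Pc n k)^[t] (fun _ => c) = fun _ => c := by
  induction t with
  | zero => rfl
  | succ t ih => rw [Function.iterate_succ_apply', ih, Pc_const]

lemma Pc_iter_lin (c d : ℝ) (f g : Fin n → ℝ) (t : ℕ) :
    (Pc n k)^[t] (fun x => c * f x + d * g x) =
      fun x => c * (Pc n k)^[t] f x + d * (Pc n k)^[t] g x := by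
  induction t with
  | zero => rfl
  | succ t ih =>
    rw [Function.iterate_succ_apply', Function.iterate_succ_apply', Function.iterate_succ_apply',
      ih, Pc_lin]

omit [NeZero n] in
lemma FF_lin (a : Fin n → ℝ) (c d : ℝ) (f g : Fin n → ℝ) (σ : Perm (Fin n)) :
    FF a (fun x => c * f x + d * g x) σ = c * FF a f σ + d * FF a g σ := by
  unfold FF
  rw [mul_sum, mul_sum, ← sum_add_distrib]
  apply sum_congr rfl; intro x _; ring

lemma K_mono {f g : Perm (Fin n) → ℝ} (h : ∀ σ, f σ ≤ g σ) (σ : Perm (Fin n)) :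
    K n k f σ ≤ K n k g σ := by
  unfold K
  exact div_le_div_of_nonneg_right (sum_le_sum fun i _ => h _) npos.le

lemma K_iter_mono {f g : Perm (Fin n) → ℝ} (h : ∀ σ, f σ ≤ g σ) (t : ℕ) :
    ∀ σ, (K n k)^[t] f σ ≤ (K n k)^[t] g σ := by
  induction t with
  | zero => exact h
  | succ t ih =>
    intro σ
    rw [Function.iterate_succ_apply', Function.iterate_succ_apply']
    exact K_mono ih σ

lemma K_lin (c d : ℝ) (f g : Perm (Fin n) → ℝ) :
    K n k (fun σ => c * f σ + d * g σ) = fun σ => c * K n k f σ + d * K n k g σ := by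
  funext σ
  unfold K
  rw [sum_add_distrib, ← mul_sum, ← mul_sum]
  ring

lemma K_iter_lin (c d : ℝ) (f g : Perm (Fin n) → ℝ) (t : ℕ) :
    (K n k)^[t] (fun σ => c * f σ + d * g σ) =
      fun σ => c * (K n k)^[t] f σ + d * (K n k)^[t] g σ := by
  induction t with
  | zero => rfl
  | succ t ih =>
    rw [Function.iterate_succ_apply', Function.iterate_succ_apply', Function.iterate_succ_apply',
      ih, K_lin]

lemma K_const (c : ℝ) : K n k (fun _ => c) = fun _ => c := by
  funext σ
  unfold K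
  have := (npos (n := n)).ne'
  simp only [sum_const, card_univ, Fintype.card_fin, nsmul_eq_mul]
  field_simp

lemma K_iter_const (c : ℝ) (t : ℕ) : (K n k)^[t] (fun _ => c) = fun _ => c := by
  induction t with
  | zero => rfl
  | succ t ih => rw [Function.iterate_succ_apply', ih, K_const]

lemma K_iter_FF (a b : Fin n → ℝ) (t : ℕ) :
    (K n k)^[t] (FF a b) = FF a ((Pc n k)^[t] b) := by
  induction t generalizing b with
  | zero => rfl
  | succ t ih =>
    rw [Function.iterate_succ_apply, Function.iterate_succ_apply, ← ih]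
    congr 1
    funext σ
    exact K_FF a b σ

/-- the accumulated remainder -/
noncomputable def Rm (n k : ℕ) [NeZero n] : ℕ → (Fin n → ℝ) → Fin n → ℝ
  | 0, _ => fun _ => 0
  | t + 1, b => fun x => (Pc n k)^[t] (fun y => (Pc n k b y - b y) ^ 2) x + Rm n k t (Pc n k b) x

lemma K_iter_sq_le {a : Fin n → ℝ} (ha0 : ∀ x, 0 ≤ a x) (ha1 : ∀ x, a x ≤ 1) (t : ℕ) :
    ∀ (b : Fin n → ℝ) (σ : Perm (Fin n)),
    (K n k)^[t] (fun τ => FF a b τ ^ 2) σ ≤ FF a ((Pc n k)^[t] b) σ ^ 2 +
      FF a (fun x => (Pc n k)^[t] (fun y => b y ^ 2) x - ((Pc n k)^[t] b x) ^ 2 +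
        Rm n k t b x) σ := by
  induction t with
  | zero =>
    intro b σ
    simp only [Function.iterate_zero, id_eq, Rm, sub_self, add_zero]
    have : FF a (fun _ : Fin n => (0:ℝ)) σ = 0 := by simp [FF]
    rw [this, add_zero]
  | succ t ih =>
    intro b σ
    rw [Function.iterate_succ_apply]
    have h1 : ∀ τ, K n k (fun τ => FF a b τ ^ 2) τ ≤
        1 * (fun τ => FF a (Pc n k b) τ ^ 2) τ + 1 * FF a (Gam n k b) τ := by
      intro τ
      simp only [one_mul]
      exact K_sq_le ha0 ha1 b τ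
    refine (K_iter_mono h1 t σ).trans ?_
    rw [K_iter_lin, K_iter_FF]
    simp only [one_mul]
    have h2 := ih (Pc n k b) σ
    have e1 : (Pc n k)^[t + 1] b = (Pc n k)^[t] (Pc n k b) := Function.iterate_succ_apply _ _ _
    rw [e1]
    have h3 : FF a ((Pc n k)^[t] (Gam n k b)) σ +
        FF a (fun x => (Pc n k)^[t] (fun y => Pc n k b y ^ 2) x -
          ((Pc n k)^[t] (Pc n k b) x) ^ 2 + Rm n k t (Pc n k b) x) σ =
        FF a (fun x => (Pc n k)^[t + 1] (fun y => b y ^ 2) x -
          ((Pc n k)^[t] (Pc n k b) x) ^ 2 + Rm n k (t + 1) b x) σ := by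
      have e2 : (Pc n k)^[t] (Gam n k b) = fun x => 1 * (Pc n k)^[t] (fun z =>
          1 * Pc n k (fun y => b y ^ 2) z + (-1) * (fun y => (Pc n k b y) ^ 2) z) x +
          1 * (Pc n k)^[t] (fun y => (Pc n k b y - b y) ^ 2) x := by
        rw [← Pc_iter_lin]
        congr 1
        funext x
        rw [Gam_eq]
        ring
      rw [e2, Pc_iter_lin]
      unfold FF
      rw [← sum_add_distrib]
      apply sum_congr rfl
      intro x _
      simp only [Rm]
      rw [Function.iterate_succ_apply]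
      ring
    linarith

/-! ### self-adjointness and positivity -/

omit [NeZero n] in
lemma ip_comm (f g : Fin n → ℝ) : ip f g = ip g f := by
  unfold ip
  apply sum_congr rfl; intro x _; ring

omit [NeZero n] in
lemma ip_lin (a : Fin n → ℝ) (c d : ℝ) (f g : Fin n → ℝ) :
    ip a (fun x => c * f x + d * g x) = c * ip a f + d * ip a g := by
  unfold ip
  rw [mul_sum, mul_sum, ← sum_add_distrib]
  apply sum_congr rfl; intro x _; ring

omit [NeZero n] in
lemma ip_mono {a f g : Fin n → ℝ} (ha : ∀ x, 0 ≤ a x) (h : ∀ x, f x ≤ g x) :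
    ip a f ≤ ip a g := by
  unfold ip
  exact sum_le_sum fun x _ => mul_le_mul_of_nonneg_left (h x) (ha x)

omit [NeZero n] in
lemma FF_one (a b : Fin n → ℝ) : FF a b 1 = ip a b := rfl

lemma ip_Pc (f g : Fin n → ℝ) : ip f (Pc n k g) = ip (Pc n k f) g := by
  have h1 : ∀ f g : Fin n → ℝ, ip f (Pc n k g) = (∑ i, ∑ x, f x * g (gl n k i x)) / n := by
    intro f g
    unfold ip Pc
    rw [sum_comm, sum_div]
    apply sum_congr rfl
    intro x _
    rw [← mul_sum]; ring
  rw [h1, ip_comm (Pc n k f), h1]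
  congr 1
  apply sum_congr rfl
  intro i _
  refine Fintype.sum_equiv (gl n k i) _ _ ?_
  intro x
  have h1 : gl n k i (gl n k i x) = x := by
    rw [← Perm.mul_apply, gl_sq]; rfl
  rw [h1]; ring

lemma ip_Pc_iter (f g : Fin n → ℝ) (t : ℕ) :
    ip f ((Pc n k)^[t] g) = ip ((Pc n k)^[t] f) g := by
  induction t generalizing f with
  | zero => rfl
  | succ t ih =>
    rw [Function.iterate_succ_apply', ip_Pc, ih, Function.iterate_succ_apply]

/-- the Dirichlet form -/
lemma ip_sub_Pc (f : Fin n → ℝ) :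
    ip f f - ip f (Pc n k f) = (∑ i, (f i - f (par n k i)) ^ 2) / n := by
  have h1 := FF_Pc (k := k) f f 1
  rw [FF_one, FF_one] at h1
  rw [h1]
  unfold DD
  simp only [Perm.coe_one, id_eq]
  rw [sub_sub_cancel]
  congr 1
  apply sum_congr rfl; intro i _; ring

/-- the operator is positive -/
lemma ip_Pc_self_nonneg (f : Fin n → ℝ) : 0 ≤ ip f (Pc n k f) := by
  have hn : (0 : ℝ) < n := npos
  have h1 := ip_sub_Pc (k := k) f
  have h2 : ∑ i, (f i - f (par n k i)) ^ 2 ≤ n * ip f f := by
    have h3 : ∀ i : Fin n, (f i - f (par n k i)) ^ 2 ≤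
        ∑ j : Fin n, if j < i then (f i - f j) ^ 2 else 0 := by
      intro i
      by_cases hi : par n k i < i
      · calc (f i - f (par n k i)) ^ 2 =
              (fun j => if j < i then (f i - f j) ^ 2 else 0) (par n k i) := by
                exact (if_pos hi).symm
          _ ≤ _ := by
              apply single_le_sum (f := fun j => if j < i then (f i - f j) ^ 2 else 0)
              · intro j _
                split_ifs
                · positivity
                · exact le_rfl
              · exact mem_univ _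
      · have h4 : par n k i = i := by
          have h5 : ¬ ((par n k i : Fin n) : ℕ) < (i : ℕ) := hi
          by_cases h6 : (i : ℕ) + k < n
          · rw [par_of_lt h6] at h5 ⊢
            simp only [Fin.val_zero, not_lt, nonpos_iff_eq_zero] at h5
            exact Fin.ext h5.symm
          · rw [par_of_ge (by omega)] at h5
            apply Fin.ext
            rw [par_of_ge (by omega)]
            omega
        rw [h4, sub_self]
        apply le_trans (by norm_num : (0:ℝ) ^ 2 ≤ 0)
        apply sum_nonneg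
        intro j _
        split_ifs
        · positivity
        · exact le_rfl
    have h4 : ∑ i : Fin n, ∑ j : Fin n, (if j < i then (f i - f j) ^ 2 else 0) =
        ∑ i : Fin n, ∑ j : Fin n, (if i < j then (f i - f j) ^ 2 else 0) := by
      rw [sum_comm]
      apply sum_congr rfl; intro i _
      apply sum_congr rfl; intro j _
      split_ifs
      · ring
      · rfl
    have h5 : ∑ i : Fin n, ∑ j : Fin n, (if j < i then (f i - f j) ^ 2 else 0) +
        ∑ i : Fin n, ∑ j : Fin n, (if i < j then (f i - f j) ^ 2 else 0) =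
        ∑ i : Fin n, ∑ j : Fin n, (f i - f j) ^ 2 := by
      rw [← sum_add_distrib]
      apply sum_congr rfl; intro i _
      rw [← sum_add_distrib]
      apply sum_congr rfl; intro j _
      rcases lt_trichotomy i j with h | h | h
      · rw [if_neg (not_lt.mpr h.le), if_pos h]; ring
      · subst h; simp
      · rw [if_pos h, if_neg (not_lt.mpr h.le)]; ring
    have h6 : ∑ i : Fin n, ∑ j : Fin n, (f i - f j) ^ 2 = 2 * (n * ip f f) - 2 * (∑ i, f i) ^ 2 := by
      have h7 : ∀ i j : Fin n, (f i - f j) ^ 2 = (f i * f i) + f j * f j - 2 * (f i * f j) := by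
        intro i j; ring
      simp only [h7, sum_add_distrib, sum_sub_distrib, sum_const, card_univ, Fintype.card_fin,
        nsmul_eq_mul, ← mul_sum, ← sum_mul]
      unfold ip
      ring
    have h8 := sum_le_sum fun (i : Fin n) (_ : i ∈ univ) => h3 i
    nlinarith [sq_nonneg (∑ i, f i)]
  have h3 : (∑ i, (f i - f (par n k i)) ^ 2) / n ≤ ip f f := by
    rw [div_le_iff₀ hn]; linarith
  linarith

/-- log-convexity -/
lemma ip_iter_sq (h : Fin n → ℝ) (t : ℕ) :
    (ip h ((Pc n k)^[t + 1] h)) ^ 2 ≤ ip h ((Pc n k)^[t] h) * ip h ((Pc n k)^[t + 2] h) := by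
  have hsh : ∀ i j : ℕ, ip ((Pc n k)^[i] h) ((Pc n k)^[j] h) = ip h ((Pc n k)^[i + j] h) := by
    intro i j
    rw [← ip_Pc_iter, ← Function.iterate_add_apply]
  rcases Nat.even_or_odd' t with ⟨m, rfl | rfl⟩
  · have h1 := sum_mul_sq_le_sq_mul_sq univ ((Pc n k)^[m] h) ((Pc n k)^[m + 1] h)
    have e1 : ∑ x, (Pc n k)^[m] h x * (Pc n k)^[m + 1] h x = ip h ((Pc n k)^[2 * m + 1] h) := by
      have := hsh m (m + 1)
      rw [show m + (m + 1) = 2 * m + 1 by ring] at this
      exact this
    have e2 : ∑ x, (Pc n k)^[m] h x ^ 2 = ip h ((Pc n k)^[2 * m] h) := by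
      have := hsh m m
      rw [show m + m = 2 * m by ring] at this
      rw [← this]
      unfold ip
      apply sum_congr rfl; intro x _; ring
    have e3 : ∑ x, (Pc n k)^[m + 1] h x ^ 2 = ip h ((Pc n k)^[2 * m + 2] h) := by
      have := hsh (m + 1) (m + 1)
      rw [show m + 1 + (m + 1) = 2 * m + 2 by ring] at this
      rw [← this]
      unfold ip
      apply sum_congr rfl; intro x _; ring
    rw [e1, e2, e3] at h1
    exact h1
  · -- the positive form
    set u := (Pc n k)^[m] h with hu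
    set v := (Pc n k)^[m + 1] h with hv
    have b1 : ip u (Pc n k u) = ip h ((Pc n k)^[2 * m + 1] h) := by
      have := hsh m (m + 1)
      rw [show m + (m + 1) = 2 * m + 1 by ring] at this
      rw [← this, hu, ← Function.iterate_succ_apply' (Pc n k) m h]
    have b2 : ip u (Pc n k v) = ip h ((Pc n k)^[2 * m + 1 + 1] h) := by
      have := hsh m (m + 2)
      rw [show m + (m + 2) = 2 * m + 1 + 1 by ring] at this
      rw [← this, hu, hv, ← Function.iterate_succ_apply' (Pc n k) (m + 1) h]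
    have b3 : ip v (Pc n k v) = ip h ((Pc n k)^[2 * m + 1 + 2] h) := by
      have := hsh (m + 1) (m + 2)
      rw [show m + 1 + (m + 2) = 2 * m + 1 + 2 by ring] at this
      rw [← this, hv, ← Function.iterate_succ_apply' (Pc n k) (m + 1) h]
    have b4 : ip v (Pc n k u) = ip u (Pc n k v) := by
      rw [ip_Pc, ip_comm]
    rw [← b1, ← b2, ← b3]
    have hq : ∀ x : ℝ, 0 ≤ ip v (Pc n k v) * (x * x) + (2 * ip u (Pc n k v)) * x +
        ip u (Pc n k u) := by
      intro x
      have h1 := ip_Pc_self_nonneg (k := k) (fun y => 1 * u y + x * v y)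
      rw [Pc_lin, ip_lin, ip_comm _ (Pc n k u), ip_comm _ (Pc n k v), ip_lin, ip_lin,
        ip_comm _ u, ip_comm _ v, ip_comm _ u, ip_comm _ v, b4] at h1
      linarith
    have h2 := discrim_le_zero hq
    unfold discrim at h2
    nlinarith

end Pool.Agent.H79.Cut
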