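import Mathlib
import Pool.Agent.H79.CutLower2A
import Pool.Agent.H79.CutLink

/-!
# The linear statistic of the tail: an explicit lower bound for the total variation distance
-/

namespace Pool.Agent.H79.Cut

open Equiv Finset

variable {n k : ℕ} [NeZero n]

/-- the angle -/
noncomputable def th (k : ℕ) : ℝ := Real.pi / (2 * k + 3)

/-- the rate -/
noncomputable def la (n k : ℕ) : ℝ := (2 - 2 * Real.cos (th k)) / n

/-- the indicator of the hub -/
def hub (n : ℕ) [NeZero n] : Fin n → ℝ := fun x => if x = 0 then 1 else 0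

omit [NeZero n] in
lemma gs_of_lt {x : Fin n} (hx : ¬ n ≤ (x : ℕ) + k + 1) : gs n k x = 0 := by
  unfold gs; rw [if_neg hx]

lemma Pc_gs (hk : 1 ≤ k) (hn : k + 2 ≤ n) (x : Fin n) :
    Pc n k (gs n k) x = (1 - la n k) * gs n k x + Real.sin (th k) / n * hub n x := by
  have hnp : (0 : ℝ) < n := npos
  have key : ∑ i, (gs n k (gl n k i x) - gs n k x) =
      -(2 - 2 * Real.cos (th k)) * gs n k x + Real.sin (th k) * hub n x := by
    by_cases hx : n ≤ (x : ℕ) + k + 1
    · have hx0 : x ≠ 0 := by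
        rintro rfl
        simp only [Fin.val_zero] at hx
        omega
      unfold hub
      rw [if_neg hx0, mul_zero, add_zero]
      exact gs_gen hk hn hx
    · rw [gs_of_lt hx, mul_zero, zero_add]
      by_cases hx0 : x = 0
      · subst hx0
        unfold hub
        rw [if_pos rfl, mul_one]
        rw [sum_eq_single (⟨n - k - 1, by omega⟩ : Fin n)]
        · have h1 : par n k (⟨n - k - 1, by omega⟩ : Fin n) = 0 := par_of_lt (by simp only; omega)
          have h2 := gl_apply_par (k := k) (⟨n - k - 1, by omega⟩ : Fin n)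
          rw [h1] at h2
          rw [h2, sub_zero]
          unfold gs
          rw [if_pos (by simp only; omega)]
          congr 1
          simp only
          have h3 : ((n - k - 1 : ℕ) : ℝ) = n - k - 1 := by
            rw [Nat.cast_sub (by omega), Nat.cast_sub (by omega)]; push_cast; ring
          rw [h3]
          unfold th
          ring
        · intro i _ hi
          rw [sub_zero]
          have hi' : (i : ℕ) ≠ n - k - 1 := fun h => hi (Fin.ext h)
          by_cases h1 : (i : ℕ) + k < n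
          · have h2 := gl_apply_par (k := k) i
            rw [par_of_lt h1] at h2
            rw [h2]
            apply gs_of_lt
            omega
          · have h2 := par_of_ge (n := n) (k := k) (i := i) (by omega)
            rw [gl_fix]
            · exact gs_of_lt hx
            · intro e
              have := congrArg Fin.val e
              simp only [Fin.val_zero] at this
              omega
            · intro e
              have := congrArg Fin.val e
              simp only [Fin.val_zero] at this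
              omega
        · intro h; exact absurd (mem_univ _) h
      · have h5 := gen_sum (k := k) (gs n k) x hx0
        rw [dif_neg (by omega), add_zero, par_of_lt (by omega), gs_of_lt hx,
          gs_of_lt (by simp only [Fin.val_zero]; omega)] at h5
        rw [h5]
        unfold hub
        rw [if_neg hx0]
        ring
  rw [sum_sub_distrib] at key
  simp only [sum_const, card_univ, Fintype.card_fin, nsmul_eq_mul] at key
  unfold Pc la
  have h2 : ∑ i, gs n k (gl n k i x) = n * gs n k x +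
      (-(2 - 2 * Real.cos (th k)) * gs n k x + Real.sin (th k) * hub n x) := by linarith
  rw [h2]
  field_simp
  ring

lemma hub_nonneg (x : Fin n) : 0 ≤ hub n x := by unfold hub; split_ifs <;> norm_num

lemma hub_le_one (x : Fin n) : hub n x ≤ 1 := by unfold hub; split_ifs <;> norm_num

lemma iter_bd {f : Fin n → ℝ} (h0 : ∀ x, 0 ≤ f x) (h1 : ∀ x, f x ≤ 1) (t : ℕ) (x : Fin n) :
    0 ≤ (Pc n k)^[t] f x ∧ (Pc n k)^[t] f x ≤ 1 := by
  constructor
  · have := Pc_iter_mono (k := k) (f := fun _ => (0:ℝ)) (g := f) h0 t x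
    rwa [Pc_iter_const] at this
  · have := Pc_iter_mono (k := k) (f := f) (g := fun _ => (1:ℝ)) h1 t x
    rwa [Pc_iter_const] at this

/-- the sum of the statistic -/
noncomputable def Sg (n k : ℕ) [NeZero n] : ℝ := ∑ x : Fin n, gs n k x

omit [NeZero n] in
lemma sum_gs_TT (F : ℝ → ℝ) (hF : F 0 = 0) :
    ∑ x : Fin n, F (gs n k x) = ∑ x ∈ TT n k, F (gs n k x) := by
  unfold TT
  rw [sum_filter]
  apply sum_congr rfl
  intro x _
  split_ifs with hx
  · rfl
  · rw [gs_of_lt hx, hF]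

lemma Sg_ge (hn : k + 2 ≤ n) : ((k : ℝ) + 1) / 2 ≤ Sg n k := by
  unfold Sg
  rw [sum_gs_TT (fun y => y) rfl]
  exact sum_gs_ge hn

lemma Sg_le (hn : k + 2 ≤ n) : Sg n k ≤ (k : ℝ) + 1 := by
  obtain ⟨m, hm⟩ : ∃ m, n = m + k + 1 := ⟨n - k - 1, by omega⟩
  unfold Sg
  rw [sum_gs_TT (fun y => y) rfl]
  calc ∑ x ∈ TT n k, gs n k x ≤ ∑ x ∈ TT n k, (1:ℝ) := sum_le_sum fun x _ => gs_le_one x
    _ = (k : ℝ) + 1 := by
        rw [sum_const, card_TT hm]; simp

lemma gs_sq_le (x : Fin n) : gs n k x ^ 2 ≤ gs n k x := by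
  have h0 := gs_nonneg (k := k) x
  have h1 := gs_le_one (k := k) x
  nlinarith

lemma N2_le (hn : k + 2 ≤ n) : ip (gs n k) (gs n k) ≤ (k : ℝ) + 1 := by
  refine le_trans ?_ (Sg_le hn)
  unfold ip Sg
  apply sum_le_sum
  intro x _
  have := gs_sq_le (k := k) x
  nlinarith

lemma Sg_sq_le (hn : k + 2 ≤ n) : Sg n k ^ 2 ≤ ((k : ℝ) + 1) * ip (gs n k) (gs n k) := by
  obtain ⟨m, hm⟩ : ∃ m, n = m + k + 1 := ⟨n - k - 1, by omega⟩
  have h1 : ip (gs n k) (gs n k) = ∑ x ∈ TT n k, gs n k x ^ 2 := by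
    rw [← sum_gs_TT (fun y => y ^ 2) (by norm_num)]
    unfold ip
    apply sum_congr rfl; intro x _; ring
  unfold Sg
  rw [h1, sum_gs_TT (fun y => y) rfl]
  have h2 := sq_sum_le_card_mul_sum_sq (s := TT n k) (f := fun x => gs n k x)
  rw [card_TT hm] at h2
  push_cast at h2
  exact h2

/-- the mean at time `t` -/
noncomputable def mt (n k : ℕ) [NeZero n] (t : ℕ) : ℝ := ip (gs n k) ((Pc n k)^[t] (gs n k))

lemma ip_hub (f : Fin n → ℝ) : ip f (hub n) = f 0 := by
  unfold ip hub
  simp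

omit [NeZero n] in
lemma la_nonneg : 0 ≤ la n k := by
  unfold la
  have := Real.cos_le_one (th k)
  apply div_nonneg _ (by positivity)
  linarith

/-- the error per step -/
noncomputable def ce (n k : ℕ) : ℝ :=
  2 * la n k ^ 2 * (k + 1) + 2 * (Real.sin (th k) / n) ^ 2

omit [NeZero n] in
lemma ce_nonneg : 0 ≤ ce n k := by unfold ce; positivity

lemma Rm_le (hk : 1 ≤ k) (hn : k + 2 ≤ n) (t : ℕ) : ∀ s : ℕ,
    ip (gs n k) (Rm n k t ((Pc n k)^[s] (gs n k))) ≤ t * ce n k := by
  induction t with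
  | zero =>
    intro s
    simp [Rm, ip]
  | succ t ih =>
    intro s
    have h0 : (fun x => Pc n k (gs n k) x) =
        fun x => (1 - la n k) * gs n k x + Real.sin (th k) / n * hub n x := by
      funext x; exact Pc_gs hk hn x
    have h1 : ∀ x, Pc n k ((Pc n k)^[s] (gs n k)) x - (Pc n k)^[s] (gs n k) x =
        -(la n k) * (Pc n k)^[s] (gs n k) x + Real.sin (th k) / n * (Pc n k)^[s] (hub n) x := by
      intro x
      have e1 : Pc n k ((Pc n k)^[s] (gs n k)) = (Pc n k)^[s] (fun x => Pc n k (gs n k) x) :=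
        (Function.iterate_succ_apply' (Pc n k) s (gs n k)).symm.trans
          (Function.iterate_succ_apply (Pc n k) s (gs n k))
      rw [e1, h0, Pc_iter_lin]
      ring
    have h2 : ∀ x, (Pc n k ((Pc n k)^[s] (gs n k)) x - (Pc n k)^[s] (gs n k) x) ^ 2 ≤
        2 * la n k ^ 2 * (fun _ => (1:ℝ)) x +
          2 * (Real.sin (th k) / n) ^ 2 * (Pc n k)^[s] (hub n) x := by
      intro x
      rw [h1]
      obtain ⟨a0, a1⟩ := iter_bd (k := k) (f := gs n k) gs_nonneg gs_le_one s x
      obtain ⟨b0, b1⟩ := iter_bd (k := k) (f := hub n) hub_nonneg hub_le_one s x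
      set A := (Pc n k)^[s] (gs n k) x
      set B := (Pc n k)^[s] (hub n) x
      set c := Real.sin (th k) / n
      have e1 : (-(la n k) * A + c * B) ^ 2 ≤ 2 * la n k ^ 2 * A ^ 2 + 2 * c ^ 2 * B ^ 2 := by
        nlinarith [sq_nonneg (la n k * A + c * B)]
      have e2 : A ^ 2 ≤ 1 := by nlinarith
      have e3 : B ^ 2 ≤ B := by nlinarith
      have e4 : 2 * la n k ^ 2 * A ^ 2 ≤ 2 * la n k ^ 2 * 1 :=
        mul_le_mul_of_nonneg_left e2 (by positivity)
      have e5 : 2 * c ^ 2 * B ^ 2 ≤ 2 * c ^ 2 * B := mul_le_mul_of_nonneg_left e3 (by positivity)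
      linarith
    have h3 := Pc_iter_mono (k := k) h2 t
    rw [Pc_iter_lin, Pc_iter_const, ← Function.iterate_add_apply] at h3
    have h4 : ip (gs n k) (fun x => (Pc n k)^[t]
        (fun y => (Pc n k ((Pc n k)^[s] (gs n k)) y - (Pc n k)^[s] (gs n k) y) ^ 2) x) ≤
        ce n k := by
      refine (ip_mono gs_nonneg h3).trans ?_
      rw [ip_lin]
      have e1 : ip (gs n k) (fun _ => (1:ℝ)) = Sg n k := by
        unfold ip Sg; simp
      have e2 : ip (gs n k) ((Pc n k)^[t + s] (hub n)) ≤ 1 := by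
        rw [ip_Pc_iter, ip_hub]
        exact (iter_bd (k := k) (f := gs n k) gs_nonneg gs_le_one _ _).2
      have e3 := Sg_le (k := k) hn
      rw [e1]
      unfold ce
      have e4 : 2 * la n k ^ 2 * Sg n k ≤ 2 * la n k ^ 2 * (k + 1) :=
        mul_le_mul_of_nonneg_left e3 (by positivity)
      have e5 : 2 * (Real.sin (th k) / n) ^ 2 * ip (gs n k) ((Pc n k)^[t + s] (hub n)) ≤
          2 * (Real.sin (th k) / n) ^ 2 * 1 :=
        mul_le_mul_of_nonneg_left e2 (by positivity)
      linarith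
    have h5 := ih (s + 1)
    rw [Function.iterate_succ_apply'] at h5
    have h6 : ip (gs n k) (Rm n k (t + 1) ((Pc n k)^[s] (gs n k))) =
        ip (gs n k) (fun x => (Pc n k)^[t]
        (fun y => (Pc n k ((Pc n k)^[s] (gs n k)) y - (Pc n k)^[s] (gs n k) y) ^ 2) x) +
        ip (gs n k) (Rm n k t (Pc n k ((Pc n k)^[s] (gs n k)))) := by
      have := ip_lin (gs n k) 1 1 (fun x => (Pc n k)^[t]
        (fun y => (Pc n k ((Pc n k)^[s] (gs n k)) y - (Pc n k)^[s] (gs n k) y) ^ 2) x)
        (Rm n k t (Pc n k ((Pc n k)^[s] (gs n k))))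
      simp only [one_mul] at this
      rw [← this]
      rfl
    rw [h6]
    push_cast
    linarith

/-- the second moment at time `t` -/
lemma second_moment (hk : 1 ≤ k) (hn : k + 2 ≤ n) (t : ℕ) :
    (K n k)^[t] (fun τ => FF (gs n k) (gs n k) τ ^ 2) 1 ≤
      mt n k t ^ 2 + mt n k t + t * ce n k := by
  have h1 := K_iter_sq_le (k := k) (a := gs n k) gs_nonneg gs_le_one t (gs n k) 1
  refine h1.trans ?_
  rw [FF_one, FF_one]
  have h2 := Rm_le hk hn t 0
  rw [Function.iterate_zero, id_eq] at h2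
  have h3 : ip (gs n k) (fun x => (Pc n k)^[t] (fun y => gs n k y ^ 2) x -
      ((Pc n k)^[t] (gs n k) x) ^ 2 + Rm n k t (gs n k) x) ≤
      ip (gs n k) (fun x => 1 * (Pc n k)^[t] (gs n k) x + 1 * Rm n k t (gs n k) x) := by
    apply ip_mono gs_nonneg
    intro x
    have e1 := Pc_iter_mono (k := k) (f := fun y => gs n k y ^ 2) (g := gs n k) gs_sq_le t x
    have e2 := sq_nonneg ((Pc n k)^[t] (gs n k) x)
    linarith
  rw [ip_lin] at h3
  unfold mt
  linarith

lemma first_moment (t : ℕ) : (K n k)^[t] (FF (gs n k) (gs n k)) 1 = mt n k t := by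
  rw [K_iter_FF, FF_one]; rfl

/-! ### the gap of the means -/

lemma ip_gs_Pc (hk : 1 ≤ k) (hn : k + 2 ≤ n) :
    ip (gs n k) (Pc n k (gs n k)) = (1 - la n k) * ip (gs n k) (gs n k) := by
  have h0 : Pc n k (gs n k) =
      fun x => (1 - la n k) * gs n k x + Real.sin (th k) / n * hub n x := by
    funext x; exact Pc_gs hk hn x
  rw [h0, ip_lin, ip_hub, gs_of_lt (by simp only [Fin.val_zero]; omega)]
  ring

/-- the centred statistic -/
noncomputable def hs (n k : ℕ) [NeZero n] : Fin n → ℝ := fun x => gs n k x - Sg n k / n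

lemma sum_hs : ∑ x : Fin n, hs n k x = 0 := by
  unfold hs
  rw [sum_sub_distrib]
  simp only [sum_const, card_univ, Fintype.card_fin, nsmul_eq_mul]
  have := (npos (n := n)).ne'
  unfold Sg
  field_simp
  simp

lemma ip_hs (t : ℕ) : ip (hs n k) ((Pc n k)^[t] (hs n k)) = mt n k t - Sg n k ^ 2 / n := by
  have hnp := (npos (n := n)).ne'
  have e0 : hs n k = fun x => 1 * gs n k x + (-(Sg n k / n)) * (fun _ => (1:ℝ)) x := by
    funext x; unfold hs; ring
  have e1 : (Pc n k)^[t] (hs n k) = fun x => 1 * (Pc n k)^[t] (gs n k) x +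
      (-(Sg n k / n)) * (fun _ => (1:ℝ)) x := by
    rw [e0, Pc_iter_lin, Pc_iter_const]
  rw [e1, ip_lin]
  have e2 : ip (hs n k) (fun _ => (1:ℝ)) = 0 := by
    unfold ip
    simp only [mul_one]
    exact sum_hs
  rw [e2, ip_comm, e0, ip_lin, ip_comm _ (gs n k)]
  have e3 : ip ((Pc n k)^[t] (gs n k)) (fun _ => (1:ℝ)) = Sg n k := by
    rw [← ip_Pc_iter, Pc_iter_const]
    unfold ip Sg
    simp
  rw [e3]
  unfold mt
  field_simp
  ring

lemma a0_ge (hn : k + 2 ≤ n) :
    (1 - ((k : ℝ) + 1) / n) * ip (gs n k) (gs n k) ≤ ip (hs n k) (hs n k) := by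
  have hnp : (0 : ℝ) < n := npos
  have h1 := ip_hs (n := n) (k := k) 0
  simp only [Function.iterate_zero, id_eq] at h1
  unfold mt at h1
  simp only [Function.iterate_zero, id_eq] at h1
  rw [h1]
  have h2 := Sg_sq_le (n := n) (k := k) hn
  have h3 : Sg n k ^ 2 / n ≤ ((k : ℝ) + 1) * ip (gs n k) (gs n k) / n :=
    div_le_div_of_nonneg_right h2 hnp.le
  have h4 : (1 - ((k : ℝ) + 1) / n) * ip (gs n k) (gs n k) =
      ip (gs n k) (gs n k) - ((k : ℝ) + 1) * ip (gs n k) (gs n k) / n := by ring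
  linarith

/-- the decay of the gap of the means -/
lemma gap_ge (hk : 1 ≤ k) (hn : k + 2 ≤ n) {q : ℝ} (hq : ((k : ℝ) + 1) / n ≤ q) (hq1 : q ≤ 1 / 2)
    (hla : la n k / (1 - q) < 1) (t : ℕ) :
    ((k : ℝ) + 1) / 8 * (1 - la n k / (1 - q)) ^ t ≤ mt n k t - Sg n k ^ 2 / n := by
  have hnp : (0 : ℝ) < n := npos
  set N2 := ip (gs n k) (gs n k) with hN2
  set r := 1 - la n k / (1 - q) with hr
  have hr0 : 0 < r := by rw [hr]; linarith
  have hla0 := la_nonneg (n := n) (k := k)
  have hS := Sg_ge (n := n) (k := k) hn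
  have hS2 := Sg_sq_le (n := n) (k := k) hn
  have hk0 : (0 : ℝ) < (k : ℝ) + 1 := by positivity
  have hN : ((k : ℝ) + 1) / 4 ≤ N2 := by
    have h1 : (((k : ℝ) + 1) / 2) ^ 2 ≤ Sg n k ^ 2 := pow_le_pow_left₀ (by positivity) hS 2
    have h2 : ((k : ℝ) + 1) * (((k : ℝ) + 1) / 4) ≤ ((k : ℝ) + 1) * N2 := by nlinarith
    exact le_of_mul_le_mul_left h2 hk0
  have hN0 : 0 < N2 := by linarith
  have ha0 : (1 - q) * N2 ≤ ip (hs n k) (hs n k) := by
    refine le_trans ?_ (a0_ge hn)
    apply mul_le_mul_of_nonneg_right _ hN0.le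
    linarith
  have ha0' : ((k : ℝ) + 1) / 8 ≤ ip (hs n k) (hs n k) := by nlinarith
  have hstep : ∀ t : ℕ, 0 < ip (hs n k) ((Pc n k)^[t] (hs n k)) ∧
      r * ip (hs n k) ((Pc n k)^[t] (hs n k)) ≤ ip (hs n k) ((Pc n k)^[t + 1] (hs n k)) := by
    intro t
    induction t with
    | zero =>
      simp only [Function.iterate_zero, id_eq, zero_add, Function.iterate_one]
      refine ⟨by linarith, ?_⟩
      have e1 := ip_hs (n := n) (k := k) 1
      have e0 := ip_hs (n := n) (k := k) 0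
      unfold mt at e1 e0
      simp only [Function.iterate_zero, id_eq, Function.iterate_one] at e1 e0
      rw [ip_gs_Pc hk hn, ← hN2] at e1
      rw [← hN2] at e0
      have h3 : la n k * N2 ≤ la n k / (1 - q) * ip (hs n k) (hs n k) := by
        have h4 : la n k / (1 - q) * ((1 - q) * N2) = la n k * N2 := by
          have : 1 - q ≠ 0 := by linarith
          field_simp
        rw [← h4]
        apply mul_le_mul_of_nonneg_left ha0
        apply div_nonneg hla0; linarith
      have h5 : r * ip (hs n k) (hs n k) = ip (hs n k) (hs n k) -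
          la n k / (1 - q) * ip (hs n k) (hs n k) := by rw [hr]; ring
      rw [h5, e1]
      linarith
    | succ t ih =>
      obtain ⟨h1, h2⟩ := ih
      have h3 : 0 < ip (hs n k) ((Pc n k)^[t + 1] (hs n k)) :=
        lt_of_lt_of_le (mul_pos hr0 h1) h2
      refine ⟨h3, ?_⟩
      have h4 := ip_iter_sq (k := k) (hs n k) t
      set x := ip (hs n k) ((Pc n k)^[t] (hs n k))
      set y := ip (hs n k) ((Pc n k)^[t + 1] (hs n k))
      have e : t + 1 + 1 = t + 2 := rfl
      rw [e]
      set z := ip (hs n k) ((Pc n k)^[t + 2] (hs n k))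
      have h5 : x * (r * y) ≤ x * z := by
        calc x * (r * y) = (r * x) * y := by ring
          _ ≤ y * y := mul_le_mul_of_nonneg_right h2 h3.le
          _ = y ^ 2 := by ring
          _ ≤ x * z := h4
      exact le_of_mul_le_mul_left h5 h1
  have hall : ∀ t : ℕ, ((k : ℝ) + 1) / 8 * r ^ t ≤ ip (hs n k) ((Pc n k)^[t] (hs n k)) := by
    intro t
    induction t with
    | zero => simpa using ha0'
    | succ t ih =>
      refine le_trans ?_ (hstep t).2
      calc ((k : ℝ) + 1) / 8 * r ^ (t + 1) = r * (((k : ℝ) + 1) / 8 * r ^ t) := by ring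
        _ ≤ _ := mul_le_mul_of_nonneg_left ih hr0.le
  rw [← ip_hs]
  exact hall t

/-! ### the uniform distribution -/

omit [NeZero n] in
lemma avg_mul_left (U : Finset (Fin n)) (c : ℝ) (h : Perm (Fin n) → ℝ) :
    avg U (fun π => c * h π) = c * avg U h := by
  unfold avg
  rw [← mul_sum]; ring

omit [NeZero n] in
lemma avg_add (U : Finset (Fin n)) (h h' : Perm (Fin n) → ℝ) :
    avg U (fun π => h π + h' π) = avg U h + avg U h' := by
  unfold avg
  rw [sum_add_distrib]; ring

omit [NeZero n] in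
lemma avg_const (c : ℝ) : avg (∅ : Finset (Fin n)) (fun _ => c) = c := by
  rw [avg_empty]
  simp only [sum_const, card_univ, nsmul_eq_mul]
  rw [mul_div_assoc, mul_comm]
  apply div_mul_cancel₀
  positivity

omit [NeZero n] in
lemma avg_empty_right (h : Perm (Fin n) → ℝ) (w : Perm (Fin n)) :
    avg (∅ : Finset (Fin n)) (fun π => h (π * w)) = avg ∅ h := by
  apply avg_right
  rw [mem_Fx]
  intro x hx
  exact absurd hx (notMem_empty x)

lemma avg_sq_apply (h : Fin n → ℝ) (x : Fin n) :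
    avg ∅ (fun σ : Perm (Fin n) => h (σ x) ^ 2) = (∑ y, h y ^ 2) / n := by
  have h1 : ∀ x' : Fin n, avg ∅ (fun σ : Perm (Fin n) => h (σ x') ^ 2) =
      avg ∅ (fun σ : Perm (Fin n) => h (σ x) ^ 2) := by
    intro x'
    rw [← avg_empty_right _ (swap x x')]
    congr 1
    funext σ
    rw [Perm.mul_apply, swap_apply_right]
  have h2 : ∑ x' : Fin n, avg ∅ (fun σ : Perm (Fin n) => h (σ x') ^ 2) = ∑ y, h y ^ 2 := by
    rw [← avg_sum]
    have : (fun σ : Perm (Fin n) => ∑ x' : Fin n, h (σ x') ^ 2) = fun _ => ∑ y, h y ^ 2 := by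
      funext σ
      exact Equiv.sum_comp σ (fun y => h y ^ 2)
    rw [this, avg_const]
  rw [sum_congr rfl fun x' _ => h1 x'] at h2
  simp only [sum_const, card_univ, Fintype.card_fin, nsmul_eq_mul] at h2
  rw [eq_div_iff npos.ne', mul_comm]
  exact h2

omit [NeZero n] in
lemma avg_cov_nonpos {h : Fin n → ℝ} (h0 : ∑ y, h y = 0) {x y : Fin n} (hxy : x ≠ y) :
    avg ∅ (fun σ : Perm (Fin n) => h (σ x) * h (σ y)) ≤ 0 := by
  have h1 : ∀ y' ∈ (univ : Finset (Fin n)).erase x,
      avg ∅ (fun σ : Perm (Fin n) => h (σ x) * h (σ y')) =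
      avg ∅ (fun σ : Perm (Fin n) => h (σ x) * h (σ y)) := by
    intro y' hy'
    have hy'x : y' ≠ x := (mem_erase.mp hy').1
    rw [← avg_empty_right _ (swap y y')]
    congr 1
    funext σ
    rw [Perm.mul_apply, Perm.mul_apply, swap_apply_right, swap_apply_of_ne_of_ne hxy hy'x.symm]
  have h2 : ∑ y' : Fin n, avg ∅ (fun σ : Perm (Fin n) => h (σ x) * h (σ y')) = 0 := by
    rw [← avg_sum]
    have : (fun σ : Perm (Fin n) => ∑ y' : Fin n, h (σ x) * h (σ y')) = fun _ => 0 := by
      funext σ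
      rw [← mul_sum, Equiv.sum_comp σ h, h0, mul_zero]
    rw [this, avg_const]
  rw [← add_sum_erase _ _ (mem_univ x), sum_congr rfl h1, sum_const,
    card_erase_of_mem (mem_univ x), card_univ, Fintype.card_fin, nsmul_eq_mul] at h2
  have h3 : 0 ≤ avg ∅ (fun σ : Perm (Fin n) => h (σ x) * h (σ x)) :=
    avg_nonneg fun σ => mul_self_nonneg _
  have hn2 : 2 ≤ n := by
    have h4 := x.2
    have h5 := y.2
    have h6 : (x : ℕ) ≠ (y : ℕ) := fun e => hxy (Fin.ext e)
    omega
  have h4 : (0 : ℝ) < ((n - 1 : ℕ) : ℝ) := by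
    have : 0 < n - 1 := by omega
    exact_mod_cast this
  by_contra hc
  push Not at hc
  have := mul_pos h4 hc
  linarith

lemma FF_hs (σ : Perm (Fin n)) :
    FF (gs n k) (gs n k) σ - Sg n k ^ 2 / n = FF (hs n k) (gs n k) σ := by
  have hnp := (npos (n := n)).ne'
  unfold FF hs
  have h1 : ∀ x : Fin n, (gs n k (σ x) - Sg n k / n) * gs n k x =
      gs n k (σ x) * gs n k x - Sg n k / n * gs n k x := by
    intro x; ring
  rw [sum_congr rfl fun x _ => h1 x, sum_sub_distrib, ← mul_sum]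
  have h2 : ∑ x : Fin n, gs n k x = Sg n k := rfl
  rw [h2]
  ring

lemma var_unif (hn : k + 2 ≤ n) :
    avg ∅ (fun σ : Perm (Fin n) => (FF (gs n k) (gs n k) σ - Sg n k ^ 2 / n) ^ 2) ≤
      ((k : ℝ) + 1) ^ 2 / n := by
  have hnp : (0 : ℝ) < n := npos
  have h1 : (fun σ : Perm (Fin n) => (FF (gs n k) (gs n k) σ - Sg n k ^ 2 / n) ^ 2) =
      fun σ => ∑ x, ∑ y, (gs n k x * gs n k y) * (hs n k (σ x) * hs n k (σ y)) := by
    funext σ
    rw [FF_hs, sq]
    unfold FF
    rw [sum_mul_sum]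
    apply sum_congr rfl; intro x _
    apply sum_congr rfl; intro y _
    ring
  rw [h1, avg_sum]
  have h2 : ∀ x : Fin n, avg ∅ (fun σ : Perm (Fin n) =>
      ∑ y, (gs n k x * gs n k y) * (hs n k (σ x) * hs n k (σ y))) ≤
      gs n k x ^ 2 * (ip (hs n k) (hs n k) / n) := by
    intro x
    rw [avg_sum, ← add_sum_erase _ _ (mem_univ x)]
    have e1 : avg ∅ (fun σ : Perm (Fin n) =>
        (gs n k x * gs n k x) * (hs n k (σ x) * hs n k (σ x))) =
        gs n k x ^ 2 * (ip (hs n k) (hs n k) / n) := by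
      rw [avg_mul_left]
      have := avg_sq_apply (hs n k) x
      have e2 : (fun σ : Perm (Fin n) => hs n k (σ x) * hs n k (σ x)) =
          fun σ => hs n k (σ x) ^ 2 := by funext σ; ring
      rw [e2, this]
      have e3 : ∑ y, hs n k y ^ 2 = ip (hs n k) (hs n k) := by
        unfold ip; apply sum_congr rfl; intro y _; ring
      rw [e3]; ring
    rw [e1]
    have e2 : ∑ y ∈ univ.erase x, avg ∅ (fun σ : Perm (Fin n) =>
        (gs n k x * gs n k y) * (hs n k (σ x) * hs n k (σ y))) ≤ 0 := by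
      apply sum_nonpos
      intro y hy
      rw [avg_mul_left]
      apply mul_nonpos_of_nonneg_of_nonpos
      · exact mul_nonneg (gs_nonneg x) (gs_nonneg y)
      · exact avg_cov_nonpos sum_hs (mem_erase.mp hy).1.symm
    linarith
  refine (sum_le_sum fun x _ => h2 x).trans ?_
  rw [← sum_mul]
  have h3 : ∑ x : Fin n, gs n k x ^ 2 = ip (gs n k) (gs n k) := by
    unfold ip; apply sum_congr rfl; intro y _; ring
  rw [h3]
  have h4 := N2_le (n := n) (k := k) hn
  have h5 : ip (hs n k) (hs n k) ≤ ip (gs n k) (gs n k) := by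
    have e0 := ip_hs (n := n) (k := k) 0
    unfold mt at e0
    simp only [Function.iterate_zero, id_eq] at e0
    rw [e0]
    have : 0 ≤ Sg n k ^ 2 / n := by positivity
    linarith
  have h6 : 0 ≤ ip (hs n k) (hs n k) := by
    unfold ip; exact sum_nonneg fun x _ => mul_self_nonneg _
  have h7 : 0 ≤ ip (gs n k) (gs n k) := by
    unfold ip; exact sum_nonneg fun x _ => mul_self_nonneg _
  rw [mul_div_assoc']
  apply div_le_div_of_nonneg_right _ hnp.le
  rw [sq]
  exact mul_le_mul h4 (h5.trans h4) h6 (by positivity)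

/-! ### the total variation distance -/

lemma tv_ge2 (hk : 1 ≤ k) (hn : k + 2 ≤ n) (t : ℕ) {G : ℝ} (hG : 0 < G)
    (hgap : G ≤ mt n k t - Sg n k ^ 2 / n) :
    1 - 4 * (mt n k t + t * ce n k) / (mt n k t - Sg n k ^ 2 / n) ^ 2 -
      4 * (((k : ℝ) + 1) ^ 2 / n) / G ^ 2 ≤
      tv (convPow (pb n k) t) (unifOn univ) := by
  have hnp : (0 : ℝ) < n := npos
  set M := mt n k t with hM
  set W := Sg n k ^ 2 / n with hW
  set D := (M - W) / 2 with hD
  have hD0 : 0 < D := by rw [hD]; linarith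
  classical
  set A : Finset (Perm (Fin n)) := univ.filter fun σ => W + D ≤ FF (gs n k) (gs n k) σ with hA
  have h1 : (K n k)^[t] (ind Aᶜ) 1 ≤ (M + t * ce n k) / D ^ 2 := by
    have e1 : ∀ σ, ind Aᶜ σ ≤ 1 * ((D ^ 2)⁻¹ * (FF (gs n k) (gs n k) σ ^ 2) +
        (-(2 * M * (D ^ 2)⁻¹)) * FF (gs n k) (gs n k) σ) + (M ^ 2 * (D ^ 2)⁻¹) * 1 := by
      intro σ
      have e2 : 1 * ((D ^ 2)⁻¹ * (FF (gs n k) (gs n k) σ ^ 2) +
        (-(2 * M * (D ^ 2)⁻¹)) * FF (gs n k) (gs n k) σ) + (M ^ 2 * (D ^ 2)⁻¹) * 1 =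
          (FF (gs n k) (gs n k) σ - M) ^ 2 / D ^ 2 := by
        field_simp
        ring
      rw [e2]
      by_cases hσ : σ ∈ A
      · rw [ind_compl]
        unfold ind
        rw [if_pos hσ, sub_self]
        positivity
      · have e3 : FF (gs n k) (gs n k) σ < W + D := by
          rw [hA, mem_filter] at hσ
          push Not at hσ
          exact hσ (mem_univ _)
        rw [ind_compl]
        unfold ind
        rw [if_neg hσ, sub_zero, le_div_iff₀ (by positivity), one_mul]
        have e4 : W + D = M - D := by rw [hD]; ring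
        rw [e4] at e3
        nlinarith
    have e5 := K_iter_mono (k := k) e1 t 1
    have e6 : (K n k)^[t] (fun σ => 1 * ((D ^ 2)⁻¹ * (FF (gs n k) (gs n k) σ ^ 2) +
        (-(2 * M * (D ^ 2)⁻¹)) * FF (gs n k) (gs n k) σ) + (M ^ 2 * (D ^ 2)⁻¹) * 1) 1 =
        1 * ((D ^ 2)⁻¹ * (K n k)^[t] (fun τ => FF (gs n k) (gs n k) τ ^ 2) 1 +
        (-(2 * M * (D ^ 2)⁻¹)) * (K n k)^[t] (FF (gs n k) (gs n k)) 1) +
        (M ^ 2 * (D ^ 2)⁻¹) * 1 := by
      have e7 := congrFun (K_iter_lin (k := k) 1 (M ^ 2 * (D ^ 2)⁻¹) (fun σ : Perm (Fin n) =>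
        (D ^ 2)⁻¹ * (fun τ => FF (gs n k) (gs n k) τ ^ 2) σ +
        (-(2 * M * (D ^ 2)⁻¹)) * FF (gs n k) (gs n k) σ) (fun _ => (1:ℝ)) t) 1
      have e7b := congrFun (K_iter_lin (k := k) (D ^ 2)⁻¹ (-(2 * M * (D ^ 2)⁻¹))
        (fun τ : Perm (Fin n) => FF (gs n k) (gs n k) τ ^ 2) (FF (gs n k) (gs n k)) t) 1
      have e7c := congrFun (K_iter_const (n := n) (k := k) 1 t) 1
      refine e7.trans ?_
      rw [e7b, e7c]
    rw [e6, first_moment, ← hM] at e5
    have e8 := second_moment hk hn t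
    rw [← hM] at e8
    refine e5.trans ?_
    have e9 : (D ^ 2)⁻¹ * (K n k)^[t] (fun τ => FF (gs n k) (gs n k) τ ^ 2) 1 ≤
        (D ^ 2)⁻¹ * (M ^ 2 + M + t * ce n k) :=
      mul_le_mul_of_nonneg_left e8 (by positivity)
    have e10 : (M + t * ce n k) / D ^ 2 = (D ^ 2)⁻¹ * (M ^ 2 + M + t * ce n k) +
        (-(2 * M * (D ^ 2)⁻¹)) * M + M ^ 2 * (D ^ 2)⁻¹ := by
      field_simp
      ring
    rw [e10]
    linarith
  have h2 : avg ∅ (ind A) ≤ (((k : ℝ) + 1) ^ 2 / n) / D ^ 2 := by
    have e1 : ∀ σ, ind A σ ≤ (FF (gs n k) (gs n k) σ - W) ^ 2 / D ^ 2 := by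
      intro σ
      by_cases hσ : σ ∈ A
      · have e3 : W + D ≤ FF (gs n k) (gs n k) σ := by
          rw [hA, mem_filter] at hσ
          exact hσ.2
        unfold ind
        rw [if_pos hσ, le_div_iff₀ (by positivity), one_mul]
        nlinarith
      · unfold ind
        rw [if_neg hσ]
        positivity
    refine (avg_mono e1).trans ?_
    rw [avg_div]
    exact div_le_div_of_nonneg_right (var_unif hn) (by positivity)
  have h3 := le_tv (convPow (pb n k) t) (unifOn univ) A
  rw [convPow_pb (by omega), unif_eq] at h3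
  have h4 := le_abs_self ((K n k)^[t] (ind A) 1 - avg ∅ (ind A))
  rw [K_compl] at h1
  have h5 : (M + t * ce n k) / D ^ 2 = 4 * (M + t * ce n k) / (M - W) ^ 2 := by
    rw [hD, div_pow]
    have : M - W ≠ 0 := by linarith
    field_simp
    ring
  have h6 : (((k : ℝ) + 1) ^ 2 / n) / D ^ 2 ≤ 4 * (((k : ℝ) + 1) ^ 2 / n) / G ^ 2 := by
    have e1 : (((k : ℝ) + 1) ^ 2 / n) / D ^ 2 = 4 * (((k : ℝ) + 1) ^ 2 / n) / (M - W) ^ 2 := by
      rw [hD, div_pow]
      have : M - W ≠ 0 := by linarith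
      field_simp
      ring
    rw [e1]
    apply div_le_div_of_nonneg_left (by positivity) (by positivity)
    exact pow_le_pow_left₀ hG.le hgap 2
  rw [h5] at h1
  linarith

end Pool.Agent.H79.Cut
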