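import Mathlib
import Pool.Agent.H79.CutLower2B
import Pool.Agent.H79.CutAsym

/-!
# The lower bound half of the cut-off for all tails with `k → ∞`, `k / n → 0`
-/

namespace Pool.Agent.H79.Cut

open Equiv Finset Filter Topology

lemma th_pos (k : ℕ) : 0 < th k := by
  unfold th
  have := Real.pi_pos
  positivity

lemma th_sq_mul_le (k : ℕ) : ((k : ℝ) + 1) ^ 2 * th k ^ 2 ≤ Real.pi ^ 2 / 4 := by
  unfold th
  rw [div_pow, mul_div_assoc', div_le_div_iff₀ (by positivity) (by norm_num)]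
  have : (0 : ℝ) ≤ k := by positivity
  have h1 : ((k : ℝ) + 1) ^ 2 * 4 ≤ (2 * k + 3) ^ 2 := by nlinarith
  nlinarith [sq_nonneg Real.pi]

lemma la_le (n k : ℕ) : la n k ≤ th k ^ 2 / n := by
  unfold la
  apply div_le_div_of_nonneg_right _ (by positivity)
  have := Real.one_sub_sq_div_two_le_cos (x := th k)
  linarith

lemma ce_le {n k : ℕ} (hk : 1 ≤ k) (hn : 1 ≤ n) : ce n k ≤ 5 * th k ^ 2 / (n : ℝ) ^ 2 := by
  have hn0 : (0 : ℝ) < n := by exact_mod_cast hn
  have hpi : Real.pi ^ 2 ≤ 10 := by nlinarith [Real.pi_lt_d2, Real.pi_pos]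
  have hk1 : (1 : ℝ) ≤ k := by exact_mod_cast hk
  have h1 := la_le n k
  have h0 := la_nonneg (n := n) (k := k)
  have h2 : la n k ^ 2 ≤ (th k ^ 2 / n) ^ 2 := pow_le_pow_left₀ h0 h1 2
  have h3 : Real.sin (th k) ^ 2 ≤ th k ^ 2 := by
    have e1 := Real.sin_le (th_pos k).le
    have e2 : -(th k) ≤ Real.sin (th k) := by
      have e3 := Real.abs_sin_le_abs (x := th k)
      rw [abs_of_pos (th_pos k)] at e3
      exact (abs_le.mp e3).1
    nlinarith
  have h4 : th k ^ 2 * ((k : ℝ) + 1) ≤ 5 / 4 := by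
    have e1 := th_sq_mul_le k
    have e2 : th k ^ 2 * ((k : ℝ) + 1) * ((k : ℝ) + 1) ≤ 5 / 4 * ((k : ℝ) + 1) := by nlinarith
    exact le_of_mul_le_mul_right e2 (by linarith)
  unfold ce
  have h5 : 2 * la n k ^ 2 * ((k : ℝ) + 1) ≤ 2 * (th k ^ 2 / n) ^ 2 * ((k : ℝ) + 1) := by
    apply mul_le_mul_of_nonneg_right _ (by positivity)
    linarith
  have h6 : 2 * (th k ^ 2 / n) ^ 2 * ((k : ℝ) + 1) ≤ 5 / 2 * (th k ^ 2 / (n : ℝ) ^ 2) := by
    have e1 : 2 * (th k ^ 2 / n) ^ 2 * ((k : ℝ) + 1) =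
        2 * (th k ^ 2 * ((k : ℝ) + 1)) * (th k ^ 2 / (n : ℝ) ^ 2) := by
      field_simp
    rw [e1]
    apply mul_le_mul_of_nonneg_right _ (by positivity)
    linarith
  have h7 : 2 * (Real.sin (th k) / n) ^ 2 ≤ 2 * (th k ^ 2 / (n : ℝ) ^ 2) := by
    rw [div_pow]
    apply mul_le_mul_of_nonneg_left _ (by norm_num)
    exact div_le_div_of_nonneg_right h3 (by positivity)
  have h8 : 0 ≤ th k ^ 2 / (n : ℝ) ^ 2 := by positivity
  have h9 : 5 * th k ^ 2 / (n : ℝ) ^ 2 = 5 * (th k ^ 2 / (n : ℝ) ^ 2) := by ring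
  rw [h9]
  linarith

lemma frac_aux {l q : ℝ} (hq : 0 < q) (h : 0 < q - l) : l / q / (1 - l / q) = l / (q - l) := by
  have h1 : 1 - l / q = (q - l) / q := by field_simp
  have h2 := h.ne'
  rw [h1]
  field_simp

lemma aux1 {y ε L : ℝ} (hy : 0 < y) (hε1 : ε < 1) (h : L ≤ 2 * Real.log y) :
    1 ≤ Real.exp (-(ε / 2 * Real.log y)) * (y * Real.exp (-((1 - ε / 2) * (L / 2)))) := by
  have h1 : y * Real.exp (-((1 - ε / 2) * (L / 2))) =
      Real.exp (Real.log y + -((1 - ε / 2) * (L / 2))) := by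
    rw [Real.exp_add, Real.exp_log hy]
  rw [h1, ← Real.exp_add]
  apply Real.one_le_exp
  nlinarith

lemma aux2 {n ε L : ℝ} (hn : 0 < n) (hε1 : ε < 1) (h : L ≤ Real.log n) :
    1 / n * (Real.exp ((1 - ε / 2) * (L / 2))) ^ 2 ≤ Real.exp (-(ε / 2 * Real.log n)) := by
  have h2 : (1 : ℝ) / n = Real.exp (-(Real.log n)) := by
    rw [Real.exp_neg, Real.exp_log hn]; ring
  rw [h2, ← Real.exp_nat_mul, ← Real.exp_add]
  apply Real.exp_le_exp.mpr
  push_cast
  nlinarith

lemma aux3 {X G V W M c E1 E2 : ℝ} (hG0 : 0 < G) (hGX : G ≤ X) (hV : 0 ≤ V)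
    (h1 : 1 / G ≤ 8 * E1) (h2 : V / G ^ 2 ≤ 64 * E2) (hM : M = X + W) (hW : W ≤ V) (hc : c ≤ 1) :
    1 - 32 * E1 - 512 * E2 - 256 * E1 ^ 2 ≤ 1 - 4 * (M + c) / X ^ 2 - 4 * V / G ^ 2 := by
  have hX0 : 0 < X := lt_of_lt_of_le hG0 hGX
  have e1 : 4 * (M + c) / X ^ 2 ≤ 4 / X + 4 * V / X ^ 2 + 4 / X ^ 2 := by
    have e2 : 4 / X + 4 * V / X ^ 2 + 4 / X ^ 2 = 4 * (X + V + 1) / X ^ 2 := by
      field_simp
    rw [e2]
    apply div_le_div_of_nonneg_right _ (by positivity)
    linarith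
  have e2 : 4 / X ≤ 4 / G := div_le_div_of_nonneg_left (by norm_num) hG0 hGX
  have hGX2 : G ^ 2 ≤ X ^ 2 := pow_le_pow_left₀ hG0.le hGX 2
  have e3 : 4 * V / X ^ 2 ≤ 4 * V / G ^ 2 :=
    div_le_div_of_nonneg_left (by positivity) (by positivity) hGX2
  have e4 : 4 / X ^ 2 ≤ 4 / G ^ 2 :=
    div_le_div_of_nonneg_left (by norm_num) (by positivity) hGX2
  have e5 : 4 / G = 4 * (1 / G) := by ring
  have e6 : 4 / G ^ 2 = 4 * (1 / G) ^ 2 := by rw [div_pow]; ring
  have e7 : 4 * V / G ^ 2 = 4 * (V / G ^ 2) := by ring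
  have e8 : (1 / G) ^ 2 ≤ (8 * E1) ^ 2 := pow_le_pow_left₀ (by positivity) h1 2
  rw [e5] at e2
  rw [e6] at e4
  rw [e7] at e3
  rw [e7]
  have e9 : (8 * E1) ^ 2 = 64 * E1 ^ 2 := by ring
  rw [e9] at e8
  linarith

/-- The lower bound half of the cut-off. -/
lemma cutoff_lower2 {k : ℕ → ℕ} {t : ℕ → ℝ} (hk : Tendsto k atTop atTop)
    (hkn : Tendsto (fun n => (k n : ℝ) / n) atTop (𝓝 0))
    (htpos : ∀ᶠ n : ℕ in atTop, 0 < t n)
    (hhi : ∀ᶠ n : ℕ in atTop, t n / n ≤
      2 / Real.pi ^ 2 * ((k n : ℝ) + 1) ^ 2 * min (2 * Real.log ((k n : ℝ) + 1)) (Real.log n))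
    {ε : ℝ} (hε : 0 < ε) (hε1 : ε < 1) :
    Tendsto (fun n => tv (convPow (pfam k n) ⌊(1 - ε) * t n⌋₊) (unifOn univ)) atTop (𝓝 1) := by
  have hpi := Real.pi_pos
  have hpi4 := Real.pi_lt_four
  have hbound : ∀ᶠ n : ℕ in atTop,
      1 - 32 * Real.exp (-(ε / 2 * Real.log ((k n : ℝ) + 1))) -
        512 * Real.exp (-(ε / 2 * Real.log n)) -
        256 * Real.exp (-(ε / 2 * Real.log ((k n : ℝ) + 1))) ^ 2 ≤
      tv (convPow (pfam k n) ⌊(1 - ε) * t n⌋₊) (unifOn univ) := by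
    have e1 : ∀ᶠ n : ℕ in atTop, (k n : ℝ) / n ≤ ε / 8 :=
      hkn.eventually_le_const (by positivity)
    have e2 : ∀ᶠ n : ℕ in atTop, 8 / ε ≤ (n : ℝ) :=
      tendsto_natCast_atTop_atTop.eventually_ge_atTop _
    have e4 : ∀ᶠ n : ℕ in atTop, 100 ≤ n := eventually_ge_atTop 100
    have e5 : ∀ᶠ n : ℕ in atTop, ‖Real.log (n : ℝ)‖ ≤ 1 / 5 * ‖((n : ℕ) : ℝ)‖ :=
      (Real.isLittleO_log_id_atTop.comp_tendsto tendsto_natCast_atTop_atTop).def
        (by norm_num : (0:ℝ) < 1 / 5)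
    filter_upwards [e1, e2, e4, e5, hhi, htpos, hk.eventually_ge_atTop 1] with
      n e1 e2 e4 e5 hhi ht0 hk1
    have : NeZero n := ⟨by omega⟩
    rw [pfam_eq]
    set K := k n with hKdef
    have hnR : (100 : ℝ) ≤ n := by exact_mod_cast e4
    have hn0 : (0 : ℝ) < n := by linarith
    have hK1 : (1 : ℝ) ≤ K := by exact_mod_cast hk1
    have hKn : (K : ℝ) ≤ n * (ε / 8) := by
      rw [div_le_iff₀ hn0] at e1; linarith
    have hnε : 8 ≤ n * ε := by
      rw [div_le_iff₀ hε] at e2; linarith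
    have hKn2 : (K : ℝ) ≤ n / 8 := by nlinarith
    have hKnat : K * 8 ≤ n := by
      have : (K : ℝ) * 8 ≤ n := by linarith
      exact_mod_cast this
    have hq : ((K : ℝ) + 1) / n ≤ ε / 4 := by
      rw [div_le_iff₀ hn0]; nlinarith
    have hlogn : 0 ≤ Real.log n := Real.log_nonneg (by linarith)
    have hlogn5 : Real.log n ≤ n / 5 := by
      rw [Real.norm_of_nonneg hlogn, Real.norm_of_nonneg hn0.le] at e5
      linarith
    have hlogK : 0 ≤ Real.log ((K : ℝ) + 1) := Real.log_nonneg (by linarith)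
    set L := min (2 * Real.log ((K : ℝ) + 1)) (Real.log n) with hL
    have hL0 : 0 ≤ L := le_min (by positivity) hlogn
    have hL1 : L ≤ 2 * Real.log ((K : ℝ) + 1) := min_le_left _ _
    have hL2 : L ≤ Real.log n := min_le_right _ _
    -- the angle
    have hth := th_sq_mul_le K
    have hth0 := th_pos K
    have hth1 : th K ^ 2 ≤ 1 := by
      have h1 : Real.pi ^ 2 ≤ 16 := by nlinarith
      have h2 : (2:ℝ) ^ 2 ≤ ((K : ℝ) + 1) ^ 2 := pow_le_pow_left₀ (by norm_num) (by linarith) 2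
      have h3 : 0 ≤ th K ^ 2 := by positivity
      nlinarith
    have hla0 := la_nonneg (n := n) (k := K)
    have hla := la_le n K
    have hla1 : la n K ≤ 1 / n := hla.trans (div_le_div_of_nonneg_right hth1 hn0.le)
    have hla2 : la n K ≤ ε / 8 := by
      refine hla1.trans ?_
      rw [div_le_div_iff₀ hn0 (by norm_num)]
      linarith
    set T := ⌊(1 - ε) * t n⌋₊ with hT
    have hT1 : (T : ℝ) ≤ (1 - ε) * t n := Nat.floor_le (mul_nonneg (by linarith) ht0.le)
    -- the product of the time and the squared angle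
    have hTth : T * th K ^ 2 ≤ (1 - ε) * (n * (L / 2)) := by
      have h1 : T * th K ^ 2 ≤ (1 - ε) * (t n * th K ^ 2) := by
        have := mul_le_mul_of_nonneg_right hT1 (by positivity : 0 ≤ th K ^ 2)
        linarith
      have h2 : t n * th K ^ 2 ≤ n * (L / 2) := by
        have h3 : t n ≤ n * (2 / Real.pi ^ 2 * ((K : ℝ) + 1) ^ 2 * L) := by
          rw [div_le_iff₀ hn0] at hhi; linarith
        have h4 := mul_le_mul_of_nonneg_right h3 (by positivity : 0 ≤ th K ^ 2)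
        have h5 : n * (2 / Real.pi ^ 2 * ((K : ℝ) + 1) ^ 2 * L) * th K ^ 2 =
            n * L * (2 / Real.pi ^ 2) * (((K : ℝ) + 1) ^ 2 * th K ^ 2) := by ring
        have h6 : n * L * (2 / Real.pi ^ 2) * (((K : ℝ) + 1) ^ 2 * th K ^ 2) ≤
            n * L * (2 / Real.pi ^ 2) * (Real.pi ^ 2 / 4) :=
          mul_le_mul_of_nonneg_left hth (by positivity)
        have h7 : n * L * (2 / Real.pi ^ 2) * (Real.pi ^ 2 / 4) = n * (L / 2) := by
          field_simp
          ring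
        linarith
      exact h1.trans (mul_le_mul_of_nonneg_left h2 (by linarith))
    have hTce : T * ce n K ≤ 1 := by
      have h1 := ce_le (n := n) hk1 (by omega)
      have h2 := mul_le_mul_of_nonneg_left h1 (by positivity : (0:ℝ) ≤ T)
      have h3 : T * (5 * th K ^ 2 / (n : ℝ) ^ 2) = (T * th K ^ 2) * (5 / (n : ℝ) ^ 2) := by ring
      have h4 : (T * th K ^ 2) * (5 / (n : ℝ) ^ 2) ≤ (n * (n / 10)) * (5 / (n : ℝ) ^ 2) := by
        apply mul_le_mul_of_nonneg_right _ (by positivity)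
        refine hTth.trans ?_
        have h5 : (1 - ε) * (n * (L / 2)) ≤ 1 * (n * (L / 2)) :=
          mul_le_mul_of_nonneg_right (by linarith) (by positivity)
        have h6 : (n : ℝ) * (L / 2) ≤ n * (n / 10) :=
          mul_le_mul_of_nonneg_left (by linarith) hn0.le
        linarith
      have h5 : (n * (n / 10)) * (5 / (n : ℝ) ^ 2) = 1 / 2 := by
        field_simp
        norm_num
      linarith
    -- the gap
    set x : ℝ := la n K / (1 - ε / 4) with hx
    have hx0 : 0 ≤ x := div_nonneg hla0 (by linarith)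
    have hx1 : x < 1 := by
      rw [hx, div_lt_one (by linarith)]
      linarith
    have hgap := gap_ge (n := n) hk1 (by omega) hq (by linarith) hx1 T
    rw [← hx] at hgap
    have hTx : T * (x / (1 - x)) ≤ (1 - ε / 2) * (L / 2) := by
      have h1 : T * la n K ≤ (1 - ε) * (L / 2) := by
        have h2 : T * la n K ≤ T * (th K ^ 2 / n) := mul_le_mul_of_nonneg_left hla (by positivity)
        have h3 : T * (th K ^ 2 / n) = (T * th K ^ 2) / n := by ring
        have h4 : (T * th K ^ 2) / n ≤ (1 - ε) * (n * (L / 2)) / n :=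
          div_le_div_of_nonneg_right hTth hn0.le
        have h5 : (1 - ε) * (n * (L / 2)) / n = (1 - ε) * (L / 2) := by
          field_simp
        linarith
      have h2 : x / (1 - x) = la n K / (1 - ε / 4 - la n K) :=
        frac_aux (by linarith) (by linarith)
      rw [h2, mul_div_assoc', div_le_iff₀ (by linarith)]
      have h3 : (1 - ε) * (L / 2) ≤ (1 - ε / 2) * (1 - ε / 2) * (L / 2) := by
        apply mul_le_mul_of_nonneg_right _ (by positivity)
        nlinarith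
      have h4 : (1 - ε / 2) * (L / 2) * (1 - ε / 2) ≤
          (1 - ε / 2) * (L / 2) * (1 - ε / 4 - la n K) := by
        apply mul_le_mul_of_nonneg_left (by linarith)
        apply mul_nonneg (by linarith) (by positivity)
      linarith
    have hr : Real.exp (-((1 - ε / 2) * (L / 2))) ≤ (1 - x) ^ T :=
      (Real.exp_le_exp.mpr (neg_le_neg hTx)).trans (one_sub_pow_ge hx1 T)
    set G : ℝ := ((K : ℝ) + 1) / 8 * Real.exp (-((1 - ε / 2) * (L / 2))) with hG
    have hG0 : 0 < G := by positivity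
    have hGgap : G ≤ mt n K T - Sg n K ^ 2 / n := by
      refine le_trans ?_ hgap
      exact mul_le_mul_of_nonneg_left hr (by positivity)
    have htv := tv_ge2 (n := n) hk1 (by omega) T hG0 hGgap
    refine le_trans ?_ htv
    -- the two errors
    set E1 := Real.exp (-(ε / 2 * Real.log ((K : ℝ) + 1))) with hE1
    set E2 := Real.exp (-(ε / 2 * Real.log n)) with hE2
    have hE10 : 0 < E1 := Real.exp_pos _
    have hGE : 1 / G ≤ 8 * E1 := by
      rw [div_le_iff₀ hG0, hG]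
      have h1 := aux1 (y := (K : ℝ) + 1) (by positivity) hε1 hL1
      rw [← hE1] at h1
      linarith
    have hGE2 : (((K : ℝ) + 1) ^ 2 / n) / G ^ 2 ≤ 64 * E2 := by
      have h1 : (((K : ℝ) + 1) ^ 2 / n) / G ^ 2 =
          64 * ((1 / n) * (Real.exp ((1 - ε / 2) * (L / 2))) ^ 2) := by
        rw [hG, Real.exp_neg]
        have h2 : (K : ℝ) + 1 ≠ 0 := by positivity
        have h3 := (Real.exp_pos ((1 - ε / 2) * (L / 2))).ne'
        field_simp
        norm_num
      rw [h1]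
      exact mul_le_mul_of_nonneg_left (aux2 hn0 hε1 hL2) (by norm_num)
    have hW : Sg n K ^ 2 / n ≤ ((K : ℝ) + 1) ^ 2 / n := by
      apply div_le_div_of_nonneg_right _ hn0.le
      have h1 := Sg_ge (n := n) (k := K) (by omega)
      exact pow_le_pow_left₀ (by linarith) (Sg_le (n := n) (k := K) (by omega)) 2
    exact aux3 hG0 hGgap (by positivity) hGE hGE2 (by ring) hW hTce
  have hkR : Tendsto (fun n => (k n : ℝ)) atTop atTop := tendsto_natCast_atTop_atTop.comp hk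
  have l2 : Tendsto (fun n => Real.exp (-(ε / 2 * Real.log ((k n : ℝ) + 1)))) atTop (𝓝 0) := by
    apply Real.tendsto_exp_neg_atTop_nhds_zero.comp
    exact (Real.tendsto_log_atTop.comp (tendsto_atTop_add_const_right _ _ hkR)).const_mul_atTop
      (by positivity)
  have l3 : Tendsto (fun n : ℕ => Real.exp (-(ε / 2 * Real.log (n : ℝ)))) atTop (𝓝 0) := by
    apply Real.tendsto_exp_neg_atTop_nhds_zero.comp
    exact (Real.tendsto_log_atTop.comp tendsto_natCast_atTop_atTop).const_mul_atTop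
      (by positivity)
  have l4 := ((tendsto_const_nhds (x := (1:ℝ))).sub (l2.const_mul 32)).sub (l3.const_mul 512)
  have l5 := l4.sub ((l2.pow 2).const_mul 256)
  have l6 : (1 : ℝ) - 32 * 0 - 512 * 0 - 256 * 0 ^ 2 = 1 := by norm_num
  rw [l6] at l5
  refine tendsto_of_tendsto_of_tendsto_of_le_of_le' l5 tendsto_const_nhds hbound ?_
  have e1 : ∀ᶠ n : ℕ in atTop, (k n : ℝ) / n ≤ 1 / 2 := hkn.eventually_le_const (by positivity)
  filter_upwards [e1, eventually_ge_atTop 1] with n e1 hn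
  have : NeZero n := ⟨by omega⟩
  rw [pfam_eq]
  apply tv_pb_le_one
  have hn0 : (0 : ℝ) < n := by exact_mod_cast hn
  rw [div_le_iff₀ hn0] at e1
  have : (k n : ℝ) < n := by linarith
  exact_mod_cast this

end Pool.Agent.H79.Cut
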