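import Mathlib
import Pool.Agent.H79.CutAsym

/-!
# Every sequence between `n log n` and `n² log n` is a cut-off time sequence
-/

namespace Pool.Agent.H79.Cut

open Equiv Finset Filter Topology

/-- The normalised cut-off time of the broom with tail `k`. -/
noncomputable def cc (k : ℕ) : ℝ := 4 / Real.pi ^ 2 * (k : ℝ) ^ 2 * Real.log k

lemma window (t : ℕ → ℝ)
    (h1 : Tendsto (fun n : ℕ => t n / (n * Real.log n)) atTop atTop)
    (h2 : Tendsto (fun n : ℕ => t n / ((n : ℝ) ^ 2 * Real.log n)) atTop (𝓝 0)) :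
    IsCutoffTime t := by
  have hpi := Real.pi_pos
  have hpi4 := Real.pi_lt_four
  -- basic eventual facts
  have hlog : ∀ᶠ n : ℕ in atTop, 1 ≤ Real.log n :=
    (Real.tendsto_log_atTop.comp tendsto_natCast_atTop_atTop).eventually_ge_atTop 1
  have hn1 : ∀ᶠ n : ℕ in atTop, (1 : ℝ) ≤ n := tendsto_natCast_atTop_atTop.eventually_ge_atTop 1
  have htpos : ∀ᶠ n : ℕ in atTop, 0 < t n := by
    filter_upwards [h1.eventually_ge_atTop 1, hlog, hn1] with n h hl hn
    have h3 : (0 : ℝ) < n * Real.log n := by nlinarith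
    rw [le_div_iff₀ h3] at h
    linarith
  have htn : Tendsto (fun n : ℕ => t n / n) atTop atTop := by
    apply tendsto_atTop_mono' _ _ h1
    filter_upwards [hlog, hn1, htpos] with n hl hn ht
    have h3 : (0 : ℝ) < n * Real.log n := by nlinarith
    apply div_le_div_of_nonneg_left ht.le (by linarith)
    nlinarith
  have httop : Tendsto t atTop atTop := by
    apply tendsto_atTop_mono' _ _ htn
    filter_upwards [hn1, htpos] with n hn ht
    exact div_le_self ht.le hn
  classical
  let k : ℕ → ℕ := fun n => Nat.findGreatest (fun j => cc j ≤ t n / n) n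
  have hkdef : ∀ n, k n = Nat.findGreatest (fun j => cc j ≤ t n / n) n := fun n => rfl
  have hlo : ∀ᶠ n : ℕ in atTop, 4 / Real.pi ^ 2 * (k n : ℝ) ^ 2 * Real.log (k n) ≤ t n / n := by
    filter_upwards [htpos, hn1] with n ht hn
    have h0 : cc 0 ≤ t n / n := by
      unfold cc
      simp only [Nat.cast_zero]
      have : 0 ≤ t n / n := by positivity
      simpa using this
    have := Nat.findGreatest_spec (P := fun j => cc j ≤ t n / n) (Nat.zero_le n) h0
    rw [← hkdef] at this
    exact this
  have hhi : ∀ᶠ n : ℕ in atTop, t n / n ≤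
      4 / Real.pi ^ 2 * ((k n : ℝ) + 1) ^ 2 * Real.log ((k n : ℝ) + 1) := by
    have h3 : ∀ᶠ n : ℕ in atTop, t n / ((n : ℝ) ^ 2 * Real.log n) ≤ 1 / 8 :=
      h2.eventually_le_const (by norm_num)
    filter_upwards [htpos, hn1, hlog, h3] with n ht hn hl h3
    have h4 : (0 : ℝ) < (n : ℝ) ^ 2 * Real.log n := by positivity
    rw [div_le_iff₀ h4] at h3
    have h5 : t n / n < cc n := by
      unfold cc
      rw [div_lt_iff₀ (by linarith)]
      have h6 : (1 : ℝ) / 4 ≤ 4 / Real.pi ^ 2 := by
        rw [div_le_div_iff₀ (by norm_num) (by positivity)]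
        nlinarith
      have h7 : 1 / 4 * ((n : ℝ) ^ 2 * Real.log n) ≤ 4 / Real.pi ^ 2 * (n : ℝ) ^ 2 * Real.log n := by
        rw [mul_assoc (4 / Real.pi ^ 2)]
        exact mul_le_mul_of_nonneg_right h6 h4.le
      have h8 : 4 / Real.pi ^ 2 * (n : ℝ) ^ 2 * Real.log n ≤
          4 / Real.pi ^ 2 * (n : ℝ) ^ 2 * Real.log n * n := by
        apply le_mul_of_one_le_right _ hn
        positivity
      linarith
    have hle : k n ≤ n := Nat.findGreatest_le n
    have hne : k n ≠ n := by
      intro he
      have h0 : cc 0 ≤ t n / n := by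
        unfold cc
        simp only [Nat.cast_zero]
        have : 0 ≤ t n / n := by positivity
        simpa using this
      have := Nat.findGreatest_spec (P := fun j => cc j ≤ t n / n) (Nat.zero_le n) h0
      rw [← hkdef, he] at this
      linarith
    have hgt := Nat.findGreatest_is_greatest (P := fun j => cc j ≤ t n / n) (n := n)
      (k := k n + 1) (Nat.lt_succ_self _) (by omega)
    have h9 : ¬ cc (k n + 1) ≤ t n / n := hgt
    push Not at h9
    unfold cc at h9
    push_cast at h9
    exact h9.le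
  have hk : Tendsto k atTop atTop := by
    rw [tendsto_atTop]
    intro M
    filter_upwards [htn.eventually_ge_atTop (cc M), eventually_ge_atTop M] with n h hM
    exact Nat.le_findGreatest hM h
  have hk2 : Tendsto (fun n => (k n : ℝ) ^ 2 / n) atTop (𝓝 0) := by
    rw [tendsto_order]
    refine ⟨fun a ha => Eventually.of_forall fun n => lt_of_lt_of_le ha (by positivity), ?_⟩
    intro δ hδ
    have h3 : ∀ᶠ n : ℕ in atTop, t n / ((n : ℝ) ^ 2 * Real.log n) ≤ δ / (2 * Real.pi ^ 2) :=
      h2.eventually_le_const (by positivity)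
    have h4 : ∀ᶠ n : ℕ in atTop, -2 * Real.log δ ≤ Real.log n :=
      (Real.tendsto_log_atTop.comp tendsto_natCast_atTop_atTop).eventually_ge_atTop _
    filter_upwards [h3, h4, htpos, hn1, hlog, hlo, hk.eventually_ge_atTop 1] with
      n h3 h4 ht hn hl hlo hk1
    by_contra hc
    push Not at hc
    have hn0 : (0 : ℝ) < n := by linarith
    have hK1 : (1 : ℝ) ≤ k n := by exact_mod_cast hk1
    rw [le_div_iff₀ hn0] at hc
    have h5 : Real.log (δ * n) ≤ Real.log ((k n : ℝ) ^ 2) := Real.log_le_log (by positivity) hc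
    rw [Real.log_mul hδ.ne' hn0.ne', Real.log_pow] at h5
    push_cast at h5
    have h6 : 1 / 4 * Real.log n ≤ Real.log (k n) := by linarith
    have h7 : 4 / Real.pi ^ 2 * (δ * n) * (1 / 4 * Real.log n) ≤
        4 / Real.pi ^ 2 * (k n : ℝ) ^ 2 * Real.log (k n) := by
      apply mul_le_mul _ h6 (by positivity) (by positivity)
      exact mul_le_mul_of_nonneg_left hc (by positivity)
    have h8 : (0 : ℝ) < (n : ℝ) ^ 2 * Real.log n := by positivity
    rw [div_le_iff₀ h8] at h3
    have h9 : t n / n ≤ δ / (2 * Real.pi ^ 2) * (n * Real.log n) := by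
      rw [div_le_iff₀ hn0]
      refine h3.trans (le_of_eq ?_)
      ring
    have h10 : 4 / Real.pi ^ 2 * (δ * n) * (1 / 4 * Real.log n) =
        2 * (δ / (2 * Real.pi ^ 2) * (n * Real.log n)) := by
      field_simp
    have h11 : 0 < δ / (2 * Real.pi ^ 2) * (n * Real.log n) := by positivity
    linarith
  refine ⟨pfam k, ?_, htpos, httop, fun ε hε hε1 => ⟨cutoff_upper hk hk2 h1 hlo hε hε1,
    cutoff_lower hk hk2 htpos hhi hε hε1⟩⟩
  have hkn := tendsto_k_div hk hk2
  have e1 : ∀ᶠ n : ℕ in atTop, (k n : ℝ) / n ≤ 1 / 2 := hkn.eventually_le_const (by positivity)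
  filter_upwards [e1, eventually_ge_atTop 10] with n e1 hn
  have : NeZero n := ⟨by omega⟩
  rw [pfam_eq]
  apply isMinGenWalk_pb
  have hn0 : (0 : ℝ) < n := by exact_mod_cast (show 0 < n by omega)
  rw [div_le_iff₀ hn0] at e1
  have : (k n : ℝ) * 2 ≤ n := by linarith
  have : k n * 2 ≤ n := by exact_mod_cast this
  omega

end Pool.Agent.H79.Cut
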