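import Mathlib
import Pool.Agent.H79.CutWindow

/-!
# Cut-off times of walks on the symmetric groups based on minimal generating sets

Every real sequence `t` with `t n / (n log n) → ∞` and `t n / (n² log n) → 0` is a sequence of
cut-off times of a family of random walks on the symmetric groups based on minimal generating
sets.  The generating sets are the transpositions along the edges of a broom (a star with a path
of `k n` edges attached to one leaf), and the cut-off time is `(4 / π²) n k² log k`.
-/

namespace Pool.Agent.H79.WindowOfCutoffTimesOld

open Filter Topology Pool.Agent.H79.Cut

theorem result : ∀ t : ℕ → ℝ,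
    Tendsto (fun n : ℕ => t n / ((n : ℝ) * Real.log n)) atTop atTop →
    Tendsto (fun n : ℕ => t n / ((n : ℝ) ^ 2 * Real.log n)) atTop (𝓝 0) →
    IsCutoffTime t :=
  fun t h1 h2 => window t h1 h2

end Pool.Agent.H79.WindowOfCutoffTimesOld
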